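import Mathlib

/-!
The sequence `1 / ((n + j - 1) (n + j))` satisfies no linear recurrence.
-/

set_option autoImplicit false

namespace Pool.Agent.H22.SLP

open Polynomial

variable {F : Type*} [Field F] [CharZero F]

theorem no_recurrence {d n : ℕ} {q : ℕ → F}
    (h : ∀ j : ℕ, ∑ i ∈ Finset.range (d + 1),
      q i / (((n + i + j + 1 : ℕ) : F) * ((n + i + j + 2 : ℕ) : F)) = 0) :
    ∀ i ≤ d, q i = 0 := by
  classical
  set P : ℕ → F[X] := fun i => ∏ i' ∈ (Finset.range (d + 2)).filter (fun i' => i' ≠ i ∧ i' ≠ i + 1),
    (X + C ((n + 1 + i' : ℕ) : F)) with hP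
  have hF : ∑ i ∈ Finset.range (d + 1), C (q i) * P i = 0 := by
    apply Polynomial.eq_zero_of_infinite_isRoot
    apply Set.Infinite.mono (s := Set.range (fun j : ℕ => (j : F)))
    · rintro x ⟨j, rfl⟩
      rw [Set.mem_ofPred_eq, IsRoot, eval_finsetSum]
      have h1 : ∀ i ∈ Finset.range (d + 1), eval (j : F) (C (q i) * P i) =
          (∏ i' ∈ Finset.range (d + 2), ((j : F) + ((n + 1 + i' : ℕ) : F))) *
          (q i / (((n + i + j + 1 : ℕ) : F) * ((n + i + j + 2 : ℕ) : F))) := by
        intro i hi
        rw [Finset.mem_range] at hi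
        rw [eval_mul, eval_C, hP, eval_prod]
        simp only [eval_add, eval_X, eval_C]
        have h2 : (Finset.range (d + 2)) =
            insert i (insert (i + 1) ((Finset.range (d + 2)).filter
              (fun i' => i' ≠ i ∧ i' ≠ i + 1))) := by
          ext a
          simp only [Finset.mem_range, Finset.mem_insert, Finset.mem_filter]
          constructor
          · intro ha
            by_cases e1 : a = i
            · exact Or.inl e1
            · by_cases e2 : a = i + 1
              · exact Or.inr (Or.inl e2)
              · exact Or.inr (Or.inr ⟨ha, e1, e2⟩)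
          · rintro (rfl | rfl | ⟨h3, -⟩)
            · omega
            · omega
            · exact h3
        have h3 : (∏ i' ∈ Finset.range (d + 2), ((j : F) + ((n + 1 + i' : ℕ) : F))) =
            ((j : F) + ((n + 1 + i : ℕ) : F)) * (((j : F) + ((n + 1 + (i + 1) : ℕ) : F)) *
            ∏ i' ∈ (Finset.range (d + 2)).filter (fun i' => i' ≠ i ∧ i' ≠ i + 1),
              ((j : F) + ((n + 1 + i' : ℕ) : F))) := by
          conv_lhs => rw [h2]
          rw [Finset.prod_insert, Finset.prod_insert]
          · simp
          · simp
        rw [h3]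
        have e1 : (j : F) + ((n + 1 + i : ℕ) : F) = ((n + i + j + 1 : ℕ) : F) := by
          push_cast; ring
        have e2 : (j : F) + ((n + 1 + (i + 1) : ℕ) : F) = ((n + i + j + 2 : ℕ) : F) := by
          push_cast; ring
        rw [e1, e2]
        have e3 : ((n + i + j + 1 : ℕ) : F) ≠ 0 := Nat.cast_ne_zero.2 (by omega)
        have e4 : ((n + i + j + 2 : ℕ) : F) ≠ 0 := Nat.cast_ne_zero.2 (by omega)
        field_simp
      rw [Finset.sum_congr rfl h1, ← Finset.mul_sum, h j, mul_zero]
    · exact Set.infinite_range_of_injective Nat.cast_injective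
  intro i
  induction i using Nat.strong_induction_on with
  | _ i ih =>
    intro hi
    have h1 := congrArg (eval (-((n + 1 + i : ℕ) : F))) hF
    rw [eval_finsetSum, eval_zero, Finset.sum_eq_single i] at h1
    · rw [eval_mul, eval_C] at h1
      refine (mul_eq_zero.1 h1).resolve_right ?_
      rw [hP, eval_prod, ← ne_eq, Finset.prod_ne_zero_iff]
      intro i' hi'
      rw [Finset.mem_filter] at hi'
      simp only [eval_add, eval_X, eval_C]
      intro h2
      apply hi'.2.1
      have h3 : ((n + 1 + i' : ℕ) : F) = ((n + 1 + i : ℕ) : F) := by linear_combination h2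
      have h4 := Nat.cast_injective h3
      omega
    · intro i' hi' hne
      rw [Finset.mem_range] at hi'
      rcases lt_or_gt_of_ne hne with h2 | h2
      · rw [ih i' h2 (by omega)]
        simp
      · rw [eval_mul, hP, eval_prod, Finset.prod_eq_zero (i := i), mul_zero]
        · rw [Finset.mem_filter, Finset.mem_range]
          omega
        · simp only [eval_add, eval_X, eval_C]
          ring
    · intro h2
      exact absurd (Finset.mem_range.2 (by omega)) h2

end Pool.Agent.H22.SLP
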