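import Pool.Agent.H22.SLP.Fields
import Pool.Agent.H22.SLP.Cauchy

/-!
Algebra over `K(t₀, t₁, t₂)` with derivations: the abstract part of the proof.
-/

set_option autoImplicit false

namespace Pool.Agent.H22.SLP

/-- A graded algebra `E` over `K(t₀, t₁, t₂)` with the derivations `∂/∂t_c`, generated in degree
one by the constants `x_b`, together with a constant element `h`. The piece `G (m + 1)` is the
piece of degree `m` and `G 0` is zero. -/
structure DS (K : Type*) [Field K] (E : Type*) [CommRing E] [Algebra (FL K) E] [Algebra K E] where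
  /-- the derivations -/
  D : Fin 3 → Derivation K E E
  D_alg : ∀ c (a : FL K), D c (algebraMap (FL K) E a) = algebraMap (FL K) E (dl K c a)
  /-- the generators -/
  x : Fin 3 → E
  D_x : ∀ c b, D c (x b) = 0
  /-- the graded pieces -/
  G : ℕ → Submodule (FL K) E
  G_zero : ∀ y ∈ G 0, y = 0
  G_one : ∀ y ∈ G 1, ∃ a, y = algebraMap (FL K) E a
  G_two : ∀ y ∈ G 2, ∃ k : Fin 3 → FL K, y = ∑ b, algebraMap (FL K) E (k b) * x b
  one_mem : (1 : E) ∈ G 1
  x_mul : ∀ m b, ∀ y ∈ G m, x b * y ∈ G (m + 1)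
  D_mem : ∀ m c, ∀ y ∈ G m, D c y ∈ G m
  fin : ∀ m, Module.Finite (FL K) (G m)
  vec_inj : ∀ k : Fin 3 → FL K, ∑ b, algebraMap (FL K) E (k b) * x b = 0 → k = 0
  nzd : ∀ y, (∑ b, algebraMap (FL K) E (tl b) * x b) * y = 0 → y = 0
  div : ∀ m y, (∑ b, algebraMap (FL K) E (tl b) * x b) * y ∈ G (m + 1) → y ∈ G m
  /-- the socle degree of `E / ℓ E` -/
  s : ℕ
  soc : ∀ m ≤ s, ∀ y ∈ G m, (∀ b, ∃ z, x b * y = (∑ b, algebraMap (FL K) E (tl b) * x b) * z) →
    ∃ z, y = (∑ b, algebraMap (FL K) E (tl b) * x b) * z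
  /-- the last generator -/
  h : E
  D_h : ∀ c, D c h = 0
  h_nzd : ∀ y, h * y = 0 → y = 0

namespace DS

variable {K : Type*} [Field K] {E : Type*} [CommRing E] [Algebra (FL K) E] [Algebra K E]
variable (S : DS K E)

/-- the linear form `k · x` -/
noncomputable def vec (k : Fin 3 → FL K) : E := ∑ b, algebraMap (FL K) E (k b) * S.x b

/-- the generic linear form -/
noncomputable def ell : E := S.vec tl

/-- the derivative along `p` -/
noncomputable def DD (p : Fin 3 → FL K) (y : E) : E :=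
  algebraMap (FL K) E (p 0) * S.D 0 y + algebraMap (FL K) E (p 1) * S.D 1 y +
    algebraMap (FL K) E (p 2) * S.D 2 y

lemma vec_eq (k : Fin 3 → FL K) : S.vec k = algebraMap (FL K) E (k 0) * S.x 0 +
    algebraMap (FL K) E (k 1) * S.x 1 + algebraMap (FL K) E (k 2) * S.x 2 := by
  unfold vec
  rw [Fin.sum_univ_three]

lemma nzd' (y : E) (hy : S.ell * y = 0) : y = 0 := S.nzd y hy

lemma nzd_pow (n : ℕ) (y : E) (hy : S.ell ^ n * y = 0) : y = 0 := by
  induction n with
  | zero => simpa using hy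
  | succ n ih =>
    apply ih
    apply S.nzd'
    rw [← hy]; ring

lemma cancel_pow (n : ℕ) {y z : E} (hy : S.ell ^ n * y = S.ell ^ n * z) : y = z := by
  rw [← sub_eq_zero]
  apply S.nzd_pow n
  rw [mul_sub, hy, sub_self]

lemma h_cancel {y z : E} (hy : S.h * y = S.h * z) : y = z := by
  rw [← sub_eq_zero]
  apply S.h_nzd
  rw [mul_sub, hy, sub_self]

lemma div' (m : ℕ) (y : E) (hy : S.ell * y ∈ S.G (m + 1)) : y ∈ S.G m := S.div m y hy

lemma soc' {m : ℕ} (hm : m ≤ S.s) {y : E} (hy : y ∈ S.G m)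
    (h : ∀ b, ∃ z, S.x b * y = S.ell * z) : ∃ z ∈ S.G (m - 1), y = S.ell * z := by
  obtain ⟨z, hz⟩ := S.soc m hm y hy h
  refine ⟨z, ?_, hz⟩
  cases m with
  | zero =>
    have h0 := S.G_zero y hy
    have : z = 0 := by
      apply S.nzd'
      rw [← h0]
      exact hz.symm
    rw [this]
    exact Submodule.zero_mem _
  | succ m =>
    rw [Nat.add_sub_cancel]
    apply S.div'
    have : S.ell * z = y := hz.symm
    rw [this]
    exact hy

lemma alg_mul_mem {m : ℕ} (a : FL K) {y : E} (hy : y ∈ S.G m) :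
    algebraMap (FL K) E a * y ∈ S.G m := by
  rw [← Algebra.smul_def]
  exact Submodule.smul_mem _ _ hy

lemma vec_mul_mem {m : ℕ} (k : Fin 3 → FL K) {y : E} (hy : y ∈ S.G m) :
    S.vec k * y ∈ S.G (m + 1) := by
  unfold vec
  rw [Finset.sum_mul]
  apply Submodule.sum_mem
  intro b _
  rw [mul_assoc]
  exact S.alg_mul_mem _ (S.x_mul m b y hy)

lemma DD_mem {m : ℕ} (p : Fin 3 → FL K) {y : E} (hy : y ∈ S.G m) : S.DD p y ∈ S.G m := by
  unfold DD
  exact Submodule.add_mem _ (Submodule.add_mem _ (S.alg_mul_mem _ (S.D_mem m 0 y hy))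
    (S.alg_mul_mem _ (S.D_mem m 1 y hy))) (S.alg_mul_mem _ (S.D_mem m 2 y hy))

lemma D_mul (c : Fin 3) (y z : E) : S.D c (y * z) = y * S.D c z + z * S.D c y := by
  rw [Derivation.leibniz]
  rfl

lemma D_pow (c : Fin 3) (y : E) (n : ℕ) :
    S.D c (y ^ (n + 1)) = ((n : E) + 1) * y ^ n * S.D c y := by
  rw [Derivation.leibniz_pow]
  simp only [smul_eq_mul, nsmul_eq_mul, Nat.add_sub_cancel]
  push_cast
  ring

lemma D_vec (c : Fin 3) (k : Fin 3 → FL K) : S.D c (S.vec k) = S.vec (fun i => dl K c (k i)) := by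
  rw [vec_eq, vec_eq]
  simp only [map_add, D_mul, S.D_x, S.D_alg]
  ring

lemma D_ell (c : Fin 3) : S.D c S.ell = S.x c := by
  unfold ell
  rw [D_vec, vec_eq]
  simp only [dl_tl]
  fin_cases c <;> simp

lemma DD_mul (p : Fin 3 → FL K) (y z : E) : S.DD p (y * z) = y * S.DD p z + z * S.DD p y := by
  unfold DD
  simp only [D_mul]
  ring

lemma DD_add (p : Fin 3 → FL K) (y z : E) : S.DD p (y + z) = S.DD p y + S.DD p z := by
  unfold DD
  simp only [map_add]
  ring

lemma DD_sub (p : Fin 3 → FL K) (y z : E) : S.DD p (y - z) = S.DD p y - S.DD p z := by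
  unfold DD
  simp only [map_sub]
  ring

lemma DD_pow (p : Fin 3 → FL K) (y : E) (n : ℕ) :
    S.DD p (y ^ (n + 1)) = ((n : E) + 1) * y ^ n * S.DD p y := by
  unfold DD
  simp only [D_pow]
  ring

lemma DD_h (p : Fin 3 → FL K) : S.DD p S.h = 0 := by
  unfold DD
  simp only [S.D_h, mul_zero, add_zero]

lemma DD_alg (p : Fin 3 → FL K) (a : FL K) :
    S.DD p (algebraMap (FL K) E a) = algebraMap (FL K) E (dd p a) := by
  unfold DD dd
  simp only [S.D_alg, map_add, map_mul]

lemma DD_x (p : Fin 3 → FL K) (b : Fin 3) : S.DD p (S.x b) = 0 := by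
  unfold DD
  simp only [S.D_x, mul_zero, add_zero]

lemma DD_vec (p k : Fin 3 → FL K) : S.DD p (S.vec k) = S.vec (fun i => dd p (k i)) := by
  rw [vec_eq, vec_eq]
  simp only [DD_add, DD_mul, DD_x, DD_alg]
  ring

lemma DD_ell (p : Fin 3 → FL K) : S.DD p S.ell = S.vec p := by
  unfold ell
  rw [DD_vec]
  congr 1
  ext i
  rw [dd_tl]

lemma DD_of_D {y : E} (hy : ∀ c, S.D c y = 0) (p : Fin 3 → FL K) : S.DD p y = 0 := by
  unfold DD
  simp only [hy, mul_zero, add_zero]

variable [CharZero K]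

omit [Algebra K E] in
lemma exists_inv (n : ℕ) : ∃ r : FL K, algebraMap (FL K) E r * ((n : E) + 1) = 1 := by
  refine ⟨((n : FL K) + 1)⁻¹, ?_⟩
  have h1 : ((n : E) + 1) = algebraMap (FL K) E ((n : FL K) + 1) := by simp
  have h2 : ((n : FL K) + 1) ≠ 0 := by exact_mod_cast Nat.succ_ne_zero n
  rw [h1, ← map_mul, inv_mul_cancel₀ h2, map_one]

/-- the relation between two elements of the kernel -/
lemma cross {n : ℕ} {w u w' u' : E} (h1 : S.ell ^ (n + 1) * w = S.h * u)
    (h2 : S.ell ^ (n + 1) * w' = S.h * u') (c : Fin 3) :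
    ∃ z, S.x c * (w * u') = S.ell * z := by
  obtain ⟨r, hr⟩ := exists_inv (K := K) (E := E) n
  refine ⟨algebraMap (FL K) E r * (w' * S.D c u - u' * S.D c w), ?_⟩
  have h3 := congrArg (S.D c) h1
  rw [D_mul, D_mul, D_pow, S.D_h, D_ell] at h3
  have h4 : ((n : E) + 1) * (S.x c * (w * u')) = S.ell * (w' * S.D c u - u' * S.D c w) := by
    apply S.cancel_pow n
    linear_combination u' * h3 - S.D c u * h2
  linear_combination (-(S.x c * (w * u'))) * hr + algebraMap (FL K) E r * h4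

/-- A constant element divisible by the generic linear form is zero. -/
lemma const_zero {m : ℕ} (hm : m ≤ S.s) : ∀ {n : ℕ} {y w : E}, (∀ c, S.D c y = 0) → w ∈ S.G m →
    y = S.ell ^ (n + 1) * w → y = 0 := by
  induction m with
  | zero =>
    intro n y w _ hw h
    rw [h, S.G_zero w hw, mul_zero]
  | succ m ih =>
    intro n y w hy hw h
    obtain ⟨r, hr⟩ := exists_inv (K := K) (E := E) n
    have h1 : ∀ c, ∃ z, S.x c * w = S.ell * z := by
      intro c
      refine ⟨-(algebraMap (FL K) E r * S.D c w), ?_⟩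
      have h3 := congrArg (S.D c) h
      rw [hy, D_mul, D_pow, D_ell] at h3
      have h4 : ((n : E) + 1) * (S.x c * w) = S.ell * (-S.D c w) := by
        apply S.cancel_pow n
        linear_combination -h3
      linear_combination (-(S.x c * w)) * hr + algebraMap (FL K) E r * h4
    obtain ⟨z, hz, hwz⟩ := S.soc' hm hw h1
    rw [Nat.add_sub_cancel] at hz
    apply ih (by omega) (n := n + 1) hy hz
    rw [h, hwz]
    ring

end DS

end Pool.Agent.H22.SLP
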