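import Pool.Agent.H22.SLP.Comm2

/-!
Socle of a complete intersection of two binary forms, homogeneous division and Hilbert function.
-/

set_option autoImplicit false

open MvPolynomial

namespace Pool.Agent.H22.SLP

open Pool.Agent.H4.Ternary Pool.Agent.H4.Apolar Pool.Agent.H4.Conic Pool.Agent.H4.Descent

section socle

variable {L : Type*} [Field L]

lemma RT_mono_zero {N : ℕ} (hN : N = 0) {p : MvPolynomial (Fin 3) L} (hp : p ∈ RT 3 L N) : p = 0 := by
  subst hN
  exact mem_RT_zero.1 hp

/-- The substitution solving `t · X = 0` for `X_0`. -/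
noncomputable def sg (t : Fin 3 → L) : MvPolynomial (Fin 3) L →ₐ[L] MvPolynomial (Fin 3) L :=
  aeval (fun i => if i = 0 then -(C (t 0)⁻¹ * (C (t 1) * X 1 + C (t 2) * X 2)) else X i)

lemma lin_eq (t : Fin 3 → L) : lin t = C (t 0) * X 0 + C (t 1) * X 1 + C (t 2) * X 2 := by
  unfold lin
  rw [Fin.sum_univ_three]

lemma sg_lin {t : Fin 3 → L} (ht : t 0 ≠ 0) : sg t (lin t) = 0 := by
  rw [lin_eq]
  unfold sg
  simp only [map_add, map_mul, aeval_X, if_true, one_ne_zero, if_false,
    show (2 : Fin 3) ≠ 0 by decide, ← algebraMap_eq, AlgHom.commutes]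
  simp only [algebraMap_eq]
  have : C (t 0) * C (t 0)⁻¹ = (1 : MvPolynomial (Fin 3) L) := by
    rw [← C_mul, mul_inv_cancel₀ ht, C_1]
  linear_combination (-(C (t 1) * X 1 + C (t 2) * X 2)) * this

lemma sg_X1 (t : Fin 3 → L) : sg t (X 1) = X 1 := by simp [sg]
lemma sg_X2 (t : Fin 3 → L) : sg t (X 2) = X 2 := by simp [sg]

lemma exists_sg {t : Fin 3 → L} (ht : t 0 ≠ 0) (p : MvPolynomial (Fin 3) L) :
    ∃ q, p = sg t p + lin t * q := by
  induction p using MvPolynomial.induction_on with
  | C a => exact ⟨0, by simp [sg]⟩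
  | add p q hp hq =>
    obtain ⟨u, hu⟩ := hp
    obtain ⟨v, hv⟩ := hq
    refine ⟨u + v, ?_⟩
    rw [map_add]
    linear_combination hu + hv
  | mul_X p i hp =>
    obtain ⟨u, hu⟩ := hp
    rw [map_mul]
    by_cases hi : i = 0
    · subst hi
      refine ⟨u * X 0 + sg t p * C (t 0)⁻¹, ?_⟩
      have h1 : sg t (X 0) = -(C (t 0)⁻¹ * (C (t 1) * X 1 + C (t 2) * X 2)) := by simp [sg]
      have : C (t 0) * C (t 0)⁻¹ = (1 : MvPolynomial (Fin 3) L) := by
        rw [← C_mul, mul_inv_cancel₀ ht, C_1]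
      have h2 := lin_eq t
      rw [h1]
      linear_combination (X 0) * hu - (sg t p) * X 0 * this - (sg t p * C (t 0)⁻¹) * h2
    · refine ⟨u * X i, ?_⟩
      have : sg t (X i : MvPolynomial (Fin 3) L) = X i := by simp [sg, hi]
      rw [this]
      linear_combination (X i) * hu

/-- The socle of the quotient by two coprime forms and a regular linear form lives in one
degree. -/
theorem socle {f g : MvPolynomial (Fin 3) L} {a b : ℕ} (hf : f.IsHomogeneous a)
    (hg : g.IsHomogeneous b) (ha : 1 ≤ a) (hb : 1 ≤ b) (hfg : IsRelPrime f g) (hg0 : g ≠ 0)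
    {t : Fin 3 → L} (ht : t 0 ≠ 0)
    (hreg : ∀ e, lin t * e ∈ Ideal.span (Set.range ![f, g]) → e ∈ Ideal.span (Set.range ![f, g]))
    {m : ℕ} (hm : m + 2 ≤ a + b) {e : MvPolynomial (Fin 3) L} (he : e ∈ RT 3 L m)
    (h : ∀ i, X i * e ∈ Ideal.span (Set.range ![f, g, lin t])) :
    e ∈ Ideal.span (Set.range ![f, g, lin t]) := by
  have hl : (lin t).IsHomogeneous 1 := lin_isHomogeneous t
  have hX : ∀ i, X i * e ∈ RT 3 L (m + 1) := by
    intro i
    rw [mul_comm]
    exact mul_mem_RT he (isHomogeneous_X L i)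
  have hcoef : ∀ i, ∃ α β γ : MvPolynomial (Fin 3) L, α ∈ RT 3 L (m + 1 - a) ∧
      β ∈ RT 3 L (m + 1 - b) ∧ X i * e = α * f + β * g + γ * lin t := by
    intro i
    obtain ⟨A, hA, hAe⟩ := exists_hom_coeff (f := ![f, g, lin t]) (d := ![a, b, 1]) (by
      intro j
      fin_cases j
      · exact hf
      · exact hg
      · exact hl) (hX i) (h i)
    refine ⟨A 0, A 1, A 2, hA 0, hA 1, ?_⟩
    rw [hAe, Fin.sum_univ_three]
    rfl
  obtain ⟨α1, β1, γ1, hα1, hβ1, h1⟩ := hcoef 1
  obtain ⟨α2, β2, γ2, hα2, hβ2, h2⟩ := hcoef 2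
  set u := X 2 * α1 - X 1 * α2 with hu
  set v := X 2 * β1 - X 1 * β2 with hv
  have huv : u * f + v * g = lin t * (X 1 * γ2 - X 2 * γ1) := by
    rw [hu, hv]
    linear_combination (X 1) * h2 - (X 2) * h1
  obtain ⟨q1, q2, hq⟩ := mem_pair.1 (hreg (X 1 * γ2 - X 2 * γ1) (mem_pair.2 ⟨u, v, huv.symm⟩))
  obtain ⟨ρ, hρ1, hρ2⟩ := syz' (u := u - lin t * q1) (v := v - lin t * q2) hfg hg0
    (by linear_combination huv + lin t * hq)
  have huRT : u ∈ RT 3 L (m + 1 - a + 1) := by
    rw [hu]
    apply Submodule.sub_mem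
    · rw [mul_comm]; exact mul_mem_RT hα1 (isHomogeneous_X L _)
    · rw [mul_comm]; exact mul_mem_RT hα2 (isHomogeneous_X L _)
  have hvRT : v ∈ RT 3 L (m + 1 - b + 1) := by
    rw [hv]
    apply Submodule.sub_mem
    · rw [mul_comm]; exact mul_mem_RT hβ1 (isHomogeneous_X L _)
    · rw [mul_comm]; exact mul_mem_RT hβ2 (isHomogeneous_X L _)
  have hul : ∃ w, u = lin t * w := by
    obtain ⟨A, hA, hAe⟩ := exists_hom_coeff (f := ![g, lin t]) (d := ![b, 1]) (by
      intro j
      fin_cases j
      · exact hg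
      · exact hl) huRT (mem_pair.2 ⟨ρ, q1, by linear_combination hρ1⟩)
    have hA0 : A 0 = 0 := by
      apply RT_mono_zero _ (hA 0)
      change m + 1 - a + 1 - b = 0
      omega
    rw [Fin.sum_univ_two, hA0] at hAe
    change u = 0 * g + A 1 * lin t at hAe
    exact ⟨A 1, by rw [hAe]; ring⟩
  have hvl : ∃ w, v = lin t * w := by
    obtain ⟨A, hA, hAe⟩ := exists_hom_coeff (f := ![f, lin t]) (d := ![a, 1]) (by
      intro j
      fin_cases j
      · exact hf
      · exact hl) hvRT (mem_pair.2 ⟨-ρ, q2, by linear_combination hρ2⟩)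
    have hA0 : A 0 = 0 := by
      apply RT_mono_zero _ (hA 0)
      change m + 1 - b + 1 - a = 0
      omega
    rw [Fin.sum_univ_two, hA0] at hAe
    change v = 0 * f + A 1 * lin t at hAe
    exact ⟨A 1, by rw [hAe]; ring⟩
  have hsu : sg t α1 * X 2 = sg t α2 * X 1 := by
    obtain ⟨w, hw⟩ := hul
    have := congrArg (sg t) hw
    rw [hu, map_sub, map_mul, map_mul, map_mul, sg_X1, sg_X2, sg_lin ht] at this
    linear_combination this
  have hsv : sg t β1 * X 2 = sg t β2 * X 1 := by
    obtain ⟨w, hw⟩ := hvl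
    have := congrArg (sg t) hw
    rw [hv, map_sub, map_mul, map_mul, map_mul, sg_X1, sg_X2, sg_lin ht] at this
    linear_combination this
  obtain ⟨r1, hr1, -⟩ := syz (f := X 2) (g := X 1) (u := sg t α1) (v := sg t α2)
    (prime_X_ne (by decide)) (X_ne_zero 1) hsu
  obtain ⟨r2, hr2, -⟩ := syz (f := X 2) (g := X 1) (u := sg t β1) (v := sg t β2)
    (prime_X_ne (by decide)) (X_ne_zero 1) hsv
  have hse : sg t e = r1 * sg t f + r2 * sg t g := by
    apply mul_left_cancel₀ (X_ne_zero (R := L) (1 : Fin 3))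
    have h3 := congrArg (sg t) h1
    rw [map_add, map_add, map_mul, map_mul, map_mul, map_mul, sg_X1, sg_lin ht, hr1, hr2] at h3
    linear_combination h3
  obtain ⟨qe, hqe⟩ := exists_sg ht e
  obtain ⟨qf, hqf⟩ := exists_sg ht f
  obtain ⟨qg, hqg⟩ := exists_sg ht g
  rw [Ideal.span, Submodule.mem_span_range_iff_exists_fun]
  refine ⟨![r1, r2, qe - r1 * qf - r2 * qg], ?_⟩
  rw [Fin.sum_univ_three]
  change r1 * f + r2 * g + (qe - r1 * qf - r2 * qg) * lin t = e
  linear_combination r1 * hqf + r2 * hqg - hqe - hse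

end socle

section division

variable {L : Type*} [Field L] {n : ℕ}

/-- Homogeneous division modulo a homogeneous ideal. -/
theorem hom_div {I : Ideal (MvPolynomial (Fin n) L)}
    (hI : ∀ p ∈ I, ∀ j, homogeneousComponent j p ∈ I) {w : MvPolynomial (Fin n) L} {d : ℕ}
    (hw : w.IsHomogeneous d) (hreg : ∀ e, w * e ∈ I → e ∈ I) {p q : MvPolynomial (Fin n) L} {N : ℕ}
    (hq : q ∈ RT n L N) (h : w * p - q ∈ I) : ∃ p' ∈ RT n L (N - d), p - p' ∈ I := by
  cases N with
  | zero =>
    rw [mem_RT_zero.1 hq, sub_zero] at h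
    exact ⟨0, Submodule.zero_mem _, by rw [sub_zero]; exact hreg p h⟩
  | succ N =>
    rw [mem_RT_succ] at hq
    have hcomp : ∀ j, j + d ≠ N → homogeneousComponent j p ∈ I := by
      intro j hj
      apply hreg
      have h1 := hI _ h (j + d)
      rw [map_sub, mul_comm, homogeneousComponent_mul_of_isHomogeneous hw, if_pos (by omega),
        Nat.add_sub_cancel, homogeneousComponent_of_mem hq, if_neg hj, sub_zero] at h1
      rwa [mul_comm] at h1
    by_cases hd : d ≤ N
    · refine ⟨homogeneousComponent (N - d) p, ?_, ?_⟩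
      · rw [show N + 1 - d = (N - d) + 1 by omega, mem_RT_succ]
        exact homogeneousComponent_isHomogeneous _ _
      · have h2 : p - homogeneousComponent (N - d) p =
            ∑ j ∈ (Finset.range (p.totalDegree + 1)).filter (fun j => j ≠ N - d),
              homogeneousComponent j p := by
          rw [Finset.sum_filter]
          conv_lhs => rw [← sum_homogeneousComponent p]
          have h3 : homogeneousComponent (N - d)
              (∑ i ∈ Finset.range (p.totalDegree + 1), homogeneousComponent i p) =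
              ∑ i ∈ Finset.range (p.totalDegree + 1),
                if i = N - d then homogeneousComponent i p else 0 := by
            rw [map_sum]
            apply Finset.sum_congr rfl
            intro i _
            rw [homogeneousComponent_of_mem (homogeneousComponent_isHomogeneous i p)]
            by_cases hi : i = N - d
            · rw [if_pos hi, if_pos hi.symm]
            · rw [if_neg hi, if_neg (fun h' => hi h'.symm)]
          rw [h3, ← Finset.sum_sub_distrib]
          apply Finset.sum_congr rfl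
          intro i _
          by_cases hi : i = N - d
          · simp [hi]
          · simp [hi]
        rw [h2]
        apply Ideal.sum_mem
        intro j hj
        rw [Finset.mem_filter] at hj
        apply hcomp
        intro h4
        exact hj.2 (by omega)
    · refine ⟨0, Submodule.zero_mem _, ?_⟩
      rw [sub_zero, ← sum_homogeneousComponent p]
      apply Ideal.sum_mem
      intro j _
      exact hcomp j (by omega)

end division

section hilbert

variable {L : Type*} [Field L]

open Module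

lemma hab01 : ((0 : Fin 3) = 0 ∧ (1 : Fin 3) = 1) ∨ ((0 : Fin 3) = 1 ∧ (1 : Fin 3) = 0) :=
  Or.inl ⟨rfl, rfl⟩

instance RT_finite (N : ℕ) : FiniteDimensional L (RT 3 L N) := by
  cases N with
  | zero => change FiniteDimensional L (⊥ : Submodule L (MvPolynomial (Fin 3) L)); infer_instance
  | succ N => change FiniteDimensional L (homogeneousSubmodule (Fin 3) L N); infer_instance

lemma mul_X_mem_RT {N : ℕ} {p : MvPolynomial (Fin 3) L} (i : Fin 3) (hp : p ∈ RT 3 L N) :
    X i * p ∈ RT 3 L (N + 1) := by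
  rw [mul_comm]
  exact mul_mem_RT hp (isHomogeneous_X L i)

/-- The Hilbert function of the polynomial ring in three variables. -/
lemma finrank_RT (N : ℕ) : 2 * finrank L (RT 3 L N) = N * (N + 1) := by
  induction N with
  | zero =>
    have : finrank L (RT 3 L 0) = 0 := finrank_bot L _
    rw [this]
  | succ N ih =>
    let R : RT 3 L (N + 1) →ₗ[L] Polynomial.degreeLT L (N + 1) :=
      LinearMap.restrict (rho (K := L) 0).toLinearMap (fun g hg => rho_mem hab01 hg)
    have hsurj : LinearMap.range R = ⊤ := by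
      rw [LinearMap.range_eq_top]
      rintro ⟨p, hp⟩
      obtain ⟨g, hg, hgp⟩ := exists_lift (a := 0) (b := 1) hab01 hp
      exact ⟨⟨g, hg⟩, Subtype.ext hgp⟩
    let m0 : RT 3 L N →ₗ[L] RT 3 L (N + 1) :=
      LinearMap.restrict (LinearMap.mulLeft L (X 0 : MvPolynomial (Fin 3) L))
        (fun g hg => mul_X_mem_RT 0 hg)
    have hker : LinearMap.ker R = LinearMap.range m0 := by
      ext ⟨g, hg⟩
      rw [LinearMap.mem_ker, LinearMap.mem_range]
      constructor
      · intro h
        have h1 : rho 0 g = 0 := congrArg Subtype.val h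
        obtain ⟨u, hu, hgu⟩ := exists_of_rho_eq_zero (a := 0) (b := 1) hab01 hg h1
        exact ⟨⟨u, hu⟩, Subtype.ext hgu.symm⟩
      · rintro ⟨⟨u, hu⟩, h⟩
        apply Subtype.ext
        have h1 : X 0 * u = g := congrArg Subtype.val h
        change rho 0 g = 0
        rw [← h1, map_mul]
        simp [rho]
    have hinj : Function.Injective m0 := by
      intro u v h
      have h1 : X 0 * (u : MvPolynomial (Fin 3) L) = X 0 * (v : MvPolynomial (Fin 3) L) :=
        congrArg Subtype.val h
      exact Subtype.ext (mul_left_cancel₀ (X_ne_zero _) h1)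
    have h1 := R.finrank_range_add_finrank_ker
    rw [hsurj, hker, LinearMap.finrank_range_of_inj hinj, finrank_top,
      Pool.Agent.H4.Binary.finrank_degreeLT] at h1
    rw [← h1, mul_add, ih]
    ring

variable {f g : MvPolynomial (Fin 3) L} {a b : ℕ}

/-- `(u, v) ↦ u f + v g` -/
noncomputable def pr (hf : f.IsHomogeneous a) (hg : g.IsHomogeneous b) (N : ℕ) :
    (RT 3 L (N - a) × RT 3 L (N - b)) →ₗ[L] RT 3 L N where
  toFun p := ⟨p.1 * f + p.2 * g, Submodule.add_mem _ (mul_mem_RT' p.1.2 hf) (mul_mem_RT' p.2.2 hg)⟩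
  map_add' p q := by
    apply Subtype.ext
    simp only [Prod.fst_add, Prod.snd_add, Submodule.coe_add]
    ring
  map_smul' c p := by
    apply Subtype.ext
    simp only [Prod.smul_fst, Prod.smul_snd, Submodule.coe_smul, RingHom.id_apply, smul_add,
      smul_mul_assoc]

/-- `ρ ↦ (ρ g, - ρ f)` -/
noncomputable def sy (hf : f.IsHomogeneous a) (hg : g.IsHomogeneous b) (N : ℕ) :
    RT 3 L (N - a - b) →ₗ[L] (RT 3 L (N - a) × RT 3 L (N - b)) where
  toFun r := (⟨r * g, mul_mem_RT' r.2 hg⟩, ⟨-(r * f), Submodule.neg_mem _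
    (mul_mem_RT' (by rw [show N - b - a = N - a - b by omega]; exact r.2) hf)⟩)
  map_add' p q := by
    ext1 <;> apply Subtype.ext <;> simp only [Submodule.coe_add, Prod.fst_add, Prod.snd_add] <;> ring
  map_smul' c p := by
    ext1 <;> apply Subtype.ext <;> simp only [Submodule.coe_smul, RingHom.id_apply, Prod.smul_fst,
      Prod.smul_snd, smul_mul_assoc, smul_neg]

lemma finrank_range_pr (hf : f.IsHomogeneous a) (hg : g.IsHomogeneous b) (hfg : IsRelPrime f g)
    (hg0 : g ≠ 0) (N : ℕ) :
    finrank L (LinearMap.range (pr hf hg N)) + finrank L (RT 3 L (N - a - b)) =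
      finrank L (RT 3 L (N - a)) + finrank L (RT 3 L (N - b)) := by
  have hker : LinearMap.ker (pr hf hg N) = LinearMap.range (sy hf hg N) := by
    ext ⟨⟨u, hu⟩, ⟨v, hv⟩⟩
    rw [LinearMap.mem_ker, LinearMap.mem_range]
    constructor
    · intro h
      have h1 : u * f + v * g = 0 := congrArg Subtype.val h
      obtain ⟨ρ, h2, h3⟩ := syz' hfg hg0 h1
      obtain ⟨p', hp', hpp⟩ := hom_div (I := (⊥ : Ideal (MvPolynomial (Fin 3) L)))
        (by
          intro p hp j
          rw [Ideal.mem_bot] at hp ⊢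
          rw [hp, map_zero]) hg
        (by
          intro e he
          rw [Ideal.mem_bot] at he ⊢
          exact (mul_eq_zero.1 he).resolve_left hg0) (p := ρ) hu (by
          rw [Ideal.mem_bot, h2]; ring)
      rw [Ideal.mem_bot, sub_eq_zero] at hpp
      subst hpp
      refine ⟨⟨ρ, hp'⟩, ?_⟩
      ext1 <;> apply Subtype.ext
      · exact h2.symm
      · exact h3.symm
    · rintro ⟨⟨ρ, hρ⟩, h⟩
      have h2 : ρ * g = u := congrArg (fun x => (x.1 : MvPolynomial (Fin 3) L)) h
      have h3 : -(ρ * f) = v := congrArg (fun x => (x.2 : MvPolynomial (Fin 3) L)) h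
      apply Subtype.ext
      change u * f + v * g = 0
      rw [← h2, ← h3]
      ring
  have hinj : Function.Injective (sy hf hg N) := by
    intro r r' h
    have h2 : (r : MvPolynomial (Fin 3) L) * g = r' * g :=
      congrArg (fun x => (x.1 : MvPolynomial (Fin 3) L)) h
    exact Subtype.ext (mul_right_cancel₀ hg0 h2)
  have h1 := (pr hf hg N).finrank_range_add_finrank_ker
  rw [hker, LinearMap.finrank_range_of_inj hinj, finrank_prod] at h1
  exact h1

/-- The graded pieces of the quotient by an ideal, with a shift. -/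
noncomputable def GG (I : Ideal (MvPolynomial (Fin 3) L)) (N : ℕ) :
    Submodule L (MvPolynomial (Fin 3) L ⧸ I) :=
  (RT 3 L N).map (Ideal.Quotient.mkₐ L I).toLinearMap

lemma mem_GG {I : Ideal (MvPolynomial (Fin 3) L)} {N : ℕ} {y : MvPolynomial (Fin 3) L ⧸ I} :
    y ∈ GG I N ↔ ∃ p ∈ RT 3 L N, Ideal.Quotient.mk I p = y := Iff.rfl

instance GG_finite (I : Ideal (MvPolynomial (Fin 3) L)) (N : ℕ) : FiniteDimensional L (GG I N) := by
  unfold GG; infer_instance

/-- The Hilbert function of a complete intersection of two ternary forms. -/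
theorem finrank_GG (hf : f.IsHomogeneous a) (hg : g.IsHomogeneous b) (hfg : IsRelPrime f g)
    (hg0 : g ≠ 0) (N : ℕ) :
    finrank L (GG (Ideal.span (Set.range ![f, g])) N) + finrank L (RT 3 L (N - a)) +
      finrank L (RT 3 L (N - b)) = finrank L (RT 3 L N) + finrank L (RT 3 L (N - a - b)) := by
  set I := Ideal.span (Set.range ![f, g]) with hI
  let Q : RT 3 L N →ₗ[L] (MvPolynomial (Fin 3) L ⧸ I) :=
    (Ideal.Quotient.mkₐ L I).toLinearMap.comp (RT 3 L N).subtype
  have hQr : LinearMap.range Q = GG I N := by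
    rw [LinearMap.range_comp, Submodule.range_subtype]
    rfl
  have hQk : LinearMap.ker Q = LinearMap.range (pr hf hg N) := by
    ext ⟨p, hp⟩
    rw [LinearMap.mem_ker, LinearMap.mem_range]
    constructor
    · intro h
      have h1 : p ∈ I := by
        rw [← Ideal.Quotient.eq_zero_iff_mem]
        exact h
      obtain ⟨A, hA, hAe⟩ := exists_hom_coeff (f := ![f, g]) (d := ![a, b]) (by
        intro j
        fin_cases j
        · exact hf
        · exact hg) hp h1
      refine ⟨(⟨A 0, hA 0⟩, ⟨A 1, hA 1⟩), ?_⟩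
      apply Subtype.ext
      rw [Fin.sum_univ_two] at hAe
      exact hAe.symm
    · rintro ⟨⟨⟨u, hu⟩, ⟨v, hv⟩⟩, h⟩
      have h1 : u * f + v * g = p := congrArg Subtype.val h
      change Ideal.Quotient.mk I p = 0
      rw [Ideal.Quotient.eq_zero_iff_mem, hI, mem_pair]
      exact ⟨u, v, h1.symm⟩
  have h1 := Q.finrank_range_add_finrank_ker
  rw [hQr, hQk] at h1
  have h2 := finrank_range_pr hf hg hfg hg0 N
  omega

theorem finrank_GG_large (hf : f.IsHomogeneous a) (hg : g.IsHomogeneous b) (hfg : IsRelPrime f g)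
    (hg0 : g ≠ 0) (ha : 2 ≤ a) (hb : 2 ≤ b) {N : ℕ} (hN : a + b ≤ N + 1) :
    finrank L (GG (Ideal.span (Set.range ![f, g])) N) = a * b := by
  have h := finrank_GG hf hg hfg hg0 N
  have h1 := finrank_RT (L := L) N
  have h2 := finrank_RT (L := L) (N - a)
  have h3 := finrank_RT (L := L) (N - b)
  have h4 := finrank_RT (L := L) (N - a - b)
  obtain ⟨j, rfl⟩ : ∃ j, N = a + b - 1 + j := ⟨N - (a + b - 1), by omega⟩
  obtain ⟨a', rfl⟩ : ∃ a', a = a' + 2 := ⟨a - 2, by omega⟩
  obtain ⟨b', rfl⟩ : ∃ b', b = b' + 2 := ⟨b - 2, by omega⟩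
  have e0 : a' + 2 + (b' + 2) - 1 + j = a' + b' + 3 + j := by omega
  have e1 : a' + 2 + (b' + 2) - 1 + j - (a' + 2) = b' + 1 + j := by omega
  have e2 : a' + 2 + (b' + 2) - 1 + j - (b' + 2) = a' + 1 + j := by omega
  have e3 : a' + 2 + (b' + 2) - 1 + j - (a' + 2) - (b' + 2) = j - 1 := by omega
  have e4 : (j - 1) * (j - 1 + 1) = j * j - j := by
    cases j with
    | zero => rfl
    | succ j =>
      have : (j + 1) * (j + 1) - (j + 1) = j * (j + 1) := by
        have : (j + 1) * (j + 1) = j * (j + 1) + (j + 1) := by ring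
        rw [this, Nat.add_sub_cancel]
      rw [this]
      rfl
  rw [e3, e1, e2] at h
  rw [e1] at h2
  rw [e2] at h3
  rw [e3, e4] at h4
  have e5 : j ≤ j * j := Nat.le_mul_self j
  have h4' : 2 * finrank L (RT 3 L (j - 1)) + j = j * j := by omega
  rw [e0] at h h1 ⊢
  nlinarith

theorem finrank_GG_small (hf : f.IsHomogeneous a) (hg : g.IsHomogeneous b) (hfg : IsRelPrime f g)
    (hg0 : g ≠ 0) (ha : 2 ≤ a) (hb : 2 ≤ b) :
    finrank L (GG (Ideal.span (Set.range ![f, g])) (a + b - 2)) + 1 = a * b := by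
  have h := finrank_GG hf hg hfg hg0 (a + b - 2)
  have h1 := finrank_RT (L := L) (a + b - 2)
  have h2 := finrank_RT (L := L) (a + b - 2 - a)
  have h3 := finrank_RT (L := L) (a + b - 2 - b)
  have h4 := finrank_RT (L := L) (a + b - 2 - a - b)
  obtain ⟨a', rfl⟩ : ∃ a', a = a' + 2 := ⟨a - 2, by omega⟩
  obtain ⟨b', rfl⟩ : ∃ b', b = b' + 2 := ⟨b - 2, by omega⟩
  have e0 : a' + 2 + (b' + 2) - 2 = a' + b' + 2 := by omega
  have e1 : a' + 2 + (b' + 2) - 2 - (a' + 2) = b' := by omega
  have e2 : a' + 2 + (b' + 2) - 2 - (b' + 2) = a' := by omega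
  have e3 : a' + 2 + (b' + 2) - 2 - (a' + 2) - (b' + 2) = 0 := by omega
  rw [e3, e1, e2] at h
  rw [e1] at h2
  rw [e2] at h3
  rw [e3] at h4
  rw [e0] at h h1 ⊢
  nlinarith

end hilbert

end Pool.Agent.H22.SLP
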