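import Pool.Agent.H22.SLP.Inj
import Pool.Agent.H22.SLP.Comm3
import Pool.Agent.H4.ConicMain

/-!
The quotient by two of the generators, as an algebra with derivations.
-/

set_option autoImplicit false

open MvPolynomial

namespace Pool.Agent.H22.SLP

open Pool.Agent.H4.Ternary Pool.Agent.H4.Apolar Pool.Agent.H4.Conic Pool.Agent.H4.Descent

variable {K : Type*} [Field K] [CharZero K]

/-- Extension of scalars to `K(t₀, t₁, t₂)`. -/
noncomputable def mp (p : MvPolynomial (Fin 3) K) : MvPolynomial (Fin 3) (FL K) :=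
  map (algebraMap K (FL K)) p

/-- The hypotheses on the three forms. -/
structure CI (f g h : MvPolynomial (Fin 3) K) (a b c : ℕ) : Prop where
  hf : f.IsHomogeneous a
  hg : g.IsHomogeneous b
  hh : h.IsHomogeneous c
  ha : 2 ≤ a
  hb : 2 ≤ b
  hc : 2 ≤ c
  hJ : ∃ J, ∀ p ∈ RT 3 K (J + 1), p ∈ Ideal.span (Set.range ![f, g, h])

/-- The ideal of the first two forms. -/
noncomputable def I2 (f g : MvPolynomial (Fin 3) K) : Ideal (MvPolynomial (Fin 3) (FL K)) :=
  Ideal.span (Set.range ![mp f, mp g])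

/-- The ideal of the three forms. -/
noncomputable def I3 (f g h : MvPolynomial (Fin 3) K) : Ideal (MvPolynomial (Fin 3) (FL K)) :=
  Ideal.span (Set.range ![mp f, mp g, mp h])

variable {f g h : MvPolynomial (Fin 3) K} {a b c : ℕ}

omit [CharZero K] in
lemma range_mp : (fun i => map (algebraMap K (FL K)) (![f, g, h] i)) = ![mp f, mp g, mp h] := by
  ext1 i
  fin_cases i <;> rfl

omit [CharZero K] in
lemma CI.hJ3 (H : CI f g h a b c) : ∃ J, ∀ p ∈ RT 3 (FL K) (J + 1), p ∈ I3 f g h := by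
  obtain ⟨J, hJ⟩ := H.hJ
  refine ⟨J, ?_⟩
  have := RT_map (L := FL K) hJ
  rw [range_mp] at this
  exact this

omit [CharZero K] in
lemma CI.relPrime (H : CI f g h a b c) : IsRelPrime (mp f) (mp g) := by
  obtain ⟨J, hJ⟩ := H.hJ3
  exact relPrime_of_cofinite (H.hf.map _) (H.hg.map _) (H.hh.map _) (by have := H.hb; omega)
    (by have := H.hc; omega) hJ

omit [CharZero K] in
lemma CI.g_ne (H : CI f g h a b c) : mp g ≠ 0 :=
  ne_zero_of_relPrime (H.hf.map _) (by have := H.ha; omega) H.relPrime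

omit [CharZero K] in
lemma CI.depth (H : CI f g h a b c) (e : MvPolynomial (Fin 3) (FL K))
    (he : ∀ i, X i * e ∈ I2 f g) : e ∈ I2 f g :=
  SLP.depth H.relPrime H.g_ne he

omit [CharZero K] in
lemma I2_D (f g : MvPolynomial (Fin 3) K) (j : Fin 3) (p : MvPolynomial (Fin 3) (FL K))
    (hp : p ∈ I2 f g) : cd (dl K j) p ∈ I2 f g := by
  obtain ⟨u, v, rfl⟩ := mem_pair.1 hp
  refine mem_pair.2 ⟨cd (dl K j) u, cd (dl K j) v, ?_⟩
  rw [map_add, cd_mul, cd_mul]
  have h1 : cd (dl K j) (mp f) = 0 := cd_map _ _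
  have h2 : cd (dl K j) (mp g) = 0 := cd_map _ _
  rw [h1, h2]
  ring

lemma CI.reg (H : CI f g h a b c) (e : MvPolynomial (Fin 3) (FL K))
    (he : lin tl * e ∈ I2 f g) : e ∈ I2 f g :=
  generic_regular (I2_D f g) H.depth he

omit [CharZero K] in
lemma CI.hreg (H : CI f g h a b c) (e : MvPolynomial (Fin 3) (FL K))
    (he : mp h * e ∈ I2 f g) : e ∈ I2 f g := by
  obtain ⟨J, hJ⟩ := H.hJ3
  exact third_regular H.depth hJ he

omit [CharZero K] in
lemma CI.comp (H : CI f g h a b c) (p : MvPolynomial (Fin 3) (FL K)) (hp : p ∈ I2 f g) (j : ℕ) :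
    homogeneousComponent j p ∈ I2 f g := by
  apply homogeneousComponent_mem (d := ![a, b]) _ hp
  intro i
  fin_cases i
  · exact H.hf.map _
  · exact H.hg.map _

omit [CharZero K] in
lemma mk_lin (I : Ideal (MvPolynomial (Fin 3) (FL K))) (k : Fin 3 → FL K) :
    ∑ b, algebraMap (FL K) (MvPolynomial (Fin 3) (FL K) ⧸ I) (k b) *
      Ideal.Quotient.mk I (X b) = Ideal.Quotient.mk I (lin k) := by
  unfold lin
  rw [map_sum]
  apply Finset.sum_congr rfl
  intro b _
  rw [map_mul]
  rfl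

/-- The quotient by the first two forms. -/
noncomputable def CI.DS (H : CI f g h a b c) : DS K (MvPolynomial (Fin 3) (FL K) ⧸ I2 f g) where
  D := fun j => Derivation.liftOfSurjective (f := Ideal.Quotient.mkₐ K (I2 f g))
    (d := cd (dl K j)) (Ideal.Quotient.mkₐ_surjective K (I2 f g)) (by
      intro p hp
      have h1 : p ∈ I2 f g := Ideal.Quotient.eq_zero_iff_mem.1 hp
      exact Ideal.Quotient.eq_zero_iff_mem.2 (I2_D f g j p h1))
  D_alg := by
    intro j r
    have h1 : algebraMap (FL K) (MvPolynomial (Fin 3) (FL K) ⧸ I2 f g) r =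
      Ideal.Quotient.mkₐ K (I2 f g) (C r) := rfl
    rw [h1, Derivation.liftOfSurjective_apply, cd_C]
    rfl
  x := fun i => Ideal.Quotient.mk (I2 f g) (X i)
  D_x := by
    intro j i
    have h1 : Ideal.Quotient.mk (I2 f g) (X i) = Ideal.Quotient.mkₐ K (I2 f g) (X i) := rfl
    rw [h1, Derivation.liftOfSurjective_apply, cd_X, map_zero]
  G := GG (I2 f g)
  G_zero := by
    intro y hy
    obtain ⟨p, hp, rfl⟩ := mem_GG.1 hy
    rw [mem_RT_zero.1 hp, map_zero]
  G_one := by
    intro y hy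
    obtain ⟨p, hp, rfl⟩ := mem_GG.1 hy
    rw [mem_RT_succ] at hp
    refine ⟨coeff 0 p, ?_⟩
    have h1 : p = C (coeff 0 p) := by
      rw [← totalDegree_eq_zero_iff_eq_C]
      exact Nat.le_zero.1 hp.totalDegree_le
    rw [h1, coeff_zero_C]
    rfl
  G_two := by
    intro y hy
    obtain ⟨p, hp, rfl⟩ := mem_GG.1 hy
    rw [mem_RT_succ] at hp
    obtain ⟨t, rfl⟩ := eq_lin hp
    exact ⟨t, (mk_lin _ t).symm⟩
  one_mem := mem_GG.2 ⟨1, mem_RT_succ.2 (isHomogeneous_one _ _), map_one _⟩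
  x_mul := by
    intro m i y hy
    obtain ⟨p, hp, rfl⟩ := mem_GG.1 hy
    exact mem_GG.2 ⟨X i * p, mul_X_mem_RT i hp, map_mul _ _ _⟩
  D_mem := by
    intro m j y hy
    obtain ⟨p, hp, rfl⟩ := mem_GG.1 hy
    refine mem_GG.2 ⟨cd (dl K j) p, cd_mem_RT _ hp, ?_⟩
    have h1 : Ideal.Quotient.mk (I2 f g) p = Ideal.Quotient.mkₐ K (I2 f g) p := rfl
    rw [h1, Derivation.liftOfSurjective_apply]
    rfl
  fin := fun m => GG_finite _ m
  vec_inj := by
    intro k hk
    rw [mk_lin, Ideal.Quotient.eq_zero_iff_mem] at hk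
    obtain ⟨A, hA, hAe⟩ := exists_hom_coeff (f := ![mp f, mp g]) (d := ![a, b]) (N := 2) (by
      intro i
      fin_cases i
      · exact H.hf.map _
      · exact H.hg.map _) (mem_RT_succ.2 (lin_isHomogeneous k)) hk
    have h0 : lin k = 0 := by
      rw [hAe, Fin.sum_univ_two]
      have e0 : A 0 = 0 := RT_mono_zero (N := 2 - a) (by have := H.ha; omega) (hA 0)
      have e1 : A 1 = 0 := RT_mono_zero (N := 2 - b) (by have := H.hb; omega) (hA 1)
      rw [e0, e1, zero_mul, zero_mul, add_zero]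
    ext i
    have h1 := congrArg (eval (Pi.single i 1)) h0
    rw [eval_lin, map_zero] at h1
    simpa [Pi.single_apply] using h1
  nzd := by
    intro y hy
    obtain ⟨p, rfl⟩ := Ideal.Quotient.mk_surjective y
    rw [mk_lin, ← map_mul, Ideal.Quotient.eq_zero_iff_mem] at hy
    rw [Ideal.Quotient.eq_zero_iff_mem]
    exact H.reg p hy
  div := by
    intro m y hy
    obtain ⟨p, rfl⟩ := Ideal.Quotient.mk_surjective y
    rw [mk_lin, ← map_mul] at hy
    obtain ⟨q, hq, hqp⟩ := mem_GG.1 hy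
    rw [eq_comm, Ideal.Quotient.eq] at hqp
    obtain ⟨p', hp', hpp⟩ := hom_div H.comp (lin_isHomogeneous tl) H.reg hq hqp
    refine mem_GG.2 ⟨p', hp', ?_⟩
    rw [eq_comm, Ideal.Quotient.eq]
    exact hpp
  s := a + b - 2
  soc := by
    intro m hm y hy hz
    obtain ⟨p, hp, rfl⟩ := mem_GG.1 hy
    have key : p ∈ Ideal.span (Set.range ![mp f, mp g, lin tl]) := by
      apply socle (H.hf.map _) (H.hg.map _) (by have := H.ha; omega) (by have := H.hb; omega)
        H.relPrime H.g_ne (t := tl) _ H.reg (m := m) _ hp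
      · intro i
        obtain ⟨z, hz⟩ := hz i
        obtain ⟨q, rfl⟩ := Ideal.Quotient.mk_surjective z
        rw [mk_lin, ← map_mul, ← map_mul, Ideal.Quotient.eq] at hz
        obtain ⟨u, v, huv⟩ := mem_pair.1 hz
        rw [Ideal.span, Submodule.mem_span_range_iff_exists_fun]
        refine ⟨![u, v, q], ?_⟩
        rw [Fin.sum_univ_three]
        simp only [smul_eq_mul]
        change u * mp f + v * mp g + q * lin tl = X i * p
        linear_combination -huv
      · rw [tl, ne_eq, ← map_zero (algebraMap (MvPolynomial (Fin 3) K) (FL K)),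
          (IsFractionRing.injective (MvPolynomial (Fin 3) K) (FL K)).eq_iff]
        exact X_ne_zero _
      · have := H.ha; have := H.hb; omega
    rw [Ideal.span, Submodule.mem_span_range_iff_exists_fun] at key
    obtain ⟨w, hw⟩ := key
    rw [Fin.sum_univ_three] at hw
    simp only [smul_eq_mul] at hw
    change w 0 * mp f + w 1 * mp g + w 2 * lin tl = p at hw
    refine ⟨Ideal.Quotient.mk _ (w 2), ?_⟩
    rw [mk_lin, ← map_mul, Ideal.Quotient.eq]
    refine mem_pair.2 ⟨w 0, w 1, ?_⟩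
    linear_combination -hw
  h := Ideal.Quotient.mk (I2 f g) (mp h)
  D_h := by
    intro j
    have h1 : Ideal.Quotient.mk (I2 f g) (mp h) = Ideal.Quotient.mkₐ K (I2 f g) (mp h) := rfl
    rw [h1, Derivation.liftOfSurjective_apply, mp, cd_map, map_zero]
  h_nzd := by
    intro y hy
    obtain ⟨p, rfl⟩ := Ideal.Quotient.mk_surjective y
    rw [← map_mul, Ideal.Quotient.eq_zero_iff_mem] at hy
    rw [Ideal.Quotient.eq_zero_iff_mem]
    exact H.hreg p hy

end Pool.Agent.H22.SLP
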