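import Pool.Agent.H22.SLP.Asm1

/-!
The quotient by the third form, and injectivity of powers of the generic linear form.
-/

set_option autoImplicit false
set_option linter.unusedSectionVars false

open MvPolynomial

namespace Pool.Agent.H22.SLP

open Pool.Agent.H4.Ternary Pool.Agent.H4.Apolar Pool.Agent.H4.Conic Pool.Agent.H4.Descent

variable {K : Type*} [Field K] [CharZero K]
variable {f g h : MvPolynomial (Fin 3) K} {a b c : ℕ}

open Module

lemma CI.h_div (H : CI f g h a b c) (m : ℕ) (y : MvPolynomial (Fin 3) (FL K) ⧸ I2 f g)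
    (hy : Ideal.Quotient.mk (I2 f g) (mp h) * y ∈ GG (I2 f g) m) : y ∈ GG (I2 f g) (m - c) := by
  obtain ⟨p, rfl⟩ := Ideal.Quotient.mk_surjective y
  rw [← map_mul] at hy
  obtain ⟨q, hq, hqp⟩ := mem_GG.1 hy
  rw [eq_comm, Ideal.Quotient.eq] at hqp
  obtain ⟨p', hp', hpp⟩ := hom_div H.comp (H.hh.map _) H.hreg hq hqp
  refine mem_GG.2 ⟨p', hp', ?_⟩
  rw [eq_comm, Ideal.Quotient.eq]
  exact hpp

lemma CI.h_mul (H : CI f g h a b c) {m : ℕ} {y : MvPolynomial (Fin 3) (FL K) ⧸ I2 f g}
    (hy : y ∈ GG (I2 f g) m) : Ideal.Quotient.mk (I2 f g) (mp h) * y ∈ GG (I2 f g) (m + c) := by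
  obtain ⟨p, hp, rfl⟩ := mem_GG.1 hy
  refine mem_GG.2 ⟨p * mp h, mul_mem_RT hp (H.hh.map _), ?_⟩
  rw [map_mul, mul_comm]

lemma mem_I3 {p : MvPolynomial (Fin 3) (FL K)} : p ∈ I3 f g h ↔
    ∃ u, Ideal.Quotient.mk (I2 f g) p = Ideal.Quotient.mk (I2 f g) (mp h) * u := by
  constructor
  · intro hp
    rw [I3, Ideal.span, Submodule.mem_span_range_iff_exists_fun] at hp
    obtain ⟨w, hw⟩ := hp
    rw [Fin.sum_univ_three] at hw
    simp only [smul_eq_mul] at hw
    change w 0 * mp f + w 1 * mp g + w 2 * mp h = p at hw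
    refine ⟨Ideal.Quotient.mk _ (w 2), ?_⟩
    rw [← map_mul, Ideal.Quotient.eq]
    refine mem_pair.2 ⟨w 0, w 1, ?_⟩
    linear_combination -hw
  · rintro ⟨u, hu⟩
    obtain ⟨q, rfl⟩ := Ideal.Quotient.mk_surjective u
    rw [← map_mul, Ideal.Quotient.eq] at hu
    obtain ⟨v, w, hvw⟩ := mem_pair.1 hu
    rw [I3, Ideal.span, Submodule.mem_span_range_iff_exists_fun]
    refine ⟨![v, w, q], ?_⟩
    rw [Fin.sum_univ_three]
    simp only [smul_eq_mul]
    change v * mp f + w * mp g + q * mp h = p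
    linear_combination -hvw

lemma CI.fr_large (H : CI f g h a b c) {N : ℕ} (hN : a + b ≤ N + 1) :
    finrank (FL K) (GG (I2 f g) N) = a * b :=
  finrank_GG_large (H.hf.map _) (H.hg.map _) H.relPrime H.g_ne H.ha H.hb hN

lemma CI.fr_small (H : CI f g h a b c) : finrank (FL K) (GG (I2 f g) (a + b - 2)) + 1 = a * b :=
  finrank_GG_small (H.hf.map _) (H.hg.map _) H.relPrime H.g_ne H.ha H.hb

lemma finrank_le_of_forall {N m : ℕ} (hN : ∀ y ∈ GG (I2 f g) N, ∃ u ∈ GG (I2 f g) m,
    y = Ideal.Quotient.mk (I2 f g) (mp h) * u) :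
    finrank (FL K) (GG (I2 f g) N) ≤ finrank (FL K) (GG (I2 f g) m) := by
  set μ := LinearMap.mulLeft (FL K) (Ideal.Quotient.mk (I2 f g) (mp h)) with hμ
  have h1 : GG (I2 f g) N ≤ (GG (I2 f g) m).map μ := by
    intro y hy
    obtain ⟨u, hu, rfl⟩ := hN y hy
    exact ⟨u, hu, rfl⟩
  exact (Submodule.finrank_mono h1).trans (Submodule.finrank_map_le _ _)

/-- The quotient has the properties needed. -/
theorem CI.good (H : CI f g h a b c) : H.DS.Good c (a + b + c - 3) := by
  have ha := H.ha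
  have hb := H.hb
  have hc := H.hc
  have hs : H.DS.s = a + b - 2 := rfl
  have hx : ∀ cs : List (Fin 3), (cs.map H.DS.x).prod = Ideal.Quotient.mk (I2 f g) (mx (FL K) cs) := by
    intro cs
    unfold mx
    rw [map_list_prod, List.map_map]
    rfl
  refine ⟨by rw [hs]; omega, hc, by rw [hs]; omega, H.h_div, H.DS.socA_of (by rw [hs]; omega) H.h_div,
    ?_, ?_⟩
  · by_contra hcon
    push Not at hcon
    have h1 : ∀ p : MvPolynomial (Fin 3) (FL K), p.IsHomogeneous (a + b + c - 3) → p ∈ I3 f g h := by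
      intro p hp
      have := forms_mem (I := I3 f g h) (e := 1) (n := a + b + c - 3) (by
        intro cs hcs
        rw [mul_one, mem_I3, ← hx]
        exact hcon cs hcs) hp
      rwa [mul_one] at this
    have h2 := finrank_le_of_forall (f := f) (g := g) (h := h) (N := a + b + c - 2)
      (m := a + b - 2) (by
        intro y hy
        obtain ⟨p, hp, rfl⟩ := mem_GG.1 hy
        rw [show a + b + c - 2 = (a + b + c - 3) + 1 by omega, mem_RT_succ] at hp
        obtain ⟨u, hu⟩ := mem_I3.1 (h1 p hp)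
        refine ⟨u, ?_, hu⟩
        rw [show a + b - 2 = (a + b + c - 2) - c by omega]
        apply H.h_div
        rw [← hu]
        exact hy)
    rw [H.fr_large (by omega)] at h2
    have h3 := H.fr_small
    omega
  · intro y hy
    have hy' : ∀ i, y i ∈ GG (I2 f g) (a + b + c - 2) := by
      intro i
      have := hy i
      rwa [show a + b + c - 3 + 1 = a + b + c - 2 by omega] at this
    let T : ((Fin 3 → FL K) × GG (I2 f g) (a + b - 2)) →ₗ[FL K] GG (I2 f g) (a + b + c - 2) :=
      { toFun := fun q => ⟨∑ i, q.1 i • y i - Ideal.Quotient.mk (I2 f g) (mp h) * q.2,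
          Submodule.sub_mem _ (Submodule.sum_mem _ fun i _ => Submodule.smul_mem _ _ (hy' i)) (by
            have := H.h_mul q.2.2
            rwa [show a + b - 2 + c = a + b + c - 2 by omega] at this)⟩
        map_add' := by
          intro q q'
          apply Subtype.ext
          simp only [Prod.fst_add, Prod.snd_add, Submodule.coe_add, Pi.add_apply, add_smul,
            Finset.sum_add_distrib]
          ring
        map_smul' := by
          intro r q
          apply Subtype.ext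
          simp only [Prod.smul_fst, Prod.smul_snd, Submodule.coe_smul, Pi.smul_apply,
            RingHom.id_apply, smul_sub, Finset.smul_sum, smul_smul, smul_eq_mul, mul_smul_comm] }
    have hdim : finrank (FL K) (GG (I2 f g) (a + b + c - 2)) <
        finrank (FL K) ((Fin 3 → FL K) × GG (I2 f g) (a + b - 2)) := by
      rw [finrank_prod, finrank_fin_fun, H.fr_large (by omega)]
      have := H.fr_small
      omega
    obtain ⟨q, hq, hq0⟩ := Submodule.exists_mem_ne_zero_of_ne_bot
      (LinearMap.ker_ne_bot_of_finrank_lt (f := T) hdim)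
    have hq1 : ∑ i, q.1 i • y i - Ideal.Quotient.mk (I2 f g) (mp h) * q.2 = 0 :=
      congrArg Subtype.val (LinearMap.mem_ker.1 hq)
    refine ⟨q.1, ?_, q.2, ?_⟩
    · intro h0
      apply hq0
      rw [h0] at hq1
      have h3 : (q.2 : MvPolynomial (Fin 3) (FL K) ⧸ I2 f g) = 0 := by
        apply H.DS.h_nzd
        have h4 : H.DS.h = Ideal.Quotient.mk (I2 f g) (mp h) := rfl
        rw [h4]
        simpa using hq1
      ext1
      · exact h0
      · exact Subtype.ext h3
    · rw [sub_eq_zero] at hq1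
      have h4 : H.DS.h = Ideal.Quotient.mk (I2 f g) (mp h) := rfl
      rw [h4, ← hq1]
      apply Finset.sum_congr rfl
      intro i _
      exact (Algebra.smul_def _ _).symm

/-- Injectivity of the powers of the generic linear form. -/
theorem CI.inj (H : CI f g h a b c) (habc : a + b ≤ c + 3) {i : ℕ} (hi : 2 * i ≤ a + b + c - 3)
    (hi' : i ≤ 1 ∨ a + b ≤ i + 4) {p : MvPolynomial (Fin 3) (FL K)} (hp : p.IsHomogeneous i)
    (hpI : lin tl ^ (a + b + c - 3 - 2 * i) * p ∈ I3 f g h) : p ∈ I3 f g h := by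
  rw [mem_I3] at hpI ⊢
  have hs : H.DS.s = a + b - 2 := rfl
  have hl : H.DS.ell = Ideal.Quotient.mk (I2 f g) (lin tl) := mk_lin _ _
  have ha := H.ha
  have hb := H.hb
  have hc := H.hc
  refine H.good.inj (by rw [hs]; omega) hi (by rw [hs]; omega)
    (y := Ideal.Quotient.mk (I2 f g) p) (mem_GG.2 ⟨p, mem_RT_succ.2 hp, rfl⟩) ?_
  rw [hl, ← map_pow, ← map_mul]
  exact hpI

/-- The socle of the quotient by three forms. -/
theorem CI.soc (H : CI f g h a b c) {m : ℕ} (hm : m < a + b + c - 3)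
    {p : MvPolynomial (Fin 3) (FL K)} (hp : p.IsHomogeneous m)
    (hpI : ∀ i, X i * p ∈ I3 f g h) : p ∈ I3 f g h := by
  rw [mem_I3]
  refine H.good.socA (m + 1) (by omega) _ (mem_GG.2 ⟨p, mem_RT_succ.2 hp, rfl⟩) ?_
  intro i
  have h1 := mem_I3.1 (hpI i)
  rw [map_mul] at h1
  exact h1

/-- The last piece of the quotient by three forms. -/
theorem CI.dim_one (H : CI f g h a b c) :
    finrank (FL K) (GG (I3 f g h) (a + b + c - 3 + 1)) ≤ 1 := by
  have ha := H.ha
  have hb := H.hb
  have hc := H.hc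
  have hle : I2 f g ≤ I3 f g h := by
    intro p hp
    rw [mem_I3]
    exact ⟨0, by rw [mul_zero]; exact Ideal.Quotient.eq_zero_iff_mem.2 hp⟩
  let π := (Ideal.Quotient.factorₐ (FL K) hle).toLinearMap.domRestrict (GG (I2 f g) (a + b + c - 2))
  have hrange : LinearMap.range π = GG (I3 f g h) (a + b + c - 3 + 1) := by
    ext y
    rw [LinearMap.mem_range, mem_GG]
    constructor
    · rintro ⟨⟨z, hz⟩, rfl⟩
      obtain ⟨p, hp, rfl⟩ := mem_GG.1 hz
      rw [show a + b + c - 2 = (a + b + c - 3) + 1 by omega] at hp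
      exact ⟨p, hp, rfl⟩
    · rintro ⟨p, hp, rfl⟩
      rw [show (a + b + c - 3) + 1 = a + b + c - 2 by omega] at hp
      exact ⟨⟨Ideal.Quotient.mk _ p, mem_GG.2 ⟨p, hp, rfl⟩⟩, rfl⟩
  let μ : GG (I2 f g) (a + b - 2) →ₗ[FL K] GG (I2 f g) (a + b + c - 2) :=
    LinearMap.restrict (LinearMap.mulLeft (FL K) (Ideal.Quotient.mk (I2 f g) (mp h))) (by
      intro y hy
      have := H.h_mul hy
      rwa [show a + b - 2 + c = a + b + c - 2 by omega] at this)
  have hμ : Function.Injective μ := by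
    rw [← LinearMap.ker_eq_bot, LinearMap.ker_eq_bot']
    rintro ⟨y, hy⟩ h0
    have h1 : Ideal.Quotient.mk (I2 f g) (mp h) * y = 0 := congrArg Subtype.val h0
    exact Subtype.ext (H.DS.h_nzd y h1)
  have hker : LinearMap.range μ ≤ LinearMap.ker π := by
    rintro _ ⟨⟨y, hy⟩, rfl⟩
    rw [LinearMap.mem_ker]
    change Ideal.Quotient.factorₐ (FL K) hle (Ideal.Quotient.mk (I2 f g) (mp h) * y) = 0
    rw [map_mul]
    have : Ideal.Quotient.factorₐ (FL K) hle (Ideal.Quotient.mk (I2 f g) (mp h)) =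
        Ideal.Quotient.mk (I3 f g h) (mp h) := rfl
    have hmem : mp h ∈ I3 f g h := Ideal.subset_span ⟨2, rfl⟩
    rw [this, Ideal.Quotient.eq_zero_iff_mem.2 hmem, zero_mul]
  have h1 := π.finrank_range_add_finrank_ker
  have h2 := Submodule.finrank_mono hker
  rw [LinearMap.finrank_range_of_inj hμ] at h2
  rw [hrange, H.fr_large (by omega)] at h1
  have h3 := H.fr_small
  omega

/-- The quotient by three forms vanishes in large degrees. -/
theorem CI.vanish (H : CI f g h a b c) {m : ℕ} (hm : a + b + c - 3 < m)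
    {p : MvPolynomial (Fin 3) (FL K)} (hp : p.IsHomogeneous m) : p ∈ I3 f g h := by
  have ha := H.ha
  have hb := H.hb
  have hc := H.hc
  rw [mem_I3]
  set y := Ideal.Quotient.mk (I2 f g) p with hy
  have hyG : y ∈ GG (I2 f g) (m + 1) := mem_GG.2 ⟨p, mem_RT_succ.2 hp, rfl⟩
  let μ : GG (I2 f g) (m + 1 - c) →ₗ[FL K] GG (I2 f g) (m + 1) :=
    LinearMap.restrict (LinearMap.mulLeft (FL K) (Ideal.Quotient.mk (I2 f g) (mp h))) (by
      intro y hy
      have := H.h_mul hy
      rwa [show m + 1 - c + c = m + 1 by omega] at this)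
  have hμ : Function.Injective μ := by
    rw [← LinearMap.ker_eq_bot, LinearMap.ker_eq_bot']
    rintro ⟨y, hy⟩ h0
    have h1 : Ideal.Quotient.mk (I2 f g) (mp h) * y = 0 := congrArg Subtype.val h0
    exact Subtype.ext (H.DS.h_nzd y h1)
  have hsurj : Function.Surjective μ := by
    rw [← LinearMap.injective_iff_surjective_of_finrank_eq_finrank]
    · exact hμ
    · rw [H.fr_large (by omega), H.fr_large (by omega)]
  obtain ⟨⟨u, hu⟩, huy⟩ := hsurj ⟨y, hyG⟩
  exact ⟨u, (congrArg Subtype.val huy).symm⟩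

end Pool.Agent.H22.SLP
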