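import Pool.Agent.H22.SLP.Comm3
import Pool.Agent.H4.ConicMain

/-!
From injectivity of symmetric powers to maximal rank, and descent of the field of definition.
-/

set_option autoImplicit false
set_option linter.unusedSectionVars false

open MvPolynomial

namespace Pool.Agent.H22.SLP

open Pool.Agent.H4.Ternary Pool.Agent.H4.Apolar Pool.Agent.H4.Conic Pool.Agent.H4.Descent

open Module

section lef

variable {L : Type*} [Field L]

/-- A homogeneous quotient with one-dimensional socle, in degree `D`. -/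
structure Lef (J : Ideal (MvPolynomial (Fin 3) L)) (D : ℕ) : Prop where
  soc : ∀ m < D, ∀ p : MvPolynomial (Fin 3) L, p.IsHomogeneous m → (∀ i, X i * p ∈ J) → p ∈ J
  dim_one : finrank L (GG J (D + 1)) ≤ 1
  vanish : ∀ m, D < m → ∀ p : MvPolynomial (Fin 3) L, p.IsHomogeneous m → p ∈ J

/-- Injectivity of the multiplication. -/
def Inj (J : Ideal (MvPolynomial (Fin 3) L)) (ℓ : MvPolynomial (Fin 3) L) (i k : ℕ) : Prop :=
  ∀ g ∈ homogeneousSubmodule (Fin 3) L i, ℓ ^ k * g ∈ J → g ∈ J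

/-- Surjectivity of the multiplication. -/
def Sur (J : Ideal (MvPolynomial (Fin 3) L)) (ℓ : MvPolynomial (Fin 3) L) (i k : ℕ) : Prop :=
  ∀ h ∈ homogeneousSubmodule (Fin 3) L (i + k),
    ∃ g ∈ homogeneousSubmodule (Fin 3) L i, h - ℓ ^ k * g ∈ J

variable {J : Ideal (MvPolynomial (Fin 3) L)} {D : ℕ} {ℓ : MvPolynomial (Fin 3) L}

lemma Lef.descend (H : Lef J D) {m : ℕ} {p : MvPolynomial (Fin 3) L} (hp : p.IsHomogeneous m) :
    ∀ n, m + n ≤ D → (∀ q : MvPolynomial (Fin 3) L, q.IsHomogeneous n → q * p ∈ J) → p ∈ J := by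
  intro n
  induction n with
  | zero =>
    intro _ h
    have := h 1 (isHomogeneous_one _ _)
    rwa [one_mul] at this
  | succ n ih =>
    intro hmn h
    apply ih (by omega)
    intro q hq
    apply H.soc (n + m) (by omega) _ (hq.mul hp)
    intro i
    rw [← mul_assoc]
    apply h
    rw [add_comm]
    exact (isHomogeneous_X L i).mul hq

lemma pow_hom (hℓ : ℓ.IsHomogeneous 1) (k : ℕ) : (ℓ ^ k).IsHomogeneous k := by
  have := hℓ.pow k
  rwa [one_mul] at this

lemma Inj.mono {i k k' : ℕ} (h : Inj J ℓ i k') (hk : k ≤ k') : Inj J ℓ i k := by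
  intro g hg hgI
  apply h g hg
  obtain ⟨j, rfl⟩ := Nat.exists_eq_add_of_le' hk
  rw [pow_add, mul_assoc]
  exact Ideal.mul_mem_left _ _ hgI

lemma Lef.inj_down (H : Lef J D) {i i' k : ℕ} (h : Inj J ℓ i k) (hi : i' ≤ i)
    (hiD : i ≤ D) : Inj J ℓ i' k := by
  intro g hg hgI
  apply H.descend hg (i - i') (by omega)
  intro q hq
  apply h
  · have := hq.mul ((mem_homogeneousSubmodule _ _).1 hg)
    rwa [show i - i' + i' = i by omega] at this
  · have : ℓ ^ k * (q * g) = q * (ℓ ^ k * g) := by ring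
    rw [this]
    exact Ideal.mul_mem_left _ _ hgI

lemma sur_of_sym (hℓ : ℓ.IsHomogeneous 1) {i i' k : ℕ} (h : Sur J ℓ i' (D - 2 * i'))
    (hi' : 2 * i' ≤ D) (hik : i + k + i' = D) (h2 : D ≤ 2 * i + k) : Sur J ℓ i k := by
  intro z hz
  have hz' : z ∈ homogeneousSubmodule (Fin 3) L (i' + (D - 2 * i')) := by
    rwa [show i' + (D - 2 * i') = i + k by omega]
  obtain ⟨g, hg, hgJ⟩ := h z hz'
  refine ⟨ℓ ^ (2 * i + k - D) * g, ?_, ?_⟩
  · have := (pow_hom hℓ (2 * i + k - D)).mul ((mem_homogeneousSubmodule _ _).1 hg)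
    rwa [show 2 * i + k - D + i' = i by omega] at this
  · rw [← mul_assoc, ← pow_add, show k + (2 * i + k - D) = D - 2 * i' by omega]
    exact hgJ

lemma sur_up [CharZero L] {i k : ℕ} (h : Sur J ℓ i k) : Sur J ℓ (i + 1) k := by
  intro z hz
  rw [mem_homogeneousSubmodule] at hz
  have h1 := hz.sum_X_mul_pderiv
  set m := i + 1 + k with hm
  have hm0 : (m : L) ≠ 0 := Nat.cast_ne_zero.2 (by omega)
  have h2 : ∀ j, ∃ g ∈ homogeneousSubmodule (Fin 3) L i,
      C (m : L)⁻¹ * pderiv j z - ℓ ^ k * g ∈ J := by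
    intro j
    apply h
    rw [mem_homogeneousSubmodule]
    have h3 := (isHomogeneous_C (Fin 3) (m : L)⁻¹).mul (hz.pderiv (i := j))
    rwa [show 0 + (m - 1) = i + k by omega] at h3
  choose g hg hgJ using h2
  refine ⟨∑ j, X j * g j, ?_, ?_⟩
  · apply Submodule.sum_mem
    intro j _
    rw [mem_homogeneousSubmodule, add_comm]
    exact (isHomogeneous_X L j).mul ((mem_homogeneousSubmodule _ _).1 (hg j))
  · have h4 : z - ℓ ^ k * ∑ j, X j * g j = ∑ j, X j * (C (m : L)⁻¹ * pderiv j z - ℓ ^ k * g j) := by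
      simp only [mul_sub, Finset.sum_sub_distrib]
      congr 1
      · have h5 : ∑ j, X j * (C (m : L)⁻¹ * pderiv j z) = C (m : L)⁻¹ * (m • z) := by
          rw [← h1, Finset.mul_sum]
          apply Finset.sum_congr rfl
          intro j _
          ring
        rw [h5, ← Nat.cast_smul_eq_nsmul L, smul_eq_C_mul, ← mul_assoc, ← C_mul,
          inv_mul_cancel₀ hm0, C_1, one_mul]
      · rw [Finset.mul_sum]
        apply Finset.sum_congr rfl
        intro j _
        ring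
    rw [h4]
    exact Ideal.sum_mem _ fun j _ => Ideal.mul_mem_left _ _ (hgJ j)

lemma sur_up' [CharZero L] {i i' k : ℕ} (h : Sur J ℓ i k) (hi : i ≤ i') : Sur J ℓ i' k := by
  induction i', hi using Nat.le_induction with
  | base => exact h
  | succ i' _ ih => exact sur_up ih

/-- The pairing gives the surjectivity of the symmetric maps. -/
lemma Lef.sur_of_inj (H : Lef J D) (hℓ : ℓ.IsHomogeneous 1) {i : ℕ} (hi : 2 * i ≤ D)
    (h : Inj J ℓ i (D - 2 * i)) : Sur J ℓ i (D - 2 * i) := by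
  have hmul : ∀ (w : GG J (D - i + 1)) (v : GG J (i + 1)),
      (w : MvPolynomial (Fin 3) L ⧸ J) * v ∈ GG J (D + 1) := by
    rintro ⟨w, hw⟩ ⟨v, hv⟩
    obtain ⟨p, hp, rfl⟩ := mem_GG.1 hw
    obtain ⟨q, hq, rfl⟩ := mem_GG.1 hv
    refine mem_GG.2 ⟨p * q, ?_, map_mul _ _ _⟩
    rw [mem_RT_succ] at hp hq ⊢
    have := hp.mul hq
    rwa [show D - i + i = D by omega] at this
  let β : GG J (D - i + 1) →ₗ[L] GG J (i + 1) →ₗ[L] GG J (D + 1) :=
    LinearMap.mk₂ L (fun w v => ⟨(w : MvPolynomial (Fin 3) L ⧸ J) * v, hmul w v⟩)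
      (fun w w' v => Subtype.ext (by simp [add_mul]))
      (fun r w v => Subtype.ext (Algebra.smul_mul_assoc r _ _))
      (fun w v v' => Subtype.ext (by simp [mul_add]))
      (fun r w v => Subtype.ext (Algebra.mul_smul_comm r _ _))
  have hβ : Function.Injective β := by
    rw [injective_iff_map_eq_zero]
    rintro ⟨w, hw⟩ h0
    obtain ⟨p, hp, rfl⟩ := mem_GG.1 hw
    rw [mem_RT_succ] at hp
    apply Subtype.ext
    change Ideal.Quotient.mk J p = 0
    rw [Ideal.Quotient.eq_zero_iff_mem]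
    apply H.descend hp i (by omega)
    intro q hq
    have h1 := congrArg Subtype.val (LinearMap.congr_fun h0
      ⟨Ideal.Quotient.mk J q, mem_GG.2 ⟨q, mem_RT_succ.2 hq, rfl⟩⟩)
    have h2 : Ideal.Quotient.mk J p * Ideal.Quotient.mk J q = 0 := h1
    rw [← map_mul, Ideal.Quotient.eq_zero_iff_mem, mul_comm] at h2
    exact h2
  have h1 : finrank L (GG J (D - i + 1)) ≤ finrank L (GG J (i + 1)) := by
    have h2 := LinearMap.finrank_le_finrank_of_injective hβ
    rw [finrank_linearMap] at h2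
    calc _ ≤ _ := h2
      _ ≤ finrank L (GG J (i + 1)) * 1 := Nat.mul_le_mul_left _ H.dim_one
      _ = _ := mul_one _
  have hmap : ∀ y ∈ GG J (i + 1), Ideal.Quotient.mk J (ℓ ^ (D - 2 * i)) * y ∈ GG J (D - i + 1) := by
    intro y hy
    obtain ⟨p, hp, rfl⟩ := mem_GG.1 hy
    refine mem_GG.2 ⟨ℓ ^ (D - 2 * i) * p, ?_, map_mul _ _ _⟩
    rw [mem_RT_succ] at hp ⊢
    have := (pow_hom hℓ (D - 2 * i)).mul hp
    rwa [show D - 2 * i + i = D - i by omega] at this
  let μ : GG J (i + 1) →ₗ[L] GG J (D - i + 1) :=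
    LinearMap.restrict (LinearMap.mulLeft L (Ideal.Quotient.mk J (ℓ ^ (D - 2 * i)))) hmap
  have hμ : Function.Injective μ := by
    rw [← LinearMap.ker_eq_bot, LinearMap.ker_eq_bot']
    rintro ⟨y, hy⟩ h0
    obtain ⟨p, hp, rfl⟩ := mem_GG.1 hy
    rw [mem_RT_succ] at hp
    apply Subtype.ext
    change Ideal.Quotient.mk J p = 0
    rw [Ideal.Quotient.eq_zero_iff_mem]
    apply h p hp
    have h1 : Ideal.Quotient.mk J (ℓ ^ (D - 2 * i)) * Ideal.Quotient.mk J p = 0 :=
      congrArg Subtype.val h0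
    rwa [← map_mul, Ideal.Quotient.eq_zero_iff_mem] at h1
  have hsurj : Function.Surjective μ := by
    rw [← LinearMap.injective_iff_surjective_of_finrank_eq_finrank]
    · exact hμ
    · exact le_antisymm (LinearMap.finrank_le_finrank_of_injective hμ) h1
  intro z hz
  rw [show i + (D - 2 * i) = D - i by omega] at hz
  obtain ⟨⟨y, hy⟩, hyz⟩ := hsurj ⟨Ideal.Quotient.mk J z, mem_GG.2 ⟨z, mem_RT_succ.2 hz, rfl⟩⟩
  obtain ⟨p, hp, rfl⟩ := mem_GG.1 hy
  refine ⟨p, hp, ?_⟩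
  have h2 : Ideal.Quotient.mk J (ℓ ^ (D - 2 * i)) * Ideal.Quotient.mk J p =
      Ideal.Quotient.mk J z := congrArg Subtype.val hyz
  rw [← map_mul, eq_comm, Ideal.Quotient.eq] at h2
  exact h2

/-- Maximal rank of the multiplications, from the injectivity of some symmetric ones. -/
theorem Lef.range [CharZero L] {a b c : ℕ} (ha : 2 ≤ a) (hb : 2 ≤ b) (hc : 2 ≤ c)
    (habc : a + b ≤ c + 3)
    (H : Lef J (a + b + c - 3)) (hℓ : ℓ.IsHomogeneous 1)
    (hinj : ∀ i, 2 * i ≤ a + b + c - 3 → (i ≤ 1 ∨ a + b ≤ i + 4) →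
      Inj J ℓ i (a + b + c - 3 - 2 * i)) (i k : ℕ)
    (hik : i ≤ 1 ∨ a + b + c ≤ i + k + 4 ∨ k + a + b ≤ c + 5 ∨ (a + b ≤ i + 4 ∧ i + k ≤ c + 1)) :
    Inj J ℓ i k ∨ Sur J ℓ i k := by
  set D := a + b + c - 3 with hD
  have hsur : ∀ i, 2 * i ≤ D → (i ≤ 1 ∨ a + b ≤ i + 4) → Sur J ℓ i (D - 2 * i) :=
    fun i h1 h2 => H.sur_of_inj hℓ h1 (hinj i h1 h2)
  by_cases hbig : D < i + k
  · right
    intro z hz
    refine ⟨0, Submodule.zero_mem _, ?_⟩
    rw [mul_zero, sub_zero]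
    exact H.vanish _ hbig z hz
  -- the two basic cases
  have c1 : ∀ i k, 2 * i + k ≤ D → (i ≤ 1 ∨ a + b ≤ i + 4) → Inj J ℓ i k := by
    intro i k h1 h2
    exact (hinj i (by omega) h2).mono (by omega)
  have c2 : ∀ i k, i + k ≤ D → D ≤ 2 * i + k → (D - (i + k) ≤ 1 ∨ a + b ≤ D - (i + k) + 4) →
      Sur J ℓ i k := by
    intro i k h1 h2 h3
    exact sur_of_sym hℓ (hsur (D - (i + k)) (by omega) h3) (by omega) (by omega) h2
  have c3 : (i ≤ 1 ∨ D ≤ i + k + 1 ∨ (a + b ≤ i + 4 ∧ a + b ≤ D - (i + k) + 4)) →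
      Inj J ℓ i k ∨ Sur J ℓ i k := by
    intro h
    by_cases h1 : 2 * i + k ≤ D
    · left
      apply c1 i k h1
      omega
    · right
      apply c2 i k (by omega) (by omega)
      omega
  rcases hik with h | h | h | h
  · exact c3 (Or.inl h)
  · exact c3 (Or.inr (Or.inl (by omega)))
  · by_cases h1 : a + b ≤ i + 4
    · by_cases h2 : a + b ≤ D - (i + k) + 4
      · exact c3 (Or.inr (Or.inr ⟨h1, h2⟩))
      · right
        have h3 : Sur J ℓ (c + 1 - k) k := by
          apply c2 (c + 1 - k) k (by omega) (by omega)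
          omega
        exact sur_up' h3 (by omega)
    · left
      have h3 : Inj J ℓ (a + b - 4) k := c1 _ _ (by omega) (by omega)
      exact H.inj_down h3 (by omega) (by omega)
  · exact c3 (Or.inr (Or.inr ⟨h.1, by omega⟩))

end lef

section descend

variable {K L : Type*} [Field K] [Field L] [Algebra K L] {n : ℕ}

/-- Maximal rank in a set of degrees descends along field extensions. -/
theorem descentP [Infinite K] {r : ℕ} {f : Fin r → MvPolynomial (Fin n) K} {J : ℕ}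
    (hJ : ∀ g ∈ RT n K (J + 1), g ∈ Ideal.span (Set.range f)) (P : ℕ → ℕ → Prop)
    (h : ∃ ℓ : MvPolynomial (Fin n) L, ℓ.IsHomogeneous 1 ∧ ∀ i k : ℕ, P i k →
      (∀ g ∈ homogeneousSubmodule (Fin n) L i,
        ℓ ^ k * g ∈ Ideal.span (Set.range fun i => map (algebraMap K L) (f i)) →
        g ∈ Ideal.span (Set.range fun i => map (algebraMap K L) (f i))) ∨
      (∀ h ∈ homogeneousSubmodule (Fin n) L (i + k),
        ∃ g ∈ homogeneousSubmodule (Fin n) L i,
          h - ℓ ^ k * g ∈ Ideal.span (Set.range fun i => map (algebraMap K L) (f i)))) :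
    ∃ ℓ : MvPolynomial (Fin n) K, ℓ.IsHomogeneous 1 ∧ ∀ i k : ℕ, P i k →
      (∀ g ∈ homogeneousSubmodule (Fin n) K i,
        ℓ ^ k * g ∈ Ideal.span (Set.range f) → g ∈ Ideal.span (Set.range f)) ∨
      (∀ h ∈ homogeneousSubmodule (Fin n) K (i + k),
        ∃ g ∈ homogeneousSubmodule (Fin n) K i, h - ℓ ^ k * g ∈ Ideal.span (Set.range f)) := by
  obtain ⟨ℓ, hℓ, hik⟩ := h
  obtain ⟨t, rfl⟩ := eq_lin hℓ
  set IL := Ideal.span (Set.range fun i => map (algebraMap K L) (f i)) with hIL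
  have hgen : ∀ i k, ∃ Q : MvPolynomial (Fin n) L, Q ≠ 0 ∧ (P i k → ∀ s, eval s Q ≠ 0 →
      ((∀ g ∈ homogeneousSubmodule (Fin n) L i, lin s ^ k * g ∈ IL → g ∈ IL) ∨
      (∀ h ∈ homogeneousSubmodule (Fin n) L (i + k),
        ∃ g ∈ homogeneousSubmodule (Fin n) L i, h - lin s ^ k * g ∈ IL))) := by
    intro i k
    by_cases hP : P i k
    · rcases hik i k hP with h | h
      · obtain ⟨Q, hQ0, hQ⟩ := open_inj IL i k t h
        exact ⟨Q, hQ0, fun _ s hs => Or.inl (hQ s hs)⟩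
      · obtain ⟨Q, hQ0, hQ⟩ := open_surj IL i k t h
        exact ⟨Q, hQ0, fun _ s hs => Or.inr (hQ s hs)⟩
    · exact ⟨1, one_ne_zero, fun h => absurd h hP⟩
  choose Q hQ0 hQ using hgen
  have hprod : (∏ i ∈ Finset.range (J + 1), ∏ k ∈ Finset.range (J + 1), Q i k) ≠ 0 :=
    Finset.prod_ne_zero_iff.2 fun m _ => Finset.prod_ne_zero_iff.2 fun k _ => hQ0 m k
  obtain ⟨s, hs⟩ := exists_eval_ne_of_infinite (K := K) hprod
  rw [map_prod] at hs
  have hsQ : ∀ i k, i ≤ J → k ≤ J → eval (fun i => algebraMap K L (s i)) (Q i k) ≠ 0 := by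
    intro i k hi hk
    have h1 := Finset.prod_ne_zero_iff.1 hs i (Finset.mem_range.2 (by omega))
    rw [map_prod] at h1
    exact Finset.prod_ne_zero_iff.1 h1 k (Finset.mem_range.2 (by omega))
  obtain ⟨θ, hθ⟩ := exists_theta (K := K) (L := L)
  refine ⟨lin s, lin_isHomogeneous s, ?_⟩
  intro i k hP
  by_cases hc : i ≤ J ∧ k ≤ J
  · rcases hQ i k hP _ (hsQ i k hc.1 hc.2) with h1 | h1
    · left
      intro g hg hgI
      have h2 : map (algebraMap K L) g ∈ IL := by
        apply h1 _ (IsHomogeneous.map hg _)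
        rw [← map_lin, ← map_pow, ← map_mul]
        exact mem_map_span hgI
      have h3 := th_mem θ h2
      rwa [th_map hθ] at h3
    · right
      intro g hg
      obtain ⟨G, hG, hGI⟩ := h1 (map (algebraMap K L) g) (IsHomogeneous.map hg _)
      refine ⟨th θ G, th_isHomogeneous θ hG, ?_⟩
      have h3 := th_mem θ hGI
      rwa [th_sub, th_map hθ, ← map_lin, ← map_pow, th_map_mul] at h3
  · right
    intro g hg
    refine ⟨0, Submodule.zero_mem _, ?_⟩
    rw [mul_zero, sub_zero]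
    exact RT_le_of_le (N := J + 1) (M := i + k + 1) (by omega) (by omega) hJ g hg

end descend

end Pool.Agent.H22.SLP
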