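import Pool.Agent.H4.Descent
import Pool.Agent.H6.CommonZero

/-!
Commutative algebra of two coprime ternary forms.
-/

set_option autoImplicit false

open MvPolynomial

namespace Pool.Agent.H22.SLP

open Pool.Agent.H4.Ternary Pool.Agent.H4.Apolar Pool.Agent.H4.Conic Pool.Agent.H4.Descent

section divisor

variable {L : Type*} [Field L]

/-- the substitution `X_i ↦ X_i T` -/
noncomputable def scl : MvPolynomial (Fin 3) L →ₐ[L] Polynomial (MvPolynomial (Fin 3) L) :=
  aeval (fun i => Polynomial.C (X i) * Polynomial.X)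

lemma eval_one_scl (p : MvPolynomial (Fin 3) L) : (scl p).eval 1 = p := by
  have h : (Polynomial.evalRingHom (1 : MvPolynomial (Fin 3) L)).comp
      (scl : MvPolynomial (Fin 3) L →ₐ[L] _).toRingHom = RingHom.id _ := by
    apply MvPolynomial.ringHom_ext
    · intro a
      simp only [scl, AlgHom.toRingHom_eq_coe, RingHom.coe_comp, RingHom.coe_coe,
        Function.comp_apply, RingHom.id_apply]
      rw [← algebraMap_eq, AlgHom.commutes]
      simp [Algebra.algebraMap_eq_smul_one]
      exact C_eq_smul_one.symm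
    · intro i
      simp [scl]
  exact RingHom.congr_fun h p

lemma scl_of_isHomogeneous {p : MvPolynomial (Fin 3) L} {d : ℕ} (hp : p.IsHomogeneous d) :
    scl p = Polynomial.C p * Polynomial.X ^ d := by
  have h1 : ∀ α ∈ p.support, scl (monomial α (coeff α p)) =
      Polynomial.C (monomial α (coeff α p)) * Polynomial.X ^ d := by
    intro α hα
    have hd : α.degree = d := by
      by_contra h0
      exact (mem_support_iff.1 hα) (hp.coeff_eq_zero h0)
    unfold scl
    rw [aeval_monomial, Finsupp.prod_fintype _ _ (fun i => pow_zero _)]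
    simp only [mul_pow]
    rw [Finset.prod_mul_distrib, Finset.prod_pow_eq_pow_sum, ← Finsupp.degree_eq_sum, hd,
      ← mul_assoc]
    congr 1
    rw [monomial_eq, Finsupp.prod_fintype _ _ (fun i => pow_zero _), map_mul, map_prod]
    simp only [map_pow]
    rfl
  conv_lhs => rw [p.as_sum]
  rw [map_sum, Finset.sum_congr rfl h1, ← Finset.sum_mul, ← map_sum, ← p.as_sum]

lemma coeff_zero_scl (p : MvPolynomial (Fin 3) L) : (scl p).coeff 0 = C (eval 0 p) := by
  have h : (Polynomial.constantCoeff).comp (scl : MvPolynomial (Fin 3) L →ₐ[L] _).toRingHom =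
      (C : L →+* MvPolynomial (Fin 3) L).comp (eval (0 : Fin 3 → L)) := by
    apply MvPolynomial.ringHom_ext
    · intro a
      simp only [scl, AlgHom.toRingHom_eq_coe, RingHom.coe_comp, RingHom.coe_coe,
        Function.comp_apply, eval_C]
      rw [← algebraMap_eq, AlgHom.commutes]
      simp [Algebra.algebraMap_eq_smul_one]
      exact C_eq_smul_one.symm
    · intro i
      simp [scl]
  exact RingHom.congr_fun h p

/-- A divisor of a nonzero form with nonzero constant term is a unit. -/
lemma isUnit_of_dvd {f d : MvPolynomial (Fin 3) L} {a : ℕ} (hf : f.IsHomogeneous a) (hf0 : f ≠ 0)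
    (hd : d ∣ f) (hd0 : eval 0 d ≠ 0) : IsUnit d := by
  obtain ⟨e, he⟩ := hd
  have hd' : d ≠ 0 := by rintro rfl; simp at hd0
  have he' : e ≠ 0 := by rintro rfl; rw [mul_zero] at he; exact hf0 he
  have hinj : Function.Injective (scl : MvPolynomial (Fin 3) L →ₐ[L] _) := by
    intro p q h
    rw [← eval_one_scl p, h, eval_one_scl]
  have hsd : scl d ≠ 0 := fun h => hd' (hinj (by rw [h, map_zero]))
  have hse : scl e ≠ 0 := fun h => he' (hinj (by rw [h, map_zero]))
  have h1 : scl d * scl e = Polynomial.C f * Polynomial.X ^ a := by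
    rw [← map_mul, ← he, scl_of_isHomogeneous hf]
  have h2 := congrArg Polynomial.natDegree h1
  have h3 := congrArg Polynomial.natTrailingDegree h1
  rw [Polynomial.natDegree_mul hsd hse, Polynomial.natDegree_C_mul_X_pow _ _ hf0] at h2
  rw [Polynomial.natTrailingDegree_mul hsd hse, Polynomial.natTrailingDegree_mul_X_pow
    (by rwa [Ne, Polynomial.C_eq_zero]), Polynomial.natTrailingDegree_C, zero_add] at h3
  have h4 : (scl d).natTrailingDegree = 0 := by
    apply Polynomial.natTrailingDegree_eq_zero_of_constantCoeff_ne_zero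
    rw [Polynomial.constantCoeff_apply, coeff_zero_scl]
    rwa [Ne, C_eq_zero]
  have h5 := Polynomial.natTrailingDegree_le_natDegree (scl e)
  have h6 : (scl d).natDegree = 0 := by omega
  have h7 := Polynomial.eq_C_of_natDegree_eq_zero h6
  rw [coeff_zero_scl] at h7
  have h8 : d = C (eval 0 d) := by
    conv_lhs => rw [← eval_one_scl d, h7]
    simp
  rw [h8]
  exact (isUnit_iff_ne_zero.2 hd0).map C

end divisor

section coprime

variable {L : Type*} [Field L]

lemma eval_zero_of_isHomogeneous {R : Type*} [CommSemiring R] {σ : Type*} {p : MvPolynomial σ R}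
    {d : ℕ} (hp : p.IsHomogeneous d) (hd : 1 ≤ d) : eval (0 : σ → R) p = 0 := by
  rw [MvPolynomial.eval_zero, constantCoeff_eq]
  apply hp.coeff_eq_zero
  simp
  omega

/-- No common zeros. -/
lemma no_common_zero {f g h : MvPolynomial (Fin 3) L} {J : ℕ}
    (hJ : ∀ p ∈ RT 3 L (J + 1), p ∈ Ideal.span (Set.range ![f, g, h]))
    {M : Type*} [Field M] [Algebra L M] {y : Fin 3 → M} (hf : aeval y f = 0)
    (hg : aeval y g = 0) (hh : aeval y h = 0) : y = 0 := by
  ext i
  have h1 : (X i ^ J : MvPolynomial (Fin 3) L) ∈ Ideal.span (Set.range ![f, g, h]) := by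
    apply hJ
    rw [mem_RT_succ]
    exact isHomogeneous_X_pow i J
  have h2 : Ideal.span (Set.range ![f, g, h]) ≤ RingHom.ker (aeval y : _ →ₐ[L] M) := by
    rw [Ideal.span_le]
    rintro _ ⟨j, rfl⟩
    rw [SetLike.mem_coe, RingHom.mem_ker]
    fin_cases j
    · exact hf
    · exact hg
    · exact hh
  have h3 := h2 h1
  rw [RingHom.mem_ker, map_pow, aeval_X] at h3
  rw [Pi.zero_apply]
  exact eq_zero_of_pow_eq_zero h3

/-- Two of the generators of a cofinite ideal generated by three ternary forms are coprime. -/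
theorem relPrime_of_cofinite {f g h : MvPolynomial (Fin 3) L} {a b c : ℕ}
    (hf : f.IsHomogeneous a) (hg : g.IsHomogeneous b) (hh : h.IsHomogeneous c)
    (hb : 1 ≤ b) (hc : 1 ≤ c) {J : ℕ}
    (hJ : ∀ p ∈ RT 3 L (J + 1), p ∈ Ideal.span (Set.range ![f, g, h])) : IsRelPrime f g := by
  intro d hdf hdg
  by_contra hunit
  have key : ∀ d : MvPolynomial (Fin 3) L, d ∣ f → d ∣ g → eval 0 d = 0 → False := by
    intro d hdf hdg hd0
    set M := AlgebraicClosure L
    obtain ⟨y, hy0, hy⟩ := Pool.Agent.H6.exists_ne_zero_common_zero (K := M) (σ := Fin 3)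
      (ι := Fin 2) ![map (algebraMap L M) d, map (algebraMap L M) h] (by
        intro j
        fin_cases j
        · change eval (0 : Fin 3 → M) (map (algebraMap L M) d) = 0
          rw [MvPolynomial.eval_zero, constantCoeff_map]
          rw [MvPolynomial.eval_zero] at hd0
          rw [hd0, map_zero]
        · change eval (0 : Fin 3 → M) (map (algebraMap L M) h) = 0
          exact eval_zero_of_isHomogeneous (hh.map _) hc) (by simp)
    have h1 : aeval y d = 0 := by
      have := hy 0
      rw [show (![map (algebraMap L M) d, map (algebraMap L M) h] : Fin 2 → _) 0 =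
        map (algebraMap L M) d from rfl, eval_map] at this
      exact this
    have h2 : aeval y h = 0 := by
      have := hy 1
      rw [show (![map (algebraMap L M) d, map (algebraMap L M) h] : Fin 2 → _) 1 =
        map (algebraMap L M) h from rfl, eval_map] at this
      exact this
    apply hy0
    apply no_common_zero hJ (y := y)
    · obtain ⟨e, rfl⟩ := hdf
      rw [map_mul, h1, zero_mul]
    · obtain ⟨e, rfl⟩ := hdg
      rw [map_mul, h1, zero_mul]
    · exact h2
  by_cases hf0 : f = 0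
  · by_cases hg0 : g = 0
    · exact key 0 (by rw [hf0]) (by rw [hg0]) (by simp)
    · exact key g (by rw [hf0]; exact dvd_zero g) dvd_rfl (eval_zero_of_isHomogeneous hg hb)
  · refine key d hdf hdg ?_
    by_contra hd0
    exact hunit (isUnit_of_dvd hf hf0 hdf hd0)

lemma not_isUnit_of_isHomogeneous {f : MvPolynomial (Fin 3) L} {a : ℕ} (hf : f.IsHomogeneous a)
    (ha : 1 ≤ a) : ¬ IsUnit f := by
  intro h
  have h1 := h.map (eval (0 : Fin 3 → L))
  rw [eval_zero_of_isHomogeneous hf ha] at h1
  exact not_isUnit_zero h1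

lemma ne_zero_of_relPrime {f g : MvPolynomial (Fin 3) L} {a : ℕ} (hf : f.IsHomogeneous a)
    (ha : 1 ≤ a) (h : IsRelPrime f g) : g ≠ 0 := by
  rintro rfl
  exact not_isUnit_of_isHomogeneous hf ha (h dvd_rfl (dvd_zero _))

/-- Syzygies of two coprime elements. -/
lemma syz {f g u v : MvPolynomial (Fin 3) L} (hfg : IsRelPrime f g) (hg : g ≠ 0)
    (h : u * f = v * g) : ∃ ρ, u = ρ * g ∧ v = ρ * f := by
  have h1 : g ∣ u := by
    have h2 : g ∣ u * f := ⟨v, by rw [h]; ring⟩
    exact hfg.symm.dvd_of_dvd_mul_right h2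
  obtain ⟨ρ, hρ⟩ := h1
  refine ⟨ρ, by rw [hρ]; ring, ?_⟩
  apply mul_right_cancel₀ hg
  rw [← h, hρ]
  ring

/-- Syzygies of two coprime elements, second form. -/
lemma syz' {f g u v : MvPolynomial (Fin 3) L} (hfg : IsRelPrime f g) (hg : g ≠ 0)
    (h : u * f + v * g = 0) : ∃ ρ, u = ρ * g ∧ v = -(ρ * f) := by
  obtain ⟨ρ, h1, h2⟩ := syz (f := f) (g := g) (u := u) (v := -v) hfg hg (by linear_combination h)
  exact ⟨ρ, h1, by rw [← h2]; ring⟩

lemma mem_pair {f g p : MvPolynomial (Fin 3) L} :
    p ∈ Ideal.span (Set.range ![f, g]) ↔ ∃ u v, p = u * f + v * g := by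
  rw [show Set.range ![f, g] = {f, g} by simp [Set.pair_comm], Ideal.mem_span_pair]
  constructor
  · rintro ⟨u, v, h⟩; exact ⟨u, v, h.symm⟩
  · rintro ⟨u, v, h⟩; exact ⟨u, v, h.symm⟩

lemma prime_X_ne {i j : Fin 3} (hij : i ≠ j) : IsRelPrime (X i : MvPolynomial (Fin 3) L) (X j) := by
  have h1 : Prime (X i : MvPolynomial (Fin 3) L) := X_prime
  have h2 : Irreducible (X i : MvPolynomial (Fin 3) L) := h1.irreducible
  refine (h2.isRelPrime_iff_not_dvd).2 ?_
  intro hdvd
  obtain ⟨e, he⟩ := hdvd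
  have h3 := congrArg (eval (fun k => if k = j then (1 : L) else 0)) he
  simp [hij] at h3

/-- The substitution `X_0 = 0`. -/
noncomputable def z0 : MvPolynomial (Fin 3) L →ₐ[L] MvPolynomial (Fin 3) L :=
  aeval (fun i => if i = 0 then 0 else X i)

lemma z0_X0 : z0 (X 0 : MvPolynomial (Fin 3) L) = 0 := by simp [z0]
lemma z0_X1 : z0 (X 1 : MvPolynomial (Fin 3) L) = X 1 := by simp [z0]
lemma z0_X2 : z0 (X 2 : MvPolynomial (Fin 3) L) = X 2 := by simp [z0]

lemma sub_z0 (p : MvPolynomial (Fin 3) L) : ∃ q, p = z0 p + X 0 * q := by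
  induction p using MvPolynomial.induction_on with
  | C a => exact ⟨0, by simp [z0]⟩
  | add p q hp hq =>
    obtain ⟨u, hu⟩ := hp
    obtain ⟨v, hv⟩ := hq
    refine ⟨u + v, ?_⟩
    rw [map_add]
    linear_combination hu + hv
  | mul_X p i hp =>
    obtain ⟨u, hu⟩ := hp
    rw [map_mul]
    by_cases hi : i = 0
    · subst hi
      exact ⟨p, by rw [z0_X0]; ring⟩
    · refine ⟨u * X i, ?_⟩
      have : z0 (X i : MvPolynomial (Fin 3) L) = X i := by simp [z0, hi]
      rw [this]
      linear_combination (X i) * hu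

/-- The depth of the quotient by two coprime elements is positive. -/
theorem depth {f g e : MvPolynomial (Fin 3) L} (hfg : IsRelPrime f g) (hg : g ≠ 0)
    (h : ∀ i, X i * e ∈ Ideal.span (Set.range ![f, g])) : e ∈ Ideal.span (Set.range ![f, g]) := by
  have h' : ∀ i, ∃ u v, X i * e = u * f + v * g := fun i => mem_pair.1 (h i)
  choose α β hαβ using h'
  obtain ⟨r01, h01, k01⟩ := syz' (u := X 1 * α 0 - X 0 * α 1) (v := X 1 * β 0 - X 0 * β 1) hfg hg
    (by linear_combination (X 0) * (hαβ 1) - (X 1) * hαβ 0)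
  obtain ⟨r02, h02, k02⟩ := syz' (u := X 2 * α 0 - X 0 * α 2) (v := X 2 * β 0 - X 0 * β 2) hfg hg
    (by linear_combination (X 0) * (hαβ 2) - (X 2) * hαβ 0)
  obtain ⟨r12, h12, k12⟩ := syz' (u := X 2 * α 1 - X 1 * α 2) (v := X 2 * β 1 - X 1 * β 2) hfg hg
    (by linear_combination (X 1) * (hαβ 2) - (X 2) * hαβ 1)
  -- Koszul cycle
  have hk : X 2 * r01 - X 1 * r02 + X 0 * r12 = 0 := by
    apply mul_right_cancel₀ hg
    linear_combination (-X 2) * h01 + X 1 * h02 - X 0 * h12
  have hz := congrArg z0 hk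
  simp only [map_add, map_sub, map_mul, z0_X0, z0_X1, z0_X2, map_zero, zero_mul, add_zero] at hz
  obtain ⟨τ, ht1, ht2⟩ := syz (f := X 2) (g := X 1) (u := z0 r01) (v := z0 r02)
    (prime_X_ne (by decide)) (X_ne_zero 1) (by linear_combination hz)
  obtain ⟨q1, hq1⟩ := sub_z0 r01
  obtain ⟨q2, hq2⟩ := sub_z0 r02
  rw [ht1] at hq1
  rw [ht2] at hq2
  have hr12 : r12 = X 1 * q2 - X 2 * q1 := by
    apply mul_left_cancel₀ (X_ne_zero (R := L) (0 : Fin 3))
    linear_combination hk - X 2 * hq1 + X 1 * hq2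
  -- `α 0`, `α 1`
  obtain ⟨a', ha0, ha1⟩ := syz (f := X 1) (g := X 0) (u := α 0 - g * τ) (v := α 1 + g * q1)
    (prime_X_ne (by decide)) (X_ne_zero 0) (by linear_combination h01 + g * hq1)
  obtain ⟨b', hb0, hb1⟩ := syz (f := X 1) (g := X 0) (u := β 0 + f * τ) (v := β 1 - f * q1)
    (prime_X_ne (by decide)) (X_ne_zero 0) (by linear_combination k01 - f * hq1)
  rw [mem_pair]
  refine ⟨a', b', ?_⟩
  apply mul_left_cancel₀ (X_ne_zero (R := L) (0 : Fin 3))
  linear_combination hαβ 0 + f * ha0 + g * hb0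

end coprime

end Pool.Agent.H22.SLP
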