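import Pool.Agent.H22.SLP.Pencil

/-!
The field `K(t₀, t₁, t₂)` with its partial derivatives, and subspaces of its three-dimensional
vector space which are stable under differentiation along their own elements.
-/

set_option autoImplicit false

open MvPolynomial

namespace Pool.Agent.H22.SLP

section extend

variable {k A L : Type*} [Field k] [CommRing A] [IsDomain A] [Field L] [Algebra A L]
  [IsFractionRing A L] [Algebra k A] [Algebra k L] [IsScalarTower k A L]

/-- `a ↦ a + ε d a` as a ring homomorphism to the dual numbers. -/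
noncomputable def dualHom (d : Derivation k A L) : A →+* TrivSqZeroExt L L where
  toFun a := TrivSqZeroExt.inl (algebraMap A L a) + TrivSqZeroExt.inr (d a)
  map_one' := by
    ext <;> simp
  map_mul' a b := by
    ext
    · simp
    · simp only [map_mul, Derivation.leibniz, TrivSqZeroExt.snd_add, TrivSqZeroExt.snd_inl,
        TrivSqZeroExt.snd_inr, TrivSqZeroExt.snd_mul, TrivSqZeroExt.fst_add,
        TrivSqZeroExt.fst_inl, TrivSqZeroExt.fst_inr, Algebra.smul_def, zero_add, add_zero,
        MulOpposite.smul_eq_mul_unop, MulOpposite.unop_op, Algebra.algebraMap_self, RingHom.id_apply]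
      ring
  map_zero' := by
    ext <;> simp
  map_add' a b := by
    ext <;> simp

omit [IsScalarTower k A L] in
lemma dualHom_isUnit (d : Derivation k A L) (y : nonZeroDivisors A) :
    IsUnit (dualHom d y) := by
  rw [TrivSqZeroExt.isUnit_iff_isUnit_fst]
  have : (dualHom d y).fst = algebraMap A L y := by simp [dualHom]
  rw [this, isUnit_iff_ne_zero]
  exact IsFractionRing.to_map_ne_zero_of_mem_nonZeroDivisors y.2

/-- The extension to the fraction field. -/
noncomputable def liftHom (d : Derivation k A L) : L →+* TrivSqZeroExt L L :=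
  IsLocalization.lift (M := nonZeroDivisors A) (dualHom_isUnit d)

omit [IsScalarTower k A L] in
lemma liftHom_algebraMap (d : Derivation k A L) (a : A) :
    liftHom d (algebraMap A L a) = TrivSqZeroExt.inl (algebraMap A L a) +
      TrivSqZeroExt.inr (d a) := by
  unfold liftHom
  rw [IsLocalization.lift_eq]
  rfl

omit [IsScalarTower k A L] in
lemma fst_liftHom (d : Derivation k A L) (f : L) : (liftHom d f).fst = f := by
  have h : (TrivSqZeroExt.fstHom L L L).toRingHom.comp (liftHom d) = RingHom.id L := by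
    refine IsLocalization.ringHom_ext (nonZeroDivisors A) ?_
    ext a
    simp [liftHom_algebraMap]
  exact RingHom.congr_fun h f

/-- Extension of a derivation to the fraction field. -/
noncomputable def extendDer (d : Derivation k A L) : Derivation k L L :=
  Derivation.mk'
    { toFun := fun f => (liftHom d f).snd
      map_add' := by intro f g; simp
      map_smul' := by
        intro c f
        have h1 : liftHom d (algebraMap k L c) = TrivSqZeroExt.inl (algebraMap k L c) := by
          rw [IsScalarTower.algebraMap_apply k A L, liftHom_algebraMap, d.map_algebraMap]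
          simp
        simp only [Algebra.smul_def, map_mul, h1, TrivSqZeroExt.snd_mul, TrivSqZeroExt.fst_inl,
          TrivSqZeroExt.snd_inl, smul_zero, add_zero, Algebra.algebraMap_self, RingHom.id_apply] }
    (by
      intro f g
      simp only [LinearMap.coe_mk, AddHom.coe_mk, map_mul, TrivSqZeroExt.snd_mul, fst_liftHom,
        smul_eq_mul, MulOpposite.smul_eq_mul_unop, MulOpposite.unop_op]
      ring)

lemma extendDer_algebraMap (d : Derivation k A L) (a : A) :
    extendDer d (algebraMap A L a) = d a := by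
  change (liftHom d (algebraMap A L a)).snd = d a
  rw [liftHom_algebraMap]
  simp

end extend

variable (K : Type*) [Field K]

/-- The field `K(t₀, t₁, t₂)`. -/
abbrev FL : Type _ := FractionRing (MvPolynomial (Fin 3) K)

/-- The partial derivative `∂/∂t_c` of `K(t₀, t₁, t₂)`. -/
noncomputable def dl (c : Fin 3) : Derivation K (FL K) (FL K) :=
  extendDer ((Algebra.linearMap (MvPolynomial (Fin 3) K) (FL K)).compDer (pderiv c))

variable {K}

lemma dl_algebraMap (c : Fin 3) (p : MvPolynomial (Fin 3) K) :
    dl K c (algebraMap _ (FL K) p) = algebraMap _ (FL K) (pderiv c p) := by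
  unfold dl
  rw [extendDer_algebraMap]
  rfl

/-- The variable `t_c` in `K(t₀, t₁, t₂)`. -/
noncomputable def tl (c : Fin 3) : FL K := algebraMap (MvPolynomial (Fin 3) K) (FL K) (X c)

lemma dl_tl (c b : Fin 3) : dl K c (tl b) = if c = b then 1 else 0 := by
  unfold tl
  rw [dl_algebraMap, pderiv_X]
  by_cases h : c = b
  · subst h; simp
  · rw [if_neg h, Pi.single_eq_of_ne (fun h' => h h'.symm), map_zero]

lemma dl_const (c : Fin 3) (a : K) : dl K c (algebraMap K (FL K) a) = 0 :=
  Derivation.map_algebraMap _ _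

/-- The derivative along the vector `p`. -/
noncomputable def dd (p : Fin 3 → FL K) (x : FL K) : FL K :=
  p 0 * dl K 0 x + p 1 * dl K 1 x + p 2 * dl K 2 x

lemma dd_mul (p : Fin 3 → FL K) (x y : FL K) : dd p (x * y) = x * dd p y + y * dd p x := by
  unfold dd
  simp only [Derivation.leibniz, smul_eq_mul]
  ring

lemma dd_sub (p : Fin 3 → FL K) (x y : FL K) : dd p (x - y) = dd p x - dd p y := by
  unfold dd
  simp only [map_sub]
  ring

lemma dd_add (p : Fin 3 → FL K) (x y : FL K) : dd p (x + y) = dd p x + dd p y := by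
  unfold dd
  simp only [map_add]
  ring

lemma dd_tl (p : Fin 3 → FL K) (c : Fin 3) : dd p (tl c) = p c := by
  unfold dd
  simp only [dl_tl]
  fin_cases c <;> simp

lemma dd_const (p : Fin 3 → FL K) (a : K) : dd p (algebraMap K (FL K) a) = 0 := by
  unfold dd
  simp only [dl_const, mul_zero, add_zero]

lemma dd_lin (p q : Fin 3 → FL K) (x y f : FL K) :
    dd (fun i => x * p i + y * q i) f = x * dd p f + y * dd q f := by
  unfold dd
  ring

lemma dd_single (c : Fin 3) (f : FL K) : dd (Pi.single c 1) f = dl K c f := by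
  unfold dd
  fin_cases c <;> simp

/-- Stability conditions for a subspace of the vector space of `K(t₀, t₁, t₂)`. -/
structure Stable (V : Submodule (FL K) (Fin 3 → FL K)) : Prop where
  self : ∀ k ∈ V, ∀ k' ∈ V, (fun i => dd k (k' i)) ∈ V
  euler : ∀ k ∈ V, (fun i => dd tl (k i)) ∈ V
  tl_notMem : (tl : Fin 3 → FL K) ∉ V
  const : ∀ k ∈ V, (∀ c i, dl K c (k i) = 0) → k = 0

section linear

variable {F : Type*} [Field F]

/-- Four vectors in three-space. -/
lemma four (a b c q : Fin 3 → F) (i : Fin 3) : dt (cr a b) c * q i =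
    dt (cr q b) c * a i + dt (cr a q) c * b i + dt (cr a b) q * c i := by
  fin_cases i <;> simp only [dt, cr_zero, cr_one, cr_two, Fin.zero_eta, Fin.mk_one,
        Fin.reduceFinMk] <;> ring

/-- A vector orthogonal to a cross product. -/
lemma eq_lin_of_dt {a b p e : Fin 3 → F} (he : dt (cr a b) e = 1) (hp : dt (cr a b) p = 0) :
    p = fun i => dt (cr p b) e * a i + dt (cr a p) e * b i := by
  ext i
  have := four a b e p i
  rw [he, hp] at this
  linear_combination this

lemma cr_lin (a b : Fin 3 → F) (x y : F) (i : Fin 3) :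
    cr a (fun i => x * a i + y * b i) i = y * cr a b i := by
  fin_cases i <;> simp only [cr_zero, cr_one, cr_two, Fin.zero_eta, Fin.mk_one,
        Fin.reduceFinMk] <;> ring

end linear

/-- A nonzero subspace stable under all derivatives contains a nonzero constant vector. -/
lemma exists_const {V : Submodule (FL K) (Fin 3 → FL K)} (hV : V ≠ ⊥)
    (h : ∀ c, ∀ k ∈ V, (fun i => dl K c (k i)) ∈ V) :
    ∃ k ∈ V, k ≠ 0 ∧ ∀ c i, dl K c (k i) = 0 := by
  classical
  obtain ⟨k0, hk0, hk0'⟩ := V.exists_mem_ne_zero_of_ne_bot hV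
  let P : ℕ → Prop := fun m => ∃ k ∈ V, k ≠ 0 ∧ (Finset.univ.filter fun i => k i ≠ 0).card = m
  have hP : ∃ m, P m := ⟨_, k0, hk0, hk0', rfl⟩
  obtain ⟨k, hk, hkne, hcard⟩ := Nat.find_spec hP
  have hmin : ∀ k' ∈ V, (Finset.univ.filter fun i => k' i ≠ 0).card <
      (Finset.univ.filter fun i => k i ≠ 0).card → k' = 0 := by
    intro k' hk' hlt
    by_contra hne
    rw [hcard] at hlt
    exact Nat.find_min hP hlt ⟨k', hk', hne, rfl⟩
  obtain ⟨j, hj⟩ := Function.ne_iff.1 hkne
  rw [Pi.zero_apply] at hj
  set u : Fin 3 → FL K := (k j)⁻¹ • k with hu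
  have huV : u ∈ V := V.smul_mem _ hk
  have huj : u j = 1 := by
    rw [hu, Pi.smul_apply, smul_eq_mul, inv_mul_cancel₀ hj]
  have hu0 : ∀ i, k i = 0 → u i = 0 := by
    intro i hi
    rw [hu, Pi.smul_apply, hi, smul_zero]
  refine ⟨u, huV, ?_, ?_⟩
  · intro h0
    rw [h0, Pi.zero_apply] at huj
    exact zero_ne_one huj
  · intro c
    have h1 : (fun i => dl K c (u i)) = 0 := by
      apply hmin _ (h c u huV)
      apply Finset.card_lt_card
      rw [Finset.ssubset_iff_of_subset]
      · refine ⟨j, ?_, ?_⟩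
        · simpa using hj
        · rw [Finset.mem_filter]
          rintro ⟨-, h2⟩
          apply h2
          rw [huj]
          exact Derivation.map_one_eq_zero _
      · intro i hi
        rw [Finset.mem_filter] at hi ⊢
        refine ⟨hi.1, fun h2 => hi.2 ?_⟩
        rw [hu0 i h2, map_zero]
    intro i
    exact congrFun h1 i

lemma exists_polynomial_multiple (k : Fin 3 → FL K) :
    ∃ (d : FL K) (kp : Fin 3 → MvPolynomial (Fin 3) K), d ≠ 0 ∧
      ∀ i, d * k i = algebraMap _ (FL K) (kp i) := by
  classical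
  obtain ⟨d, hd⟩ := IsLocalization.exist_integer_multiples_of_finset
    (nonZeroDivisors (MvPolynomial (Fin 3) K)) (Finset.univ.image k)
  have h : ∀ i, ∃ p : MvPolynomial (Fin 3) K, algebraMap _ (FL K) p =
      algebraMap _ (FL K) (d : MvPolynomial (Fin 3) K) * k i := by
    intro i
    obtain ⟨p, hp⟩ := hd (k i) (Finset.mem_image_of_mem k (Finset.mem_univ i))
    refine ⟨p, ?_⟩
    rw [hp]
    exact Algebra.smul_def _ _
  choose kp hkp using h
  refine ⟨algebraMap _ (FL K) (d : MvPolynomial (Fin 3) K), kp, ?_, fun i => (hkp i).symm⟩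
  exact IsFractionRing.to_map_ne_zero_of_mem_nonZeroDivisors d.2

theorem Stable.exists_center [CharZero K] {V : Submodule (FL K) (Fin 3 → FL K)} (hS : Stable V)
    (hV : V ≠ ⊥) : ∃ (b : Fin 3 → K) (ψ : FL K), b ≠ 0 ∧ ψ ≠ 0 ∧
      (fun i => tl i - ψ * algebraMap K (FL K) (b i)) ∈ V ∧
      dd (fun i => algebraMap K (FL K) (b i)) ψ = 1 := by
  obtain ⟨k0, hk0, hk0'⟩ := V.exists_mem_ne_zero_of_ne_bot hV
  obtain ⟨d, kp, hd, hkp⟩ := exists_polynomial_multiple k0
  set k : Fin 3 → FL K := fun i => algebraMap _ (FL K) (kp i) with hk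
  have hkV : k ∈ V := by
    have : k = d • k0 := by
      ext i
      rw [hk, Pi.smul_apply, smul_eq_mul, hkp]
    rw [this]
    exact V.smul_mem _ hk0
  have hkne : k ≠ 0 := by
    intro h0
    apply hk0'
    ext i
    have h1 := congrFun h0 i
    rw [hk] at h1
    simp only [Pi.zero_apply] at h1
    rw [← hkp] at h1
    exact (mul_eq_zero.1 h1).resolve_left hd
  set α : Fin 3 → FL K := cr tl k with hα
  have hα0 : α ≠ 0 := by
    intro h0
    rw [hα, cr_eq_zero_iff] at h0
    obtain ⟨j, hj⟩ := Function.ne_iff.1 hkne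
    rw [Pi.zero_apply] at hj
    apply hS.tl_notMem
    have : (tl : Fin 3 → FL K) = (tl j / k j) • k := by
      ext i
      rw [Pi.smul_apply, smul_eq_mul, div_mul_eq_mul_div, eq_div_iff hj]
      exact h0 i j
    rw [this]
    exact V.smul_mem _ hkV
  obtain ⟨e, he⟩ := exists_dt_eq_one hα0
  -- all elements of `V` are orthogonal to `α`
  have horth : ∀ p ∈ V, dt α p = 0 := by
    by_contra hcon
    push Not at hcon
    obtain ⟨p, hpV, hp⟩ := hcon
    have hspan : ∀ q : Fin 3 → FL K, ∃ p' ∈ V, ∃ φ : FL K, q = fun i => φ * tl i + p' i := by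
      intro q
      refine ⟨(dt (cr tl q) p / dt α p) • k + (dt (cr tl k) q / dt α p) • p,
        V.add_mem (V.smul_mem _ hkV) (V.smul_mem _ hpV), dt (cr q k) p / dt α p, ?_⟩
      ext i
      simp only [Pi.add_apply, Pi.smul_apply, smul_eq_mul]
      have h1 := four tl k p q i
      rw [← hα] at h1 ⊢
      field_simp
      linear_combination h1
    have hst : ∀ c, ∀ k' ∈ V, (fun i => dl K c (k' i)) ∈ V := by
      intro c k' hk'
      obtain ⟨p', hp', φ, hφ⟩ := hspan (Pi.single c 1)
      have h1 : (fun i => dl K c (k' i)) = φ • (fun i => dd tl (k' i)) +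
          (fun i => dd p' (k' i)) := by
        ext i
        rw [Pi.add_apply, Pi.smul_apply, smul_eq_mul, ← dd_single, hφ]
        have := dd_lin tl p' φ 1 (k' i)
        simp only [one_mul] at this
        exact this
      rw [h1]
      exact V.add_mem (V.smul_mem _ (hS.euler _ hk')) (hS.self _ hp' _ hk')
    obtain ⟨k', hk', hne, hcst⟩ := exists_const hV hst
    exact hne (hS.const _ hk' hcst)
  -- derivatives of `α` along the plane
  have hpar : ∀ q ∈ V, ∃ φ : FL K, ∀ i, cr tl q i = φ * α i := by
    intro q hq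
    have h1 := eq_lin_of_dt he (horth q hq)
    refine ⟨dt (cr tl q) e, fun i => ?_⟩
    conv_lhs => rw [h1]
    exact cr_lin tl k _ _ i
  have hdα : ∀ p : Fin 3 → FL K, ∀ i, dd p (α i) = cr p k i + cr tl (fun i => dd p (k i)) i := by
    intro p i
    rw [hα]
    fin_cases i <;> simp only [cr_zero, cr_one, cr_two, dd_sub, dd_mul, dd_tl, Fin.zero_eta,
      Fin.mk_one, Fin.reduceFinMk] <;> ring
  have hdt : ∃ φ : FL K, ∀ i, dd tl (α i) = φ * α i := by
    obtain ⟨φ, hφ⟩ := hpar _ (hS.euler _ hkV)
    refine ⟨1 + φ, fun i => ?_⟩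
    rw [hdα, hφ, ← hα]
    ring
  have hdk : ∃ φ : FL K, ∀ i, dd k (α i) = φ * α i := by
    obtain ⟨φ, hφ⟩ := hpar _ (hS.self _ hkV _ hkV)
    refine ⟨φ, fun i => ?_⟩
    rw [hdα, hφ]
    have : cr k k i = 0 := by
      fin_cases i <;> simp only [cr_zero, cr_one, cr_two, Fin.zero_eta,
        Fin.mk_one, Fin.reduceFinMk] <;> ring
    rw [this, zero_add]
  obtain ⟨φt, hφt⟩ := hdt
  obtain ⟨φk, hφk⟩ := hdk
  -- the polynomial covector
  set A : Fin 3 → MvPolynomial (Fin 3) K := cr (fun i => X i) kp with hA
  have hAα : ∀ i, algebraMap _ (FL K) (A i) = α i := by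
    intro i
    rw [hA, hα, hk]
    fin_cases i <;> simp [cr, tl]
  have hinj : Function.Injective (algebraMap (MvPolynomial (Fin 3) K) (FL K)) :=
    IsFractionRing.injective _ _
  have hA0 : A ≠ 0 := by
    intro h0
    apply hα0
    ext i
    rw [← hAα, h0, Pi.zero_apply, map_zero, Pi.zero_apply]
  have hAX : dt A (fun i => X i) = 0 := by
    rw [hA]
    simp only [dt, cr_zero, cr_one, cr_two]
    ring
  have hXf : ∀ (c : Fin 3 → K) (i j : Fin 3), Xf A c i * A j = Xf A c j * A i := by
    intro c i j
    apply hinj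
    have h1 : ∀ i, algebraMap _ (FL K) (Xf A c i) =
        dd (cr α (fun j => algebraMap K (FL K) (c j))) (α i) := by
      intro i
      unfold Xf dd
      rw [Fin.sum_univ_three, map_add, map_add, map_mul, map_mul, map_mul]
      simp only [← hAα, dl_algebraMap]
      have h2 : ∀ b, algebraMap _ (FL K) (cr A (fun j => C (c j)) b) =
          cr (fun i => algebraMap (MvPolynomial (Fin 3) K) (FL K) (A i))
            (fun j => algebraMap K (FL K) (c j)) b := by
        intro b
        have h3 : ∀ x : K, algebraMap (MvPolynomial (Fin 3) K) (FL K) (C x) =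
            algebraMap K (FL K) x := by
          intro x
          rw [IsScalarTower.algebraMap_apply K (MvPolynomial (Fin 3) K) (FL K)]
          rfl
        fin_cases b <;> simp [cr, h3]
      rw [h2, h2, h2]
      have h4 : (fun i => algebraMap (MvPolynomial (Fin 3) K) (FL K) (A i)) = α := funext hAα
      rw [h4]
    have h5 : ∃ φ, ∀ i, algebraMap _ (FL K) (Xf A c i) = φ * α i := by
      set p := cr α (fun j => algebraMap K (FL K) (c j)) with hp
      have hp0 : dt (cr tl k) p = 0 := by
        rw [← hα, hp]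
        simp only [dt, cr_zero, cr_one, cr_two]
        ring
      have h6 := eq_lin_of_dt he hp0
      refine ⟨dt (cr p k) e * φt + dt (cr tl p) e * φk, fun i => ?_⟩
      rw [h1]
      conv_lhs => rw [h6]
      rw [dd_lin, hφt, hφk]
      ring
    obtain ⟨φ, hφ⟩ := h5
    rw [map_mul, map_mul, hφ, hφ, hAα, hAα]
    ring
  obtain ⟨b, hb0, hb⟩ := pencil hA0 hAX hXf
  set bl : Fin 3 → FL K := fun i => algebraMap K (FL K) (b i) with hbl
  have hbl0 : bl ≠ 0 := by
    intro h0
    apply hb0
    ext i
    have := congrFun h0 i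
    rw [hbl] at this
    simpa using this
  have hblconst : ∀ c i, dl K c (bl i) = 0 := fun c i => dl_const c (b i)
  have hblV : bl ∉ V := fun h => hbl0 (hS.const _ h hblconst)
  have hαb : dt (cr tl k) bl = 0 := by
    have h1 := congrArg (algebraMap (MvPolynomial (Fin 3) K) (FL K)) hb
    have h3 : ∀ x : K, algebraMap (MvPolynomial (Fin 3) K) (FL K) (C x) =
        algebraMap K (FL K) x := by
      intro x
      rw [IsScalarTower.algebraMap_apply K (MvPolynomial (Fin 3) K) (FL K)]
      rfl
    simp only [dt, map_add, map_mul, h3, hAα, map_zero] at h1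
    rw [← hα, dt, hbl]
    linear_combination h1
  have h6 := eq_lin_of_dt he hαb
  set x := dt (cr bl k) e with hx
  set y := dt (cr tl bl) e with hy
  have hx0 : x ≠ 0 := by
    intro h0
    apply hblV
    rw [h6, h0]
    have : (fun i => 0 * tl i + y * k i) = y • k := by
      ext i
      simp
    rw [this]
    exact V.smul_mem _ hkV
  set ψ := x⁻¹ with hψ
  have hψ0 : ψ ≠ 0 := inv_ne_zero hx0
  set k1 : Fin 3 → FL K := fun i => tl i - ψ * bl i with hk1
  have hk1V : k1 ∈ V := by
    have : k1 = (-(ψ * y)) • k := by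
      ext i
      rw [hk1, Pi.smul_apply, smul_eq_mul]
      simp only
      have h7 := congrFun h6 i
      rw [h7, hψ]
      field_simp
      ring
    rw [this]
    exact V.smul_mem _ hkV
  have hcb : ∀ φ : FL K, φ • bl ∈ V → φ = 0 := by
    intro φ hφ
    by_contra h0
    apply hblV
    have := V.smul_mem φ⁻¹ hφ
    rwa [smul_smul, inv_mul_cancel₀ h0, one_smul] at this
  have hdk1 : ∀ p : Fin 3 → FL K, ∀ i, dd p (k1 i) = p i - dd p ψ * bl i := by
    intro p i
    rw [hk1]
    simp only
    rw [dd_sub, dd_tl, dd_mul]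
    have : dd p (bl i) = 0 := dd_const p (b i)
    rw [this]
    ring
  have e1 : dd k1 ψ = 0 := by
    apply hcb
    have h7 := V.sub_mem hk1V (hS.self _ hk1V _ hk1V)
    convert h7 using 1
    ext i
    rw [Pi.smul_apply, Pi.sub_apply, smul_eq_mul, hdk1]
    ring
  have e2 : ψ - dd tl ψ = 0 := by
    apply hcb
    have h7 := V.sub_mem (hS.euler _ hk1V) hk1V
    convert h7 using 1
    ext i
    rw [Pi.smul_apply, Pi.sub_apply, smul_eq_mul, hdk1, hk1]
    ring
  have e3 : dd k1 ψ = dd tl ψ - ψ * dd bl ψ := by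
    have := dd_lin tl bl 1 (-ψ) ψ
    have h8 : (fun i => 1 * tl i + -ψ * bl i) = k1 := by
      ext i
      rw [hk1]
      ring
    rw [h8] at this
    rw [this]
    ring
  refine ⟨b, ψ, hb0, hψ0, hk1V, ?_⟩
  apply mul_left_cancel₀ hψ0
  linear_combination e3 - e1 - e2

end Pool.Agent.H22.SLP
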