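import Pool.Agent.H22.SLP.Comm1
import Pool.Agent.H22.SLP.Fields

/-!
Coefficientwise derivations of the polynomial ring over `K(t₀, t₁, t₂)`, and regularity of the
generic linear form.
-/

set_option autoImplicit false

open MvPolynomial

namespace Pool.Agent.H22.SLP

open Pool.Agent.H4.Ternary Pool.Agent.H4.Apolar Pool.Agent.H4.Conic Pool.Agent.H4.Descent

section cd

variable {K F : Type*} [Field K] [Field F] [Algebra K F]

/-- coefficientwise `p + ε δ p` -/
noncomputable def cdHom (δ : Derivation K F F) : MvPolynomial (Fin 3) F →+*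
    TrivSqZeroExt (MvPolynomial (Fin 3) F) (MvPolynomial (Fin 3) F) :=
  eval₂Hom
    { toFun := fun a => TrivSqZeroExt.inl (C a) + TrivSqZeroExt.inr (C (δ a))
      map_one' := by ext1 <;> simp
      map_mul' := by
        intro a b
        ext1
        · simp
        · simp only [map_mul, Derivation.leibniz, TrivSqZeroExt.snd_add, TrivSqZeroExt.snd_inl,
            TrivSqZeroExt.snd_inr, TrivSqZeroExt.snd_mul, TrivSqZeroExt.fst_add,
            TrivSqZeroExt.fst_inl, TrivSqZeroExt.fst_inr, zero_add, add_zero,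
            MulOpposite.smul_eq_mul_unop, MulOpposite.unop_op, smul_eq_mul, map_add]
          ring
      map_zero' := by ext1 <;> simp
      map_add' := by
        intro a b
        ext1 <;> simp } (fun i => TrivSqZeroExt.inl (X i))

lemma cdHom_C (δ : Derivation K F F) (a : F) :
    cdHom δ (C a) = TrivSqZeroExt.inl (C a) + TrivSqZeroExt.inr (C (δ a)) := by
  unfold cdHom
  rw [coe_eval₂Hom, eval₂_C]
  rfl

lemma cdHom_X (δ : Derivation K F F) (i : Fin 3) :
    cdHom δ (X i) = TrivSqZeroExt.inl (X i) := by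
  unfold cdHom
  rw [coe_eval₂Hom, eval₂_X]

lemma fst_cdHom (δ : Derivation K F F) (p : MvPolynomial (Fin 3) F) : (cdHom δ p).fst = p := by
  have h : (TrivSqZeroExt.fstHom (MvPolynomial (Fin 3) F) (MvPolynomial (Fin 3) F)
      (MvPolynomial (Fin 3) F)).toRingHom.comp (cdHom δ) = RingHom.id _ := by
    apply MvPolynomial.ringHom_ext
    · intro a
      simp [cdHom_C]
    · intro i
      simp [cdHom_X]
  exact RingHom.congr_fun h p

/-- The coefficientwise derivation. -/
noncomputable def cd (δ : Derivation K F F) :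
    Derivation K (MvPolynomial (Fin 3) F) (MvPolynomial (Fin 3) F) :=
  Derivation.mk'
    { toFun := fun p => (cdHom δ p).snd
      map_add' := by intro f g; simp
      map_smul' := by
        intro c f
        have h1 : cdHom δ (C (algebraMap K F c)) = TrivSqZeroExt.inl (C (algebraMap K F c)) := by
          rw [cdHom_C, Derivation.map_algebraMap, map_zero]
          simp
        have h2 : c • f = C (algebraMap K F c) * f := by
          rw [← smul_eq_C_mul, algebraMap_smul]
        rw [h2, map_mul, h1]
        simp only [TrivSqZeroExt.snd_mul, TrivSqZeroExt.fst_inl,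
          TrivSqZeroExt.snd_inl, smul_zero, add_zero, RingHom.id_apply]
        rw [← algebraMap_smul F c, smul_eq_C_mul, smul_eq_mul] }
    (by
      intro f g
      simp only [LinearMap.coe_mk, AddHom.coe_mk, map_mul, TrivSqZeroExt.snd_mul, fst_cdHom,
        smul_eq_mul, MulOpposite.smul_eq_mul_unop, MulOpposite.unop_op]
      ring)

lemma cd_C (δ : Derivation K F F) (a : F) : cd δ (C a) = C (δ a) := by
  change (cdHom δ (C a)).snd = _
  rw [cdHom_C]
  simp

lemma cd_X (δ : Derivation K F F) (i : Fin 3) : cd δ (X i) = 0 := by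
  change (cdHom δ (X i)).snd = _
  rw [cdHom_X]
  simp

lemma cd_mul (δ : Derivation K F F) (p q : MvPolynomial (Fin 3) F) :
    cd δ (p * q) = p * cd δ q + q * cd δ p := by
  rw [Derivation.leibniz]
  rfl

lemma cd_map (δ : Derivation K F F) (p : MvPolynomial (Fin 3) K) :
    cd δ (map (algebraMap K F) p) = 0 := by
  induction p using MvPolynomial.induction_on with
  | C a => rw [map_C, cd_C, Derivation.map_algebraMap, map_zero]
  | add p q hp hq => rw [map_add, map_add, hp, hq, add_zero]
  | mul_X p i hp => rw [map_mul, map_X, cd_mul, hp, cd_X, mul_zero, mul_zero, add_zero]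

lemma cd_monomial (δ : Derivation K F F) (α : Fin 3 →₀ ℕ) (a : F) :
    cd δ (monomial α a) = monomial α (δ a) := by
  have h1 : (monomial α a : MvPolynomial (Fin 3) F) =
      C a * map (algebraMap K F) (monomial α 1) := by
    rw [map_monomial, map_one, C_mul_monomial, mul_one]
  rw [h1, cd_mul, cd_map, cd_C, mul_zero, zero_add, mul_comm, map_monomial, map_one,
    C_mul_monomial, mul_one]

lemma coeff_cd (δ : Derivation K F F) (p : MvPolynomial (Fin 3) F) (α : Fin 3 →₀ ℕ) :
    coeff α (cd δ p) = δ (coeff α p) := by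
  induction p using MvPolynomial.induction_on' with
  | monomial β a =>
    classical
    rw [cd_monomial, coeff_monomial, coeff_monomial]
    split_ifs
    · rfl
    · rw [map_zero]
  | add p q hp hq => rw [map_add, coeff_add, coeff_add, hp, hq, map_add]

lemma cd_isHomogeneous (δ : Derivation K F F) {p : MvPolynomial (Fin 3) F} {d : ℕ}
    (hp : p.IsHomogeneous d) : (cd δ p).IsHomogeneous d := by
  intro α hα
  rw [coeff_cd] at hα
  apply hp
  intro h
  rw [h, map_zero] at hα
  exact hα rfl

lemma cd_mem_RT (δ : Derivation K F F) {p : MvPolynomial (Fin 3) F} {N : ℕ}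
    (hp : p ∈ RT 3 F N) : cd δ p ∈ RT 3 F N := by
  cases N with
  | zero => rw [mem_RT_zero.1 hp, map_zero]; exact Submodule.zero_mem _
  | succ N => exact cd_isHomogeneous δ hp

end cd

section depth

variable {L : Type*} [Field L]

/-- Products of variables. -/
noncomputable def mx (L : Type*) [Field L] (cs : List (Fin 3)) : MvPolynomial (Fin 3) L :=
  (cs.map X).prod

lemma mx_nil : mx L [] = 1 := rfl

lemma mx_cons (c : Fin 3) (cs : List (Fin 3)) : mx L (c :: cs) = X c * mx L cs := by
  unfold mx
  rw [List.map_cons, List.prod_cons]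

lemma mx_isHomogeneous (cs : List (Fin 3)) : (mx L cs).IsHomogeneous cs.length := by
  induction cs with
  | nil => exact isHomogeneous_one _ _
  | cons c cs ih =>
    rw [mx_cons, List.length_cons, add_comm]
    exact (isHomogeneous_X _ c).mul ih

lemma exists_mx (α : Fin 3 →₀ ℕ) : ∃ cs : List (Fin 3), cs.length = α.degree ∧
    (monomial α (1 : L)) = mx L cs := by
  refine ⟨List.replicate (α 0) 0 ++ (List.replicate (α 1) 1 ++ List.replicate (α 2) 2), ?_, ?_⟩
  · rw [Finsupp.degree_eq_sum, Fin.sum_univ_three]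
    simp
    ring
  · unfold mx
    rw [monomial_eq, Finsupp.prod_fintype _ _ (fun i => pow_zero _), Fin.prod_univ_three]
    simp
    ring

/-- If all monomials of one degree belong to the ideal then so do all forms. -/
lemma forms_mem {I : Ideal (MvPolynomial (Fin 3) L)} {e : MvPolynomial (Fin 3) L} {n : ℕ}
    (h : ∀ cs : List (Fin 3), cs.length = n → mx L cs * e ∈ I) {p : MvPolynomial (Fin 3) L}
    (hp : p.IsHomogeneous n) : p * e ∈ I := by
  rw [p.as_sum, Finset.sum_mul]
  apply Ideal.sum_mem
  intro α hα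
  have hd : α.degree = n := by
    by_contra h0
    exact (mem_support_iff.1 hα) (hp.coeff_eq_zero h0)
  obtain ⟨cs, hcs, hm⟩ := exists_mx (L := L) α
  have h1 : (monomial α (coeff α p) : MvPolynomial (Fin 3) L) = C (coeff α p) * mx L cs := by
    rw [← hm, C_mul_monomial, mul_one]
  rw [h1, mul_assoc]
  exact Ideal.mul_mem_left _ _ (h cs (by rw [hcs, hd]))

lemma depth_pow {I : Ideal (MvPolynomial (Fin 3) L)}
    (hI : ∀ e, (∀ i, X i * e ∈ I) → e ∈ I) : ∀ (n : ℕ) (e : MvPolynomial (Fin 3) L),
    (∀ cs : List (Fin 3), cs.length = n → mx L cs * e ∈ I) → e ∈ I := by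
  intro n
  induction n with
  | zero =>
    intro e h
    have := h [] rfl
    rwa [mx_nil, one_mul] at this
  | succ n ih =>
    intro e h
    apply ih
    intro cs hcs
    apply hI
    intro i
    have := h (i :: cs) (by simp [hcs])
    rwa [mx_cons, mul_assoc] at this

/-- The third generator is regular modulo the other two. -/
theorem third_regular {f g h : MvPolynomial (Fin 3) L}
    (hI : ∀ e, (∀ i, X i * e ∈ Ideal.span (Set.range ![f, g])) → e ∈ Ideal.span (Set.range ![f, g]))
    {J : ℕ} (hJ : ∀ p ∈ RT 3 L (J + 1), p ∈ Ideal.span (Set.range ![f, g, h]))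
    {e : MvPolynomial (Fin 3) L} (he : h * e ∈ Ideal.span (Set.range ![f, g])) :
    e ∈ Ideal.span (Set.range ![f, g]) := by
  apply depth_pow hI J
  intro cs hcs
  have h1 := hJ (mx L cs) (by
    rw [mem_RT_succ, ← hcs]
    exact mx_isHomogeneous cs)
  rw [Ideal.span, Submodule.mem_span_range_iff_exists_fun] at h1
  obtain ⟨c, hc⟩ := h1
  rw [Fin.sum_univ_three] at hc
  simp only [smul_eq_mul] at hc
  change c 0 * f + c 1 * g + c 2 * h = mx L cs at hc
  obtain ⟨u, v, huv⟩ := mem_pair.1 he
  rw [mem_pair]
  refine ⟨c 0 * e + c 2 * u, c 1 * e + c 2 * v, ?_⟩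
  rw [← hc]
  linear_combination c 2 * huv

end depth

section generic

variable {K : Type*} [Field K] [CharZero K]

omit [CharZero K] in
lemma cd_lin (c : Fin 3) : cd (dl K c) (lin tl) = X c := by
  unfold lin
  rw [map_sum]
  have h1 : ∀ i, cd (dl K c) (C (tl i) * X i) = (if c = i then 1 else 0) * X i := by
    intro i
    rw [cd_mul, cd_X, cd_C, dl_tl]
    split_ifs <;> simp
  rw [Finset.sum_congr rfl fun i _ => h1 i]
  simp

/-- The generic linear form is regular modulo an ideal of positive depth defined over `K`. -/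
theorem generic_regular {I : Ideal (MvPolynomial (Fin 3) (FL K))}
    (hD : ∀ c, ∀ p ∈ I, cd (dl K c) p ∈ I)
    (hI : ∀ e, (∀ i, X i * e ∈ I) → e ∈ I) {e : MvPolynomial (Fin 3) (FL K)}
    (he : lin tl * e ∈ I) : e ∈ I := by
  set ℓ : MvPolynomial (Fin 3) (FL K) := lin tl with hℓ
  let T : ℕ → Submodule (MvPolynomial (Fin 3) (FL K)) (MvPolynomial (Fin 3) (FL K)) := fun n =>
    Submodule.comap (LinearMap.mulLeft (MvPolynomial (Fin 3) (FL K)) (ℓ ^ n)) I
  have hT : ∀ n p, p ∈ T n ↔ ℓ ^ n * p ∈ I := fun n p => Iff.rfl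
  have hmono : Monotone T := by
    apply monotone_nat_of_le_succ
    intro n p hp
    rw [hT] at hp ⊢
    rw [pow_succ', mul_assoc]
    exact Ideal.mul_mem_left _ _ hp
  obtain ⟨n0, hn0⟩ := monotone_stabilizes_iff_noetherian.2
    (inferInstance : IsNoetherian (MvPolynomial (Fin 3) (FL K)) (MvPolynomial (Fin 3) (FL K)))
    ⟨T, hmono⟩
  have hn0' : ∀ m, n0 ≤ m → ∀ p, p ∈ T m → p ∈ T n0 := by
    intro m hm p hp
    have := hn0 m hm
    change T n0 = T m at this
    rwa [this]
  have hpowD : ∀ (c : Fin 3) (n : ℕ), cd (dl K c) (ℓ ^ (n + 1)) = ((n : MvPolynomial (Fin 3) (FL K)) + 1) *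
      ℓ ^ n * X c := by
    intro c n
    rw [Derivation.leibniz_pow, hℓ, cd_lin]
    simp only [smul_eq_mul, nsmul_eq_mul, Nat.add_sub_cancel]
    push_cast
    ring
  have hDT : ∀ c, ∀ p ∈ T n0, cd (dl K c) p ∈ T n0 := by
    intro c p hp
    apply hn0' (n0 + 1) (by omega)
    rw [hT] at hp ⊢
    have h1 : ℓ ^ (n0 + 1) * p ∈ I := by
      rw [pow_succ', mul_assoc]
      exact Ideal.mul_mem_left _ _ hp
    have h2 := hD c _ h1
    rw [cd_mul, hpowD] at h2
    have h3 : p * (((n0 : MvPolynomial (Fin 3) (FL K)) + 1) * ℓ ^ n0 * X c) ∈ I := by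
      have : p * (((n0 : MvPolynomial (Fin 3) (FL K)) + 1) * ℓ ^ n0 * X c) =
          (((n0 : MvPolynomial (Fin 3) (FL K)) + 1) * X c) * (ℓ ^ n0 * p) := by ring
      rw [this]
      exact Ideal.mul_mem_left _ _ hp
    have := Ideal.sub_mem _ h2 h3
    rwa [add_sub_cancel_right] at this
  have key : ∀ m ≤ n0, ∀ cs : List (Fin 3), cs.length = m → ∀ p ∈ T n0,
      ℓ ^ (n0 - m) * (mx (FL K) cs * p) ∈ I := by
    intro m
    induction m with
    | zero =>
      intro _ cs hcs p hp
      rw [List.length_eq_zero_iff] at hcs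
      subst hcs
      rw [mx_nil, one_mul]
      exact hp
    | succ m ih =>
      intro hm cs hcs p hp
      cases cs with
      | nil => simp at hcs
      | cons c cs =>
        have hcs' : cs.length = m := by simpa using hcs
        have h1 := ih (by omega) cs hcs' p hp
        have h2 := ih (by omega) cs hcs' _ (hDT c p hp)
        have h3 := hD c _ h1
        rw [show n0 - m = (n0 - (m + 1)) + 1 by omega] at h3 h2
        have h4 : cd (dl K c) (mx (FL K) cs) = 0 := by
          have : mx (FL K) cs = map (algebraMap K (FL K)) (mx K cs) := by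
            unfold mx
            rw [map_list_prod, List.map_map]
            congr 2
            funext i
            simp
          rw [this, cd_map]
        rw [cd_mul, cd_mul, hpowD, h4] at h3
        have h5 : ((((n0 - (m + 1) : ℕ) : MvPolynomial (Fin 3) (FL K)) + 1)) *
            (ℓ ^ (n0 - (m + 1)) * (X c * mx (FL K) cs * p)) ∈ I := by
          have := Ideal.sub_mem _ h3 h2
          convert this using 1
          ring
        have h6 : (((n0 - (m + 1) : ℕ) : FL K) + 1) ≠ 0 := by
          exact_mod_cast Nat.succ_ne_zero (n0 - (m + 1))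
        have h7 := Ideal.mul_mem_left _ (C ((((n0 - (m + 1) : ℕ) : FL K) + 1)⁻¹)) h5
        have h8 : (((n0 - (m + 1) : ℕ) : MvPolynomial (Fin 3) (FL K)) + 1) =
            C (((n0 - (m + 1) : ℕ) : FL K) + 1) := by simp
        rw [h8, ← mul_assoc, ← C_mul, inv_mul_cancel₀ h6, C_1, one_mul] at h7
        rw [mx_cons]
        exact h7
  apply depth_pow hI n0
  intro cs hcs
  have heT : e ∈ T n0 := by
    rcases Nat.eq_zero_or_pos n0 with h0 | h0
    · apply hn0' 1 (by omega)
      rw [hT, pow_one]
      exact he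
    · apply hmono h0
      rw [hT, pow_one]
      exact he
  have := key n0 le_rfl cs hcs e heT
  rwa [Nat.sub_self, pow_zero, one_mul] at this

end generic

end Pool.Agent.H22.SLP
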