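import Pool.Agent.H22.SLP.Abs

/-!
The dual Gordan–Noether argument: the multiplication `ℓ ^ N` from the piece of degree `s - 2`.
-/

set_option autoImplicit false

namespace Pool.Agent.H22.SLP

namespace DS

variable {K : Type*} [Field K] {E : Type*} [CommRing E] [Algebra (FL K) E] [Algebra K E]
variable (S : DS K E) [CharZero K]

/-- The data of the one-dimensional kernel. -/
structure Center (b : Fin 3 → K) (ψ : FL K) : Prop where
  b_ne : b ≠ 0
  ψ_ne : ψ ≠ 0
  deriv : dd (fun i => algebraMap K (FL K) (b i)) ψ = 1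

/-- the constant vector -/
noncomputable def bl (b : Fin 3 → K) : Fin 3 → FL K := fun i => algebraMap K (FL K) (b i)

/-- the kernel vector `t - ψ b` -/
noncomputable def kv (b : Fin 3 → K) (ψ : FL K) : Fin 3 → FL K :=
  fun i => tl i - ψ * algebraMap K (FL K) (b i)

omit [CharZero K] in
lemma vec_kv (b : Fin 3 → K) (ψ : FL K) :
    S.vec (kv b ψ) = S.ell - algebraMap (FL K) E ψ * S.vec (bl b) := by
  unfold ell
  rw [vec_eq, vec_eq, vec_eq]
  simp only [kv, bl, map_sub, map_mul]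
  ring

omit [CharZero K] in
lemma D_bl (b : Fin 3 → K) (c : Fin 3) : S.D c (S.vec (bl b)) = 0 := by
  rw [D_vec, vec_eq]
  simp only [bl, dl_const, map_zero, zero_mul, add_zero]

omit [CharZero K] in
lemma D_kv (b : Fin 3 → K) (ψ : FL K) (c : Fin 3) : S.D c (S.vec (kv b ψ)) =
    S.x c - algebraMap (FL K) E (dl K c ψ) * S.vec (bl b) := by
  rw [vec_kv, map_sub, D_ell, D_mul, D_bl, S.D_alg]
  ring

omit [CharZero K] in
lemma DD_bl_kv {b : Fin 3 → K} {ψ : FL K} (hc : Center b ψ) :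
    S.DD (bl b) (S.vec (kv b ψ)) = 0 := by
  rw [vec_kv, DD_sub, DD_ell, DD_mul, DD_alg, DD_of_D S (S.D_bl b)]
  have : dd (bl b) ψ = 1 := hc.deriv
  rw [this, map_one]
  ring

section step

variable {b : Fin 3 → K} {ψ : FL K} {n M : ℕ} {r w : E}

/-- the sequence `w_j` -/
noncomputable def sq (b : Fin 3 → K) (n : ℕ) (w : E) : ℕ → E
  | 0 => w
  | j + 1 => -(algebraMap (FL K) E (((n + 1 + j : ℕ) : FL K) + 1)⁻¹ * S.DD (bl b) (sq b n w j))

lemma sq_succ (j : ℕ) : ((((n + 1 + j : ℕ) : E) + 1)) * S.sq b n w (j + 1) =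
    - S.DD (bl b) (S.sq b n w j) := by
  have h2 : (((n + 1 + j : ℕ) : FL K) + 1) ≠ 0 := by exact_mod_cast Nat.succ_ne_zero (n + 1 + j)
  have h1 : (((n + 1 + j : ℕ) : E) + 1) * algebraMap (FL K) E (((n + 1 + j : ℕ) : FL K) + 1)⁻¹ = 1 := by
    have h3 : (((n + 1 + j : ℕ) : E) + 1) = algebraMap (FL K) E (((n + 1 + j : ℕ) : FL K) + 1) := by
      simp
    rw [h3, ← map_mul, mul_inv_cancel₀ h2, map_one]
  rw [sq]
  linear_combination (-S.DD (bl b) (S.sq b n w j)) * h1

omit [CharZero K] in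
lemma sq_mem (hw : w ∈ S.G M) (j : ℕ) : S.sq b n w j ∈ S.G M := by
  induction j with
  | zero => exact hw
  | succ j ih =>
    rw [sq]
    exact Submodule.neg_mem _ (S.alg_mul_mem _ (S.DD_mem _ ih))

omit [Algebra K E] in
lemma cast_cancel (F : Type*) [Field F] [CharZero F] [Algebra (FL F) E] {y z : E} (m : ℕ) (h : ((m : E) + 1) * y = ((m : E) + 1) * z) : y = z := by
  obtain ⟨r, hr⟩ := exists_inv (K := F) (E := E) m
  linear_combination (z - y) * hr + algebraMap (FL F) E r * h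

lemma sq_spec (hc : Center b ψ) (hr : ∀ c, S.D c r = 0)
    (h : S.h * S.vec (kv b ψ) * r = S.ell ^ (n + 2) * w) (j : ℕ) :
    S.h * S.vec (kv b ψ) * r * S.vec (bl b) ^ j = S.ell ^ (n + 2 + j) * S.sq b n w j := by
  induction j with
  | zero => rw [pow_zero, mul_one, add_zero]; exact h
  | succ j ih =>
    have hconst : S.DD (bl b) (S.h * S.vec (kv b ψ) * r * S.vec (bl b) ^ j) = 0 := by
      have h1 : S.DD (bl b) (S.vec (bl b)) = 0 := DD_of_D S (S.D_bl b) _
      cases j with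
      | zero =>
        rw [pow_zero, mul_one, DD_mul, DD_mul, DD_h, DD_bl_kv S hc, DD_of_D S hr]
        ring
      | succ j =>
        rw [DD_mul, DD_mul, DD_mul, DD_h, DD_bl_kv S hc, DD_of_D S hr, DD_pow, h1]
        ring
    rw [ih, show n + 2 + j = (n + 1 + j) + 1 by ring, DD_mul, DD_pow, DD_ell] at hconst
    apply cast_cancel K (n + 1 + j)
    have h2 := S.sq_succ (b := b) (n := n) (w := w) j
    rw [show n + 2 + j = n + 1 + j + 1 by ring] at ih
    rw [show n + 2 + (j + 1) = n + 1 + j + 1 + 1 by ring]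
    linear_combination (((n + 1 + j : ℕ) : E) + 1) * S.vec (bl b) * ih -
      (S.ell ^ (n + 1 + j + 1 + 1)) * h2 + S.ell * hconst

lemma sq_rel (hc : Center b ψ) (hr : ∀ c, S.D c r = 0)
    (h : S.h * S.vec (kv b ψ) * r = S.ell ^ (n + 2) * w) (j : ℕ) :
    S.vec (bl b) * S.sq b n w j = S.ell * S.sq b n w (j + 1) := by
  apply S.cancel_pow (n + 2 + j)
  have h1 := S.sq_spec hc hr h j
  have h2 := S.sq_spec hc hr h (j + 1)
  rw [pow_succ, ← mul_assoc, h1] at h2
  linear_combination h2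

lemma sq_rel_pow (hc : Center b ψ) (hr : ∀ c, S.D c r = 0)
    (h : S.h * S.vec (kv b ψ) * r = S.ell ^ (n + 2) * w) (i j : ℕ) :
    S.vec (bl b) ^ j * S.sq b n w i = S.ell ^ j * S.sq b n w (i + j) := by
  induction j with
  | zero => simp
  | succ j ih =>
    have h1 := S.sq_rel hc hr h (i + j)
    rw [pow_succ', mul_assoc, ih, ← add_assoc]
    linear_combination S.ell ^ j * h1

lemma sq_mod (hc : Center b ψ) (hr : ∀ c, S.D c r = 0)
    (h : S.h * S.vec (kv b ψ) * r = S.ell ^ (n + 2) * w) (c : Fin 3) (j : ℕ) :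
    ∃ z, ((n : E) + j + 1) * (S.x c * S.sq b n w j) -
      ((n : E) + j + 3) * (algebraMap (FL K) E ψ * (S.x c * S.sq b n w (j + 1))) = S.ell * z := by
  set w0 := S.sq b n w j with hw0
  set w1 := S.sq b n w (j + 1) with hw1
  set β := S.vec (bl b) with hβ
  set kh := S.vec (kv b ψ) with hkh
  set ps := algebraMap (FL K) E ψ with hps
  refine ⟨-(algebraMap (FL K) E (dl K c ψ) * w1) - S.D c w0 + ps * S.D c w1, ?_⟩
  have e1 : S.h * kh * r * β ^ j = S.ell ^ (n + 2 + j) * w0 := S.sq_spec hc hr h j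
  have e2 : S.h * kh * r * β ^ (j + 1) = S.ell ^ (n + 2 + (j + 1)) * w1 :=
    S.sq_spec hc hr h (j + 1)
  have e3 : β * w0 = S.ell * w1 := S.sq_rel hc hr h j
  have e4 : β * S.D c w0 = S.ell * S.D c w1 + w1 * S.x c := by
    have := congrArg (S.D c) e3
    rw [D_mul, D_mul, D_ell, hβ, D_bl] at this
    rw [hβ]
    linear_combination this
  have e5 : kh = S.ell - ps * β := S.vec_kv b ψ
  have e6 : S.h * r * β ^ j * (S.x c - algebraMap (FL K) E (dl K c ψ) * β) =
      ((n : E) + j + 2) * S.ell ^ (n + 1 + j) * S.x c * w0 + S.ell ^ (n + 2 + j) * S.D c w0 := by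
    have h1 := congrArg (S.D c) e1
    have h2 : S.D c (S.h * kh * r * β ^ j) = S.h * r * β ^ j * S.D c kh := by
      cases j with
      | zero =>
        rw [pow_zero, D_mul, D_mul, D_mul, hr, S.D_h]
        simp
        ring
      | succ j =>
        rw [D_mul, D_mul, D_mul, D_pow, hr, S.D_h, hβ, D_bl]
        ring
    rw [h2, hkh, D_kv, show n + 2 + j = n + 1 + j + 1 by ring, D_mul, D_pow, D_ell] at h1
    rw [show n + 2 + j = n + 1 + j + 1 by ring]
    push_cast at h1
    linear_combination h1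
  apply S.cancel_pow (n + 2 + j)
  have e7 : S.ell ^ (n + 2 + j) = S.ell ^ (n + 1 + j) * S.ell := by
    rw [← pow_succ]; congr 1 <;> omega
  have e8 : S.ell ^ (n + 2 + (j + 1)) = S.ell ^ (n + 1 + j) * S.ell * S.ell := by
    rw [← pow_succ, ← pow_succ]; congr 1; ring
  rw [e8] at e2
  rw [e7] at e1 e6 ⊢
  rw [pow_succ] at e2
  set P := S.ell ^ (n + 1 + j) with hP
  -- combine
  have e9 : kh * w0 = S.ell * w0 - ps * (S.ell * w1) := by
    linear_combination w0 * e5 - ps * e3
  have e10 : kh * S.D c w0 = S.ell * S.D c w0 - ps * (S.ell * S.D c w1 + w1 * S.x c) := by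
    linear_combination (S.D c w0) * e5 - ps * e4
  linear_combination (-kh) * e6 + S.x c * e1 - algebraMap (FL K) E (dl K c ψ) * e2 -
    ((n : E) + j + 2) * P * S.x c * e9 - P * S.ell * e10

end step

end DS

end Pool.Agent.H22.SLP
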