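import Pool.Agent.H22.SLP.Dual

/-!
The dual Gordan–Noether argument, second part.
-/

set_option autoImplicit false

namespace Pool.Agent.H22.SLP

namespace DS

variable {K : Type*} [Field K] {E : Type*} [CommRing E] [Algebra (FL K) E] [Algebra K E]
variable (S : DS K E)

/-- A sequence in a finite-dimensional piece satisfies a linear relation. -/
lemma exists_dep {M : ℕ} (w : ℕ → E) (hw : ∀ i, w i ∈ S.G M) :
    ∃ (d : ℕ) (p : ℕ → FL K), (∃ i ≤ d, p i ≠ 0) ∧
      ∑ i ∈ Finset.range (d + 1), algebraMap (FL K) E (p i) * w i = 0 := by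
  have hfin := S.fin M
  set d := Module.finrank (FL K) (S.G M) with hd
  let v : Fin (d + 1) → S.G M := fun i => ⟨w i, hw i⟩
  have hv : ¬ LinearIndependent (FL K) v := by
    intro h
    have := h.fintype_card_le_finrank
    rw [Fintype.card_fin] at this
    omega
  rw [Fintype.not_linearIndependent_iff] at hv
  obtain ⟨g, hg, i, hi⟩ := hv
  refine ⟨d, fun j => if h : j < d + 1 then g ⟨j, h⟩ else 0, ⟨i, by omega, ?_⟩, ?_⟩
  · change (if h : (i : ℕ) < d + 1 then g ⟨i, h⟩ else 0) ≠ 0
    rw [dif_pos i.2]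
    exact hi
  · rw [Finset.sum_range]
    have h1 := congrArg (fun y : S.G M => (y : E)) hg
    simp only [Submodule.coe_sum, Submodule.coe_smul, Submodule.coe_zero] at h1
    rw [← h1]
    apply Finset.sum_congr rfl
    intro j _
    simp only [Fin.is_lt, dite_true, Fin.eta]
    rw [Algebra.smul_def]

variable [CharZero K]

variable {b : Fin 3 → K} {ψ : FL K} {n M : ℕ} {r w : E}

/-- The key step: multiplication of the quotient by a variable is divisible by `ℓ`. -/
theorem step (hc : Center b ψ) (hr : ∀ c, S.D c r = 0) (hw : w ∈ S.G M)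
    (h : S.h * S.vec (kv b ψ) * r = S.ell ^ (n + 2) * w) (c : Fin 3) :
    ∃ z, S.x c * w = S.ell * z := by
  obtain ⟨d, p, ⟨i0, hi0, hp⟩, hsum⟩ := S.exists_dep (S.sq b n w) (fun i => S.sq_mem hw i)
  -- shifted relations
  have hshift : ∀ j, ∑ i ∈ Finset.range (d + 1),
      algebraMap (FL K) E (p i) * S.sq b n w (i + j) = 0 := by
    intro j
    apply S.nzd_pow j
    have h1 := congrArg (fun y => S.vec (bl b) ^ j * y) hsum
    simp only [mul_zero] at h1
    rw [← h1, Finset.mul_sum, Finset.mul_sum]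
    apply Finset.sum_congr rfl
    intro i _
    have h2 := S.sq_rel_pow hc hr h i j
    linear_combination (-algebraMap (FL K) E (p i)) * h2
  set I : Ideal E := Ideal.span {S.ell} with hI
  set π := Ideal.Quotient.mk I with hπ
  set z : ℕ → E ⧸ I := fun j => π (S.x c * S.sq b n w j) with hz
  have hpi : ∀ y, π (S.ell * y) = 0 := by
    intro y
    rw [hπ, Ideal.Quotient.eq_zero_iff_mem, hI]
    exact Ideal.mul_mem_right _ _ (Ideal.mem_span_singleton_self _)
  have halg : ∀ a : FL K, ∀ y : E, π (algebraMap (FL K) E a * y) = a • π y := by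
    intro a y
    rw [Algebra.smul_def, map_mul]
    rfl
  have hrel : ∀ j : ℕ, ((n : FL K) + j + 1) • z j = (((n : FL K) + j + 3) * ψ) • z (j + 1) := by
    intro j
    obtain ⟨y, hy⟩ := S.sq_mod hc hr h c j
    have h1 := congrArg π hy
    rw [hpi, map_sub, sub_eq_zero] at h1
    have h2 : ((n : E) + j + 1) = algebraMap (FL K) E ((n : FL K) + j + 1) := by simp
    have h3 : ((n : E) + j + 3) = algebraMap (FL K) E ((n : FL K) + j + 3) := by
      simp [map_ofNat]
    rw [h2, h3, halg, halg, halg, smul_smul] at h1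
    exact h1
  -- normalised sequence
  have hZ : ∀ j : ℕ, (ψ ^ j * (((n + j + 1 : ℕ) : FL K) * ((n + j + 2 : ℕ) : FL K))) • z j =
      (((n + 1 : ℕ) : FL K) * ((n + 2 : ℕ) : FL K)) • z 0 := by
    intro j
    induction j with
    | zero => simp
    | succ j ih =>
      rw [← ih]
      have h1 : (ψ ^ (j + 1) * (((n + (j + 1) + 1 : ℕ) : FL K) * ((n + (j + 1) + 2 : ℕ) : FL K))) •
          z (j + 1) = (ψ ^ j * ((n + j + 2 : ℕ) : FL K)) •
            ((((n : FL K) + j + 3) * ψ) • z (j + 1)) := by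
        rw [smul_smul]
        congr 1
        push_cast
        ring
      rw [h1, ← hrel, smul_smul]
      congr 1
      push_cast
      ring
  have hz' : ∀ j : ℕ, z j = ((ψ ^ j)⁻¹ / (((n + j + 1 : ℕ) : FL K) * ((n + j + 2 : ℕ) : FL K))) •
      ((((n + 1 : ℕ) : FL K) * ((n + 2 : ℕ) : FL K)) • z 0) := by
    intro j
    rw [← hZ j, smul_smul]
    have e1 : ((n + j + 1 : ℕ) : FL K) ≠ 0 := Nat.cast_ne_zero.2 (by omega)
    have e2 : ((n + j + 2 : ℕ) : FL K) ≠ 0 := Nat.cast_ne_zero.2 (by omega)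
    have e3 : ψ ^ j ≠ 0 := pow_ne_zero _ hc.ψ_ne
    have e4 : (ψ ^ j)⁻¹ / (((n + j + 1 : ℕ) : FL K) * ((n + j + 2 : ℕ) : FL K)) *
        (ψ ^ j * (((n + j + 1 : ℕ) : FL K) * ((n + j + 2 : ℕ) : FL K))) = 1 := by
      field_simp
    rw [e4, one_smul]
  set Z := (((n + 1 : ℕ) : FL K) * ((n + 2 : ℕ) : FL K)) • z 0 with hZdef
  have hZ0 : Z = 0 := by
    by_contra hne
    have hrec := no_recurrence (F := FL K) (d := d) (n := n) (q := fun i => p i * (ψ ^ i)⁻¹) (by
      intro j
      have h1 := congrArg (fun y => π (S.x c * y)) (hshift j)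
      simp only [mul_zero, map_zero] at h1
      rw [Finset.mul_sum, map_sum] at h1
      have h2 : ∀ i ∈ Finset.range (d + 1),
          π (S.x c * (algebraMap (FL K) E (p i) * S.sq b n w (i + j))) =
          ((ψ ^ j)⁻¹ * (p i * (ψ ^ i)⁻¹ /
            (((n + i + j + 1 : ℕ) : FL K) * ((n + i + j + 2 : ℕ) : FL K)))) • Z := by
        intro i _
        have h3 : S.x c * (algebraMap (FL K) E (p i) * S.sq b n w (i + j)) =
            algebraMap (FL K) E (p i) * (S.x c * S.sq b n w (i + j)) := by ring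
        rw [h3, halg]
        change p i • z (i + j) = _
        rw [hz' (i + j), smul_smul]
        congr 1
        rw [pow_add, ← add_assoc]
        field_simp
      rw [Finset.sum_congr rfl h2, ← Finset.sum_smul, ← Finset.mul_sum] at h1
      rcases smul_eq_zero.1 h1 with h4 | h4
      · rcases mul_eq_zero.1 h4 with h5 | h5
        · exact absurd h5 (inv_ne_zero (pow_ne_zero _ hc.ψ_ne))
        · exact h5
      · exact absurd h4 hne)
    have h1 := hrec i0 hi0
    rcases mul_eq_zero.1 h1 with h2 | h2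
    · exact hp h2
    · exact inv_ne_zero (pow_ne_zero _ hc.ψ_ne) h2
  have hz0 : z 0 = 0 := by
    rw [hZdef] at hZ0
    rcases smul_eq_zero.1 hZ0 with h1 | h1
    · exfalso
      have e1 : ((n + 1 : ℕ) : FL K) ≠ 0 := Nat.cast_ne_zero.2 (by omega)
      have e2 : ((n + 2 : ℕ) : FL K) ≠ 0 := Nat.cast_ne_zero.2 (by omega)
      exact mul_ne_zero e1 e2 h1
    · exact h1
  have h1 : S.x c * w ∈ I := by
    rw [← Ideal.Quotient.eq_zero_iff_mem]
    exact hz0
  rw [hI, Ideal.mem_span_singleton'] at h1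
  obtain ⟨y, hy⟩ := h1
  exact ⟨y, by rw [← hy]; ring⟩

omit [CharZero K] in
lemma D_prod (cs : List (Fin 3)) (c : Fin 3) : S.D c ((cs.map S.x).prod) = 0 := by
  induction cs with
  | nil => simp
  | cons a cs ih => rw [List.map_cons, List.prod_cons, D_mul, ih, S.D_x]; ring

/-- all products with monomials are divisible -/
lemma walk (hc : Center b ψ) (hw : w ∈ S.G M)
    (h : S.h * S.vec (kv b ψ) = S.ell ^ (n + 2) * w) (cs : List (Fin 3)) :
    ∃ w' ∈ S.G M, S.h * S.vec (kv b ψ) * (cs.map S.x).prod =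
      S.ell ^ (n + cs.length + 2) * w' := by
  induction cs with
  | nil => exact ⟨w, hw, by simpa using h⟩
  | cons c cs ih =>
    obtain ⟨w', hw', h'⟩ := ih
    obtain ⟨z, hz⟩ := S.step hc (S.D_prod cs) hw' h' c
    refine ⟨z, ?_, ?_⟩
    · apply S.div'
      rw [← hz]
      exact S.x_mul M c w' hw'
    · rw [List.map_cons, List.prod_cons, List.length_cons]
      have h1 : S.ell ^ (n + (cs.length + 1) + 2) = S.ell ^ (n + cs.length + 2) * S.ell := by
        rw [← pow_succ]; congr 1 <;> omega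
      rw [h1]
      linear_combination S.x c * h' + S.ell ^ (n + cs.length + 2) * hz

/-- The centre cannot exist in the dual situation. -/
theorem no_center (hc : Center b ψ) (hM : M ≤ S.s) (hw : w ∈ S.G M)
    (h : S.h * S.vec (kv b ψ) = S.ell ^ (n + 2) * w) : S.vec (kv b ψ) = 0 := by
  have key : ∀ q ≤ M, ∀ cs : List (Fin 3), ∃ w' ∈ S.G (M - q),
      S.h * S.vec (kv b ψ) * (cs.map S.x).prod = S.ell ^ (n + cs.length + 2 + q) * w' := by
    intro q
    induction q with
    | zero => intro _ cs; exact S.walk hc hw h cs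
    | succ q ih =>
      intro hq cs
      obtain ⟨w', hw', h'⟩ := ih (by omega) cs
      have h1 : ∀ c, ∃ z, S.x c * w' = S.ell * z := by
        intro c
        obtain ⟨w'', -, h''⟩ := ih (by omega) (c :: cs)
        refine ⟨w'', ?_⟩
        apply S.cancel_pow (n + cs.length + 2 + q)
        rw [List.map_cons, List.prod_cons, List.length_cons] at h''
        have h2 : S.ell ^ (n + (cs.length + 1) + 2 + q) =
            S.ell ^ (n + cs.length + 2 + q) * S.ell := by
          rw [← pow_succ]; congr 1 <;> omega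
        rw [h2] at h''
        linear_combination h'' - S.x c * h'
      obtain ⟨z, hz, hwz⟩ := S.soc' (by omega) hw' h1
      refine ⟨z, ?_, ?_⟩
      · rwa [show M - (q + 1) = M - q - 1 by omega]
      · rw [h', hwz, show n + cs.length + 2 + (q + 1) = (n + cs.length + 2 + q) + 1 by ring,
          pow_succ, mul_assoc]
  obtain ⟨w', hw', h'⟩ := key M le_rfl []
  rw [Nat.sub_self] at hw'
  rw [S.G_zero w' hw', mul_zero, List.map_nil, List.prod_nil, mul_one] at h'
  exact S.h_nzd _ h'

/-- The dual kernel. -/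
def dualSub (n : ℕ) : Submodule (FL K) (Fin 3 → FL K) where
  carrier := {k | ∃ w ∈ S.G (S.s - 1), S.h * S.vec k = S.ell ^ (n + 2) * w}
  zero_mem' := ⟨0, Submodule.zero_mem _, by rw [vec_eq]; simp⟩
  add_mem' := by
    rintro k k' ⟨w, hw, h⟩ ⟨w', hw', h'⟩
    refine ⟨w + w', Submodule.add_mem _ hw hw', ?_⟩
    have : S.vec (k + k') = S.vec k + S.vec k' := by
      rw [vec_eq, vec_eq, vec_eq]
      simp only [Pi.add_apply, map_add]
      ring
    rw [this]
    linear_combination h + h'
  smul_mem' := by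
    rintro a k ⟨w, hw, h⟩
    refine ⟨algebraMap (FL K) E a * w, S.alg_mul_mem _ hw, ?_⟩
    have : S.vec (a • k) = algebraMap (FL K) E a * S.vec k := by
      rw [vec_eq, vec_eq]
      simp only [Pi.smul_apply, smul_eq_mul, map_mul]
      ring
    rw [this]
    linear_combination algebraMap (FL K) E a * h

omit [CharZero K] in
lemma vec_tl : S.vec tl = S.ell := rfl

omit [CharZero K] in
lemma vec_zero' {k : Fin 3 → FL K} (h : S.vec k = 0) : k = 0 := S.vec_inj k h

omit [CharZero K] in
lemma vec_mem (k : Fin 3 → FL K) : S.vec k ∈ S.G 2 := by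
  have := S.vec_mul_mem k S.one_mem
  rwa [mul_one] at this

theorem dual_stable (hs : 1 ≤ S.s) (hne : S.h ≠ 0) (n : ℕ) : Stable (S.dualSub n) where
  self := by
    rintro k ⟨w, hw, h⟩ k' ⟨w', hw', h'⟩
    have h1 : ∀ c, ∃ z, S.x c * (w' * S.vec k) = S.ell * z :=
      S.cross (n := n + 1) h'.symm h.symm
    have h2 : w' * S.vec k ∈ S.G S.s := by
      have := S.vec_mul_mem k hw'
      rw [mul_comm]
      rwa [show S.s - 1 + 1 = S.s by omega] at this
    obtain ⟨v, hv, hvw⟩ := S.soc' le_rfl h2 h1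
    have h3 := congrArg (S.DD k) h'
    rw [DD_mul, DD_mul, DD_h, DD_vec, show n + 2 = (n + 1) + 1 by ring, DD_pow, DD_ell] at h3
    refine ⟨(((n + 1 : ℕ) : E) + 1) * v + S.DD k w', ?_, ?_⟩
    · apply Submodule.add_mem _ _ (S.DD_mem _ hw')
      have h4 : (((n + 1 : ℕ) : E) + 1) = algebraMap (FL K) E (((n + 1 : ℕ) : FL K) + 1) := by
        simp
      rw [h4]
      exact S.alg_mul_mem _ hv
    · rw [show n + 2 = (n + 1) + 1 by ring]
      linear_combination h3 + (((n + 1 : ℕ) : E) + 1) * S.ell ^ (n + 1) * hvw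
  euler := by
    rintro k ⟨w, hw, h⟩
    have h3 := congrArg (S.DD tl) h
    rw [DD_mul, DD_mul, DD_h, DD_vec, show n + 2 = (n + 1) + 1 by ring, DD_pow, DD_ell,
      vec_tl] at h3
    refine ⟨(((n + 1 : ℕ) : E) + 1) * w + S.DD tl w, ?_, ?_⟩
    · apply Submodule.add_mem _ _ (S.DD_mem _ hw)
      have h4 : (((n + 1 : ℕ) : E) + 1) = algebraMap (FL K) E (((n + 1 : ℕ) : FL K) + 1) := by
        simp
      rw [h4]
      exact S.alg_mul_mem _ hw
    · rw [show n + 2 = (n + 1) + 1 by ring]
      linear_combination h3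
  tl_notMem := by
    rintro ⟨w, hw, h⟩
    rw [vec_tl] at h
    apply hne
    apply S.const_zero (m := S.s - 1) (by omega) (n := n) S.D_h hw
    apply S.cancel_pow 1
    rw [pow_one]
    linear_combination h
  const := by
    rintro k ⟨w, hw, h⟩ hk
    have h1 : ∀ c, S.D c (S.h * S.vec k) = 0 := by
      intro c
      rw [D_mul, S.D_h, D_vec, vec_eq]
      simp only [hk, map_zero]
      ring
    have h2 := S.const_zero (m := S.s - 1) (by omega) (n := n + 1) h1 hw h
    exact S.vec_zero' (S.h_nzd _ h2)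

theorem dual_main (hs : 1 ≤ S.s) (hne : S.h ≠ 0) {n : ℕ} {k : Fin 3 → FL K} {w : E}
    (hw : w ∈ S.G (S.s - 1)) (h : S.h * S.vec k = S.ell ^ (n + 2) * w) : k = 0 := by
  by_contra hk
  have hV : S.dualSub n ≠ ⊥ := by
    intro h0
    apply hk
    have : k ∈ S.dualSub n := ⟨w, hw, h⟩
    rw [h0] at this
    exact (Submodule.mem_bot _).1 this
  obtain ⟨b, ψ, hb, hψ, ⟨w', hw', h'⟩, hd⟩ := (S.dual_stable hs hne n).exists_center hV
  have hc : Center b ψ := ⟨hb, hψ, hd⟩
  have h1 := S.vec_zero' (S.no_center hc (by omega) hw' h')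
  -- `t = ψ b` is impossible
  have h2 : ∀ c, S.x c = algebraMap (FL K) E (dl K c ψ) * S.vec (bl b) := by
    intro c
    have h3 := S.D_kv b ψ c
    rw [h1, vec_eq] at h3
    simp only [Pi.zero_apply, map_zero, zero_mul, add_zero] at h3
    linear_combination -h3
  have h4 : ∀ c d : Fin 3, dl K d ψ * (Pi.single c (1 : FL K) : Fin 3 → FL K) d =
      dl K c ψ * (Pi.single d (1 : FL K) : Fin 3 → FL K) d := by
    intro c d
    have h5 : S.vec (dl K d ψ • (Pi.single c 1 : Fin 3 → FL K) -
        dl K c ψ • (Pi.single d 1 : Fin 3 → FL K)) = 0 := by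
      have h6 : ∀ a : FL K, ∀ e : Fin 3, S.vec (a • (Pi.single e 1 : Fin 3 → FL K)) =
          algebraMap (FL K) E a * S.x e := by
        intro a e
        rw [vec_eq]
        fin_cases e <;> simp
      have h7 : ∀ u v : Fin 3 → FL K, S.vec (u - v) = S.vec u - S.vec v := by
        intro u v
        rw [vec_eq, vec_eq, vec_eq]
        simp only [Pi.sub_apply, map_sub]
        ring
      rw [h7, h6, h6, h2 c, h2 d]
      ring
    have h8 := congrFun (S.vec_zero' h5) d
    simp only [Pi.sub_apply, Pi.smul_apply, smul_eq_mul, Pi.zero_apply, sub_eq_zero] at h8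
    exact h8
  have h9 : ∀ c, dl K c ψ = 0 := by
    intro c
    have h10 := h4 c (c + 1)
    have hne' : c + 1 ≠ c := by fin_cases c <;> decide
    rw [Pi.single_eq_of_ne hne', Pi.single_eq_same, mul_zero, mul_one] at h10
    exact h10.symm
  have h11 : dd (fun i => algebraMap K (FL K) (b i)) ψ = 0 := by
    unfold dd
    simp only [h9, mul_zero, add_zero]
  rw [hd] at h11
  exact one_ne_zero h11

end DS

end Pool.Agent.H22.SLP
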