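import Pool.Agent.H22.SLP.Primal

/-!
Injectivity of the powers of the generic linear form, abstract version.
-/

set_option autoImplicit false

namespace Pool.Agent.H22.SLP

namespace DS

variable {K : Type*} [Field K] {E : Type*} [CommRing E] [Algebra (FL K) E] [Algebra K E]
variable (S : DS K E)

/-- The socle of the quotient by `h`. -/
lemma socA_of {c D : ℕ} (hD : D + 1 = S.s + c) (h_div : ∀ m y, S.h * y ∈ S.G m → y ∈ S.G (m - c)) :
    ∀ m ≤ D, ∀ y ∈ S.G m, (∀ b, ∃ u, S.x b * y = S.h * u) → ∃ u, y = S.h * u := by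
  intro m hm y hy h
  choose u hu using h
  set v : E := ∑ b, algebraMap (FL K) E (tl b) * u b with hv
  have h1 : S.ell * y = S.h * v := by
    unfold ell vec
    rw [Finset.sum_mul, hv, Finset.mul_sum]
    apply Finset.sum_congr rfl
    intro b _
    linear_combination algebraMap (FL K) E (tl b) * hu b
  have h2 : v ∈ S.G (m + 1 - c) := by
    apply h_div
    rw [← h1]
    have := S.vec_mul_mem tl hy
    rwa [vec_tl] at this
  have h3 : ∀ b, ∃ z, S.x b * v = S.ell * z := by
    intro b
    refine ⟨u b, ?_⟩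
    apply S.h_cancel
    linear_combination (-S.x b) * h1 + S.ell * hu b
  obtain ⟨z, -, hz⟩ := S.soc' (by omega) h2 h3
  refine ⟨z, ?_⟩
  apply S.cancel_pow 1
  rw [pow_one, h1, hz]
  ring

lemma ell_pow_mul_mem {m : ℕ} {y : E} (hy : y ∈ S.G m) (j : ℕ) : S.ell ^ j * y ∈ S.G (m + j) := by
  induction j with
  | zero => simpa using hy
  | succ j ih =>
    have := S.vec_mul_mem tl ih
    rw [vec_tl] at this
    rw [pow_succ', mul_assoc, ← add_assoc]
    exact this

variable {S} [CharZero K]

theorem Good.inj {c D : ℕ} (hG : S.Good c D) (hsc : S.s ≤ c + 1) {i : ℕ} (hi : 2 * i ≤ D)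
    (hi' : i ≤ 1 ∨ S.s ≤ i + 2) {y : E} (hy : y ∈ S.G (i + 1))
    (h : ∃ u, S.ell ^ (D - 2 * i) * y = S.h * u) : ∃ u, y = S.h * u := by
  have hD := hG.hD
  have hs := hG.hs
  have hc := hG.hc
  obtain ⟨u, hu⟩ := h
  by_cases h0 : i = 0
  · subst h0
    obtain ⟨r, hr⟩ := S.G_one y hy
    by_cases hr0 : r = 0
    · exact ⟨0, by rw [hr, hr0]; simp⟩
    · exfalso
      obtain ⟨cs, hcs, hcs'⟩ := hG.top
      apply hcs'
      have h1 : algebraMap (FL K) E r⁻¹ * y = 1 := by
        rw [hr, ← map_mul, inv_mul_cancel₀ hr0, map_one]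
      obtain ⟨u', hu'⟩ := S.mono0 D 1 (fun c => Derivation.map_one_eq_zero _)
        ⟨algebraMap (FL K) E r⁻¹ * u, by
          rw [mul_zero, Nat.sub_zero] at hu
          linear_combination algebraMap (FL K) E r⁻¹ * hu - S.ell ^ D * h1⟩ cs hcs
      exact ⟨u', by rw [← hu', mul_one]⟩
  by_cases h1 : i = 1
  · subst h1
    obtain ⟨k, hk⟩ := S.G_two y hy
    have hk' : y = S.vec k := hk
    have h2 : k = 0 := by
      apply hG.prim_main (n := D - 3) (by omega) (u := u)
      rw [← hk', show D - 3 + 1 = D - 2 * 1 by omega]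
      exact hu
    refine ⟨0, ?_⟩
    rw [hk', h2, vec_eq]
    simp
  -- degree of `u`
  have hui : u ∈ S.G (S.s - i) := by
    have h2 := S.ell_pow_mul_mem hy (D - 2 * i)
    rw [hu] at h2
    have h3 := hG.h_div _ _ h2
    rwa [show i + 1 + (D - 2 * i) - c = S.s - i by omega] at h3
  have hzero : u = 0 → ∃ u, y = S.h * u := by
    intro hu0
    rw [hu0, mul_zero] at hu
    exact ⟨0, by rw [S.nzd_pow _ _ hu, mul_zero]⟩
  rcases hi' with hi' | hi'
  · omega
  by_cases h2 : i = S.s - 2
  · rw [show S.s - i = 2 by omega] at hui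
    obtain ⟨k, hk⟩ := S.G_two u hui
    have hk' : u = S.vec k := hk
    have hne : S.h ≠ 0 := by
      intro h3
      obtain ⟨cs, hcs, hcs'⟩ := hG.top
      apply hcs'
      have h4 : (1 : E) = 0 := by
        apply S.h_nzd
        rw [h3]; ring
      exact ⟨0, by rw [← mul_one (cs.map S.x).prod, h4]; ring⟩
    have h3 : k = 0 := by
      apply S.dual_main (by omega) hne (n := D - 2 * i - 2) (w := y)
      · rwa [show i + 1 = S.s - 1 by omega] at hy
      · rw [← hk', show D - 2 * i - 2 + 2 = D - 2 * i by omega]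
        exact hu.symm
    apply hzero
    rw [hk', h3, vec_eq]
    simp
  by_cases h3 : i = S.s - 1
  · rw [show S.s - i = 1 by omega] at hui
    obtain ⟨r, hr⟩ := S.G_one u hui
    by_cases hr0 : r = 0
    · apply hzero
      rw [hr, hr0, map_zero]
    · rcases Nat.eq_zero_or_pos (D - 2 * i) with h4 | h4
      · rw [h4, pow_zero, one_mul] at hu
        exact ⟨u, hu⟩
      · exfalso
        have h5 : algebraMap (FL K) E r⁻¹ * u = 1 := by
          rw [hr, ← map_mul, inv_mul_cancel₀ hr0, map_one]
        have h6 : S.h = 0 := by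
          apply S.const_zero (m := S.s) le_rfl (n := D - 2 * i - 1)
            (w := algebraMap (FL K) E r⁻¹ * y) S.D_h
          · apply S.alg_mul_mem
            rwa [show i + 1 = S.s by omega] at hy
          · rw [show D - 2 * i - 1 + 1 = D - 2 * i by omega]
            linear_combination (-algebraMap (FL K) E r⁻¹) * hu - S.h * h5
        obtain ⟨cs, hcs, hcs'⟩ := hG.top
        apply hcs'
        have h4 : (1 : E) = 0 := by
          apply S.h_nzd
          rw [h6]; ring
        exact ⟨0, by rw [← mul_one (cs.map S.x).prod, h4]; ring⟩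
  · apply hzero
    rw [show S.s - i = 0 by omega] at hui
    exact S.G_zero u hui

end DS

end Pool.Agent.H22.SLP
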