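import Pool.Agent.H22.SLP.Asm2
import Pool.Agent.H22.SLP.Asm3

/-!
Maximal rank for complete intersections in three variables.
-/

set_option autoImplicit false

open MvPolynomial

namespace Pool.Agent.H22.SLP

open Pool.Agent.H4.Ternary Pool.Agent.H4.Apolar Pool.Agent.H4.Conic Pool.Agent.H4.Descent

theorem main {K : Type*} [Field K] [CharZero K] (f : Fin 3 → MvPolynomial (Fin 3) K) (a b c : ℕ)
    (ha : 2 ≤ a) (hb : 2 ≤ b) (hc : 2 ≤ c) (habc : a + b ≤ c + 3)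
    (h0 : (f 0).IsHomogeneous a) (h1 : (f 1).IsHomogeneous b) (h2 : (f 2).IsHomogeneous c)
    (hfin : FiniteDimensional K (MvPolynomial (Fin 3) K ⧸ Ideal.span (Set.range f))) :
    ∃ ℓ : MvPolynomial (Fin 3) K, ℓ.IsHomogeneous 1 ∧ ∀ i k : ℕ,
      (i ≤ 1 ∨ a + b + c ≤ i + k + 4 ∨ k + a + b ≤ c + 5 ∨ (a + b ≤ i + 4 ∧ i + k ≤ c + 1)) →
      (∀ g ∈ homogeneousSubmodule (Fin 3) K i,
        ℓ ^ k * g ∈ Ideal.span (Set.range f) → g ∈ Ideal.span (Set.range f)) ∨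
      (∀ h ∈ homogeneousSubmodule (Fin 3) K (i + k),
        ∃ g ∈ homogeneousSubmodule (Fin 3) K i, h - ℓ ^ k * g ∈ Ideal.span (Set.range f)) := by
  have hf : f = ![f 0, f 1, f 2] := by
    ext1 i
    fin_cases i <;> rfl
  obtain ⟨J, hJ⟩ := exists_J (f := f) (d := ![a, b, c]) (by
    intro i
    fin_cases i
    · exact h0
    · exact h1
    · exact h2) hfin
  have H : CI (f 0) (f 1) (f 2) a b c := ⟨h0, h1, h2, ha, hb, hc, J, by rwa [← hf]⟩
  apply descentP (L := FL K) hJ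
  have hI : Ideal.span (Set.range fun i => map (algebraMap K (FL K)) (f i)) =
      I3 (f 0) (f 1) (f 2) := by
    rw [I3, ← range_mp, ← hf]
  rw [hI]
  have hL : Lef (I3 (f 0) (f 1) (f 2)) (a + b + c - 3) :=
    ⟨fun m hm p hp hX => H.soc hm hp hX, H.dim_one, fun m hm p hp => H.vanish hm hp⟩
  refine ⟨lin tl, lin_isHomogeneous _, ?_⟩
  exact hL.range ha hb hc habc (lin_isHomogeneous _)
    (fun i hi hi' p hp hpI => H.inj habc hi hi' hp hpI)

end Pool.Agent.H22.SLP
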