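import Mathlib

/-!
Families of planes in three-space: a polynomial family of covectors `A` which is constant in
direction along its own planes, consists of covectors orthogonal to a fixed vector.
-/

set_option autoImplicit false

open MvPolynomial

namespace Pool.Agent.H22.SLP

section ode

variable {K : Type*} [Field K] [CharZero K]

/-- A polynomial solution of a regular homogeneous linear equation vanishing at `0` is zero. -/
lemma ode_zero {q r m : Polynomial K} (hq : q.eval 0 ≠ 0) (hr : r.eval 0 = 0)
    (h : q * Polynomial.derivative r = m * r) : r = 0 := by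
  by_contra hr0
  obtain ⟨s, hs, hs2⟩ := Polynomial.exists_eq_pow_rootMultiplicity_mul_and_not_dvd r hr0 0
  set k := r.rootMultiplicity 0 with hk
  have hk1 : 1 ≤ k := by
    rw [hk, Nat.one_le_iff_ne_zero]
    intro h0
    have := Polynomial.rootMultiplicity_pos hr0 |>.2 (show Polynomial.IsRoot r 0 from hr)
    omega
  obtain ⟨j, hj⟩ : ∃ j, k = j + 1 := ⟨k - 1, by omega⟩
  rw [hj, map_zero, sub_zero] at hs
  rw [map_zero, sub_zero, Polynomial.X_dvd_iff] at hs2
  have h1 : Polynomial.derivative r =
      Polynomial.X ^ j * (((j + 1 : ℕ) : Polynomial K) * s +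
        Polynomial.X * Polynomial.derivative s) := by
    rw [hs, Polynomial.derivative_mul, Polynomial.derivative_X_pow]
    simp only [Nat.add_sub_cancel, map_natCast]
    ring
  rw [h1] at h
  have h2 : Polynomial.X ^ j * (q * (((j + 1 : ℕ) : Polynomial K) * s +
        Polynomial.X * Polynomial.derivative s)) = Polynomial.X ^ j * (Polynomial.X * (m * s)) := by
    have h3 : m * r = Polynomial.X ^ j * (Polynomial.X * (m * s)) := by
      rw [hs]; ring
    rw [← h3, ← h]; ring
  have h4 := mul_left_cancel₀ (pow_ne_zero j Polynomial.X_ne_zero) h2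
  have h5 := congrArg (Polynomial.eval 0) h4
  simp only [Polynomial.eval_mul, Polynomial.eval_add, Polynomial.eval_X, zero_mul, add_zero,
    Polynomial.eval_natCast] at h5
  rcases mul_eq_zero.1 h5 with h6 | h6
  · exact hq h6
  · rcases mul_eq_zero.1 h6 with h7 | h7
    · exact (Nat.cast_ne_zero.2 (Nat.succ_ne_zero j)) h7
    · rw [← Polynomial.coeff_zero_eq_eval_zero] at h7
      exact hs2 h7

end ode

section cross

variable {R : Type*} [CommRing R]

/-- the cross product -/
def cr (a b : Fin 3 → R) : Fin 3 → R :=
  ![a 1 * b 2 - a 2 * b 1, a 2 * b 0 - a 0 * b 2, a 0 * b 1 - a 1 * b 0]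

lemma cr_zero (a b : Fin 3 → R) : cr a b 0 = a 1 * b 2 - a 2 * b 1 := rfl
lemma cr_one (a b : Fin 3 → R) : cr a b 1 = a 2 * b 0 - a 0 * b 2 := rfl
lemma cr_two (a b : Fin 3 → R) : cr a b 2 = a 0 * b 1 - a 1 * b 0 := rfl

/-- the scalar product -/
def dt (a b : Fin 3 → R) : R := a 0 * b 0 + a 1 * b 1 + a 2 * b 2

lemma cr_eq_zero_iff {a b : Fin 3 → R} : cr a b = 0 ↔ ∀ i j, a i * b j = a j * b i := by
  constructor
  · intro h i j
    have h0 := congrFun h 0
    have h1 := congrFun h 1
    have h2 := congrFun h 2
    rw [cr_zero, Pi.zero_apply] at h0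
    rw [cr_one, Pi.zero_apply] at h1
    rw [cr_two, Pi.zero_apply] at h2
    have e01 : a 0 * b 1 = a 1 * b 0 := by linear_combination h2
    have e02 : a 0 * b 2 = a 2 * b 0 := by linear_combination -h1
    have e12 : a 1 * b 2 = a 2 * b 1 := by linear_combination h0
    fin_cases i <;> fin_cases j
    · rfl
    · exact e01
    · exact e02
    · exact e01.symm
    · rfl
    · exact e12
    · exact e02.symm
    · exact e12.symm
    · rfl
  · intro h
    ext i
    fin_cases i
    · change a 1 * b 2 - a 2 * b 1 = 0
      linear_combination h 1 2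
    · change a 2 * b 0 - a 0 * b 2 = 0
      linear_combination h 2 0
    · change a 0 * b 1 - a 1 * b 0 = 0
      linear_combination h 0 1

end cross

section flat

variable {K : Type*} [Field K]

/-- The restriction of a polynomial to the line `t₀ + s p₀`. -/
noncomputable def ev (t p : Fin 3 → K) : MvPolynomial (Fin 3) K →ₐ[K] Polynomial K :=
  aeval (fun i => Polynomial.C (t i) + Polynomial.X * Polynomial.C (p i))

lemma eval_ev (t p : Fin 3 → K) (s : K) (P : MvPolynomial (Fin 3) K) :
    (ev t p P).eval s = eval (fun i => t i + s * p i) P := by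
  have h : (Polynomial.evalRingHom s).comp (ev t p).toRingHom =
      (eval (fun i => t i + s * p i) : MvPolynomial (Fin 3) K →+* K) := by
    apply MvPolynomial.ringHom_ext
    · intro a
      simp [ev]
    · intro i
      simp [ev]
      ring
  exact RingHom.congr_fun h P

lemma derivative_ev (t p : Fin 3 → K) (P : MvPolynomial (Fin 3) K) :
    Polynomial.derivative (ev t p P) = ∑ b, Polynomial.C (p b) * ev t p (pderiv b P) := by
  induction P using MvPolynomial.induction_on with
  | C a => simp [ev]
  | add P Q hP hQ =>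
    simp only [map_add, hP, hQ, mul_add, Finset.sum_add_distrib]
  | mul_X P i hP =>
    rw [map_mul, Polynomial.derivative_mul, hP]
    have h1 : ev t p (X i) = Polynomial.C (t i) + Polynomial.X * Polynomial.C (p i) := by
      simp [ev]
    have h2 : Polynomial.derivative (ev t p (X i)) = Polynomial.C (p i) := by
      rw [h1]; simp
    rw [h2]
    have h3 : ∀ b, ev t p (pderiv b (P * X i)) = ev t p (pderiv b P) * ev t p (X i) +
        ev t p P * (if b = i then 1 else 0) := by
      intro b
      rw [Derivation.leibniz, pderiv_X, map_add]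
      simp only [smul_eq_mul, map_mul, Pi.single_apply]
      by_cases h : b = i
      · subst h; simp; ring
      · rw [if_neg h, if_neg (fun h' => h h'.symm)]; simp; ring
    simp only [h3]
    simp only [mul_add, Finset.sum_add_distrib, Finset.sum_mul]
    congr 1
    · apply Finset.sum_congr rfl
      intro b _
      ring
    · simp only [mul_ite, mul_one, mul_zero, Finset.sum_ite_eq', Finset.mem_univ, if_true]
      ring

variable [CharZero K]

/-- `(A × c) · ∇` applied to `A i`. -/
noncomputable def Xf (A : Fin 3 → MvPolynomial (Fin 3) K) (c : Fin 3 → K) (i : Fin 3) :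
    MvPolynomial (Fin 3) K :=
  ∑ b, cr A (fun j => C (c j)) b * pderiv b (A i)

omit [CharZero K] in
lemma exists_dt_eq_one {n : Fin 3 → K} (hn : n ≠ 0) : ∃ e : Fin 3 → K, dt n e = 1 := by
  obtain ⟨i, hi⟩ := Function.ne_iff.1 hn
  rw [Pi.zero_apply] at hi
  refine ⟨Pi.single i (n i)⁻¹, ?_⟩
  unfold dt
  fin_cases i
  · simpa using mul_inv_cancel₀ hi
  · simpa using mul_inv_cancel₀ hi
  · simpa using mul_inv_cancel₀ hi

theorem flat {A : Fin 3 → MvPolynomial (Fin 3) K}
    (hX : ∀ (c : Fin 3 → K) (i j : Fin 3), Xf A c i * A j = Xf A c j * A i)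
    {t p : Fin 3 → K} (hn : (fun i => eval t (A i)) ≠ 0)
    (hp : dt (fun i => eval t (A i)) p = 0) (i j : Fin 3) :
    eval (t + p) (A i) * eval t (A j) = eval (t + p) (A j) * eval t (A i) := by
  obtain ⟨e, he⟩ := exists_dt_eq_one hn
  set n : Fin 3 → K := fun i => eval t (A i) with hndef
  set a : Fin 3 → Polynomial K := fun i => ev t p (A i) with ha
  set c : Fin 3 → K := cr p e with hc
  set q : Polynomial K := dt a (fun i => Polynomial.C (e i)) with hq
  set r : Polynomial K := dt a (fun i => Polynomial.C (p i)) with hr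
  have ha0 : ∀ i, (a i).eval 0 = n i := by
    intro i
    rw [ha, hndef]
    simp only [eval_ev]
    congr 2
    ext j; simp
  have ha1 : ∀ i, (a i).eval 1 = eval (t + p) (A i) := by
    intro i
    rw [ha]
    simp only [eval_ev]
    congr 2
    ext j; simp
  have hq0 : q.eval 0 = 1 := by
    rw [hq, ← he]
    simp only [dt, Polynomial.eval_add, Polynomial.eval_mul, ha0, Polynomial.eval_C]
  have hr0 : r.eval 0 = 0 := by
    have : r.eval 0 = dt n p := by
      rw [hr]
      simp only [dt, Polynomial.eval_add, Polynomial.eval_mul, ha0, Polynomial.eval_C]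
    rw [this, hp]
  -- the vector identity
  have hvec : ∀ b, q * Polynomial.C (p b) = cr a (fun i => Polynomial.C (c i)) b +
      r * Polynomial.C (e b) := by
    intro b
    have hcC : (fun i => Polynomial.C (c i)) =
        cr (fun i => Polynomial.C (p i)) (fun i => Polynomial.C (e i)) := by
      ext1 i
      rw [hc]
      fin_cases i <;> simp [cr]
    rw [hcC, hq, hr]
    fin_cases b <;> simp [cr, dt] <;> ring
  set g : Fin 3 → Polynomial K := fun i => ∑ b, Polynomial.C (e b) * ev t p (pderiv b (A i))
    with hg
  set M : Polynomial K := dt (fun j => Polynomial.C (e j)) (fun j => ev t p (Xf A c j)) with hM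
  have hXev : ∀ i, ev t p (Xf A c i) =
      ∑ b, cr a (fun i => Polynomial.C (c i)) b * ev t p (pderiv b (A i)) := by
    intro i
    unfold Xf
    rw [map_sum]
    apply Finset.sum_congr rfl
    intro b _
    rw [map_mul]
    congr 1
    rw [ha]
    have hC : ∀ x : K, ev t p (C x) = Polynomial.C x := fun x => by simp [ev]
    fin_cases b <;> simp [cr, hC]
  have hXa : ∀ i j, ev t p (Xf A c i) * a j = ev t p (Xf A c j) * a i := by
    intro i j
    rw [ha]
    simp only
    rw [← map_mul, ← map_mul, hX]
  have hqX : ∀ i, q * ev t p (Xf A c i) = M * a i := by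
    intro i
    rw [hq, hM]
    unfold dt
    linear_combination Polynomial.C (e 0) * hXa i 0 + Polynomial.C (e 1) * hXa i 1 +
      Polynomial.C (e 2) * hXa i 2
  have hder : ∀ i, q ^ 2 * Polynomial.derivative (a i) = M * a i + q * r * g i := by
    intro i
    have h1 : Polynomial.derivative (a i) = ∑ b, Polynomial.C (p b) * ev t p (pderiv b (A i)) :=
      derivative_ev t p (A i)
    have h2 : q * Polynomial.derivative (a i) = ev t p (Xf A c i) + r * g i := by
      rw [h1, hXev, hg]
      simp only
      rw [Finset.mul_sum, Finset.mul_sum, ← Finset.sum_add_distrib]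
      apply Finset.sum_congr rfl
      intro b _
      linear_combination (ev t p (pderiv b (A i))) * hvec b
    linear_combination q * h2 + hqX i
  have hr' : q ^ 2 * Polynomial.derivative r =
      (M + q * dt g (fun i => Polynomial.C (p i))) * r := by
    have h1 : Polynomial.derivative r = dt (fun i => Polynomial.derivative (a i))
        (fun i => Polynomial.C (p i)) := by
      rw [hr]
      simp [dt]
    rw [h1]
    simp only [dt]
    have hrr : r = a 0 * Polynomial.C (p 0) + a 1 * Polynomial.C (p 1) + a 2 * Polynomial.C (p 2) :=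
      rfl
    linear_combination Polynomial.C (p 0) * hder 0 + Polynomial.C (p 1) * hder 1 +
      Polynomial.C (p 2) * hder 2 - M * hrr
  have hr_zero : r = 0 := by
    apply ode_zero (q := q ^ 2) _ hr0 hr'
    rw [Polynomial.eval_pow, hq0]
    simp
  have hder2 : ∀ i, q ^ 2 * Polynomial.derivative (a i) = M * a i := by
    intro i
    rw [hder, hr_zero]
    ring
  have hd : a i * Polynomial.C (n j) - a j * Polynomial.C (n i) = 0 := by
    apply ode_zero (q := q ^ 2) (m := M)
    · rw [Polynomial.eval_pow, hq0]
      simp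
    · simp only [Polynomial.eval_sub, Polynomial.eval_mul, ha0, Polynomial.eval_C]
      ring
    · have h4 : Polynomial.derivative (a i * Polynomial.C (n j) - a j * Polynomial.C (n i)) =
          Polynomial.derivative (a i) * Polynomial.C (n j) -
            Polynomial.derivative (a j) * Polynomial.C (n i) := by
        simp
      rw [h4]
      linear_combination Polynomial.C (n j) * hder2 i - Polynomial.C (n i) * hder2 j
  have h3 := congrArg (Polynomial.eval 1) hd
  simp only [Polynomial.eval_sub, Polynomial.eval_mul, ha1, Polynomial.eval_C,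
    Polynomial.eval_zero] at h3
  linear_combination h3

omit [CharZero K] in
lemma eq_zero_of_parallel {v m n : Fin 3 → K} (h1 : ∀ i j, v i * n j = v j * n i)
    (h2 : ∀ i j, v i * m j = v j * m i) (h3 : cr m n ≠ 0) : v = 0 := by
  by_contra hv
  apply h3
  rw [cr_eq_zero_iff]
  intro i j
  obtain ⟨k, hk⟩ := Function.ne_iff.1 hv
  rw [Pi.zero_apply] at hk
  apply mul_left_cancel₀ hk
  linear_combination n j * h2 k i - n i * h2 k j + m k * h1 i j

theorem pencil {A : Fin 3 → MvPolynomial (Fin 3) K} (hA : A ≠ 0)
    (h0 : dt A (fun i => X i) = 0)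
    (hX : ∀ (c : Fin 3 → K) (i j : Fin 3), Xf A c i * A j = Xf A c j * A i) :
    ∃ b : Fin 3 → K, b ≠ 0 ∧ dt (fun i => C (b i)) A = 0 := by
  classical
  set al : (Fin 3 → K) → Fin 3 → K := fun t i => eval t (A i) with hal
  have h0' : ∀ t, dt (al t) t = 0 := by
    intro t
    have := congrArg (eval t) h0
    simpa [dt] using this
  -- a point where `A` does not vanish
  obtain ⟨t0, ht0⟩ : ∃ t0, al t0 ≠ 0 := by
    by_contra hcon
    push Not at hcon
    apply hA
    ext1 i
    apply MvPolynomial.funext
    intro t
    have := congrFun (hcon t) i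
    simpa [hal] using this
  obtain ⟨e, he⟩ := exists_dt_eq_one ht0
  set n := al t0 with hn
  have hflat : ∀ t y, al t ≠ 0 → dt (al t) y = 0 → ∀ i j, al y i * al t j = al y j * al t i := by
    intro t y ht hy i j
    have h1 : dt (fun i => eval t (A i)) (y - t) = 0 := by
      have h2 := h0' t
      simp only [dt, hal] at h2 hy ⊢
      simp only [Pi.sub_apply]
      linear_combination hy - h2
    have h3 := flat hX ht h1 i j
    rwa [add_sub_cancel] at h3
  obtain ⟨t1, ht1⟩ : ∃ t1, cr (al t1) n ≠ 0 := by
    by_contra hcon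
    push Not at hcon
    obtain ⟨j, hj⟩ := Function.ne_iff.1 ht0
    rw [Pi.zero_apply] at hj
    have h1 : A j * dt (fun i => C (n i)) (fun i => X i) = 0 := by
      apply MvPolynomial.funext
      intro t
      have h2 := cr_eq_zero_iff.1 (hcon t)
      have h3 := h0' t
      simp only [hal, dt] at h2 h3
      simp only [dt, map_mul, map_add, eval_C, eval_X, map_zero]
      linear_combination n j * h3 - t 0 * h2 0 j - t 1 * h2 1 j - t 2 * h2 2 j
    rcases mul_eq_zero.1 h1 with h2 | h2
    · apply hj
      rw [hn, hal]
      simp [h2]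
    · have h3 := congrArg (eval e) h2
      simp only [dt, map_mul, map_add, eval_C, eval_X, map_zero] at h3
      rw [dt] at he
      rw [he] at h3
      exact one_ne_zero h3
  set s1 := cr (al t1) n with hs1
  refine ⟨s1, ht1, ?_⟩
  apply MvPolynomial.funext
  intro t2
  rw [map_zero]
  have hgoal : eval t2 (dt (fun i => C (s1 i)) A) = dt s1 (al t2) := by
    simp [dt, hal]
  rw [hgoal]
  by_contra hκ
  set s2 := cr (al t2) n with hs2
  -- `A` vanishes on the lines spanned by `al τ × n`
  have hz0 : ∀ τ, cr (al τ) n ≠ 0 → ∀ μ : K, al (fun i => μ * cr (al τ) n i) = 0 := by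
    intro τ hτ μ
    have hτ0 : al τ ≠ 0 := by
      rintro h
      apply hτ
      rw [h]
      rw [cr_eq_zero_iff]
      simp
    apply eq_zero_of_parallel (m := al τ) (n := n) _ _ hτ
    · apply hflat t0 _ ht0
      simp only [dt, cr_zero, cr_one, cr_two]
      ring
    · apply hflat τ _ hτ0
      simp only [dt, cr_zero, cr_one, cr_two]
      ring
  have hA0 : al (fun _ => 0) = 0 := by
    have := hz0 t1 ht1 0
    simpa using this
  have hz : ∀ τ, ∀ μ : K, al (fun i => μ * cr (al τ) n i) = 0 := by
    intro τ μ
    by_cases hτ : cr (al τ) n = 0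
    · rw [hτ]
      simpa using hA0
    · exact hz0 τ hτ μ
  set κ := dt s1 (al t2) with hκdef
  -- coordinates in the plane
  have hcoord : ∀ y : Fin 3 → K, dt n y = 0 → ∀ i, y i =
      (dt (cr y s2) e / (-κ)) * s1 i + (dt (cr s1 y) e / (-κ)) * s2 i := by
    intro y hy i
    have hdet : dt (cr s1 s2) e = -κ := by
      have : dt (cr s1 s2) e = -κ * dt n e := by
        rw [hκdef]
        simp only [hs2, dt, cr_zero, cr_one, cr_two]
        simp only [hs1, cr_zero, cr_one, cr_two]
        ring
      rw [this, he, mul_one]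
    have hdet2 : dt (cr s1 s2) y = 0 := by
      have : dt (cr s1 s2) y = -κ * dt n y := by
        rw [hκdef]
        simp only [hs2, dt, cr_zero, cr_one, cr_two]
        simp only [hs1, cr_zero, cr_one, cr_two]
        ring
      rw [this, hy, mul_zero]
    have hκ' : -κ ≠ 0 := neg_ne_zero.2 hκ
    rw [div_mul_eq_mul_div, div_mul_eq_mul_div, ← add_div, eq_div_iff hκ', ← hdet]
    have hid : y i * dt (cr s1 s2) e = dt (cr y s2) e * s1 i + dt (cr s1 y) e * s2 i +
        dt (cr s1 s2) y * e i := by
      fin_cases i <;> simp only [dt, cr_zero, cr_one, cr_two, Fin.zero_eta, Fin.mk_one,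
        Fin.reduceFinMk] <;> ring
    rw [hid, hdet2]
    ring
  -- the polynomial curve
  set Ap : Fin 3 → Polynomial K := fun i => ev t1 (t2 - t1) (A i) with hAp
  set S : Fin 3 → Polynomial K := cr Ap (fun i => Polynomial.C (n i)) with hS
  set xp : Polynomial K := dt (cr S (fun i => Polynomial.C (s2 i))) (fun i => Polynomial.C (e i))
    with hxp
  set yp : Polynomial K := dt (cr (fun i => Polynomial.C (s1 i)) S) (fun i => Polynomial.C (e i))
    with hyp
  have hApe : ∀ lam : K, (fun i => (Ap i).eval lam) = al (fun i => t1 i + lam * (t2 - t1) i) := by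
    intro lam
    ext1 i
    rw [hAp, hal]
    simp only [eval_ev]
  have hSe : ∀ lam : K, (fun i => (S i).eval lam) =
      cr (al (fun i => t1 i + lam * (t2 - t1) i)) n := by
    intro lam
    rw [← hApe]
    ext1 i
    rw [hS]
    fin_cases i <;> simp [cr]
  have hxe : ∀ lam : K, xp.eval lam = dt (cr (fun i => (S i).eval lam) s2) e := by
    intro lam
    rw [hxp]
    simp [dt, cr]
  have hye : ∀ lam : K, yp.eval lam = dt (cr s1 (fun i => (S i).eval lam)) e := by
    intro lam
    rw [hyp]
    simp [dt, cr]
  have hS0 : (fun i => (S i).eval 0) = s1 := by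
    rw [hSe, hs1]
    congr 2
    ext1 i; simp
  have hS1 : (fun i => (S i).eval 1) = s2 := by
    rw [hSe, hs2]
    congr 2
    ext1 i; simp
  have hdet : dt (cr s1 s2) e = -κ := by
    have : dt (cr s1 s2) e = -κ * dt n e := by
      rw [hκdef]
      simp only [hs2, dt, cr_zero, cr_one, cr_two]
      simp only [hs1, cr_zero, cr_one, cr_two]
      ring
    rw [this, he, mul_one]
  have hx0 : xp.eval 0 = -κ := by rw [hxe, hS0, hdet]
  have hy0 : yp.eval 0 = 0 := by
    rw [hye, hS0]
    simp only [dt, cr_zero, cr_one, cr_two]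
    ring
  have hy1 : yp.eval 1 = -κ := by rw [hye, hS1, hdet]
  have hκ' : -κ ≠ 0 := neg_ne_zero.2 hκ
  -- slopes
  set Mm : Set K := {m | ∀ u : K, al (fun i => u * (s1 i + m * s2 i)) = 0} with hMm
  have hslope : ∀ lam : K, xp.eval lam ≠ 0 → yp.eval lam / xp.eval lam ∈ Mm := by
    intro lam hx u
    have h1 := hz (fun i => t1 i + lam * (t2 - t1) i) (u * (-κ) / xp.eval lam)
    rw [← h1]
    congr 1
    ext1 i
    have h2 := hcoord (cr (al (fun i => t1 i + lam * (t2 - t1) i)) n) (by
      simp only [dt, cr_zero, cr_one, cr_two]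
      ring) i
    rw [← hSe, ← hxe, ← hye] at h2
    simp only at h2
    have h3 : cr (al (fun i => t1 i + lam * (t2 - t1) i)) n i = (S i).eval lam :=
      (congrFun (hSe lam) i).symm
    rw [h3, h2]
    field_simp
    ring
  have hinf : Mm.Infinite := by
    intro hfin
    have hprod : xp * ∏ m ∈ hfin.toFinset, (yp - Polynomial.C m * xp) = 0 := by
      apply Polynomial.funext
      intro lam
      rw [Polynomial.eval_mul, Polynomial.eval_zero]
      by_cases hx : xp.eval lam = 0
      · rw [hx, zero_mul]
      · rw [Polynomial.eval_prod, Finset.prod_eq_zero (i := yp.eval lam / xp.eval lam)]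
        · rw [mul_zero]
        · rw [Set.Finite.mem_toFinset]
          exact hslope lam hx
        · simp only [Polynomial.eval_sub, Polynomial.eval_mul, Polynomial.eval_C]
          rw [div_mul_cancel₀ _ hx, sub_self]
    rcases mul_eq_zero.1 hprod with h1 | h1
    · rw [h1, Polynomial.eval_zero] at hx0
      exact hκ' hx0.symm
    · obtain ⟨m, -, hm⟩ := Finset.prod_eq_zero_iff.1 h1
      have h2 := congrArg (Polynomial.eval 0) hm
      simp only [Polynomial.eval_sub, Polynomial.eval_mul, Polynomial.eval_C, hy0, hx0, zero_sub,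
        Polynomial.eval_zero, neg_eq_zero, mul_eq_zero, hκ', or_false] at h2
      rw [h2, map_zero, zero_mul, sub_zero] at hm
      rw [hm, Polynomial.eval_zero] at hy1
      exact hκ' hy1.symm
  -- vanishing on the plane outside a line
  have hpl : ∀ u m : K, al (fun i => u * s1 i + m * (u * s2 i)) = 0 := by
    intro u m
    ext1 i
    have h1 : ev (fun i => u * s1 i) (fun i => u * s2 i) (A i) = 0 := by
      apply Polynomial.eq_zero_of_infinite_isRoot
      apply hinf.mono
      intro m' hm'
      rw [Set.mem_ofPred_eq, Polynomial.IsRoot, eval_ev]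
      have h2 := congrFun (hm' u) i
      rw [hal] at h2
      simp only [Pi.zero_apply] at h2
      rw [← h2]
      congr 2
      ext1 j
      ring
    have h2 := congrArg (Polynomial.eval m) h1
    rw [eval_ev, Polynomial.eval_zero] at h2
    exact h2
  have hpl2 : ∀ u v : K, u ≠ 0 → al (fun i => u * s1 i + v * s2 i) = 0 := by
    intro u v hu
    rw [← hpl u (v / u)]
    congr 1
    ext1 i
    field_simp
  have hpl3 : ∀ u v : K, al (fun i => u * s1 i + v * s2 i) = 0 := by
    intro u v
    ext1 i
    have h1 : ev (fun i => v * s2 i) s1 (A i) = 0 := by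
      apply Polynomial.eq_zero_of_infinite_isRoot
      refine Set.Infinite.mono (s := {0}ᶜ) ?_ (Set.finite_singleton (0 : K)).infinite_compl
      intro u' hu'
      rw [Set.mem_ofPred_eq, Polynomial.IsRoot, eval_ev]
      have h2 := congrFun (hpl2 u' v hu') i
      rw [hal] at h2
      simp only [Pi.zero_apply] at h2
      rw [← h2]
      congr 2
      ext1 j
      ring
    have h2 := congrArg (Polynomial.eval u) h1
    rw [eval_ev, Polynomial.eval_zero] at h2
    rw [hal]
    simp only [Pi.zero_apply]
    rw [← h2]
    congr 2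
    ext1 j
    ring
  apply ht0
  have h1 := hcoord t0 (h0' t0)
  have h2 := hpl3 (dt (cr t0 s2) e / (-κ)) (dt (cr s1 t0) e / (-κ))
  rw [← funext h1] at h2
  exact h2

end flat

end Pool.Agent.H22.SLP
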