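import Pool.Agent.H22.SLP.Dual2

/-!
The Gordan–Noether argument for the multiplication from degree one.
-/

set_option autoImplicit false

namespace Pool.Agent.H22.SLP

namespace DS

variable {K : Type*} [Field K] {E : Type*} [CommRing E] [Algebra (FL K) E] [Algebra K E]
variable (S : DS K E)

/-- Properties of the quotient of `E` by `h`. The socle degree of the quotient is `D`. -/
structure Good (c D : ℕ) : Prop where
  hD : D + 1 = S.s + c
  hc : 2 ≤ c
  hs : 2 ≤ S.s
  h_div : ∀ m y, S.h * y ∈ S.G m → y ∈ S.G (m - c)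
  socA : ∀ m ≤ D, ∀ y ∈ S.G m, (∀ b, ∃ u, S.x b * y = S.h * u) → ∃ u, y = S.h * u
  top : ∃ cs : List (Fin 3), cs.length = D ∧ ¬ ∃ u, (cs.map S.x).prod = S.h * u
  dim3 : ∀ y : Fin 3 → E, (∀ i, y i ∈ S.G (D + 1)) → ∃ k : Fin 3 → FL K, k ≠ 0 ∧
    ∃ u, ∑ i, algebraMap (FL K) E (k i) * y i = S.h * u

lemma prod_mem (cs : List (Fin 3)) {m : ℕ} {y : E} (hy : y ∈ S.G m) :
    (cs.map S.x).prod * y ∈ S.G (m + cs.length) := by
  induction cs with
  | nil => simpa using hy
  | cons c cs ih =>
    rw [List.map_cons, List.prod_cons, List.length_cons, mul_assoc, ← add_assoc]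
    exact S.x_mul _ c _ ih

variable {S} in
lemma Good.descend {c D : ℕ} (hG : S.Good c D) {m : ℕ} {y : E} (hy : y ∈ S.G m) : ∀ n : ℕ,
    m + n ≤ D + 1 → (∀ cs : List (Fin 3), cs.length = n → ∃ u, (cs.map S.x).prod * y = S.h * u) →
    ∃ u, y = S.h * u := by
  intro n
  induction n with
  | zero =>
    intro _ h
    obtain ⟨u, hu⟩ := h [] rfl
    exact ⟨u, by simpa using hu⟩
  | succ n ih =>
    intro hmn h
    apply ih (by omega)
    intro cs hcs
    apply hG.socA (m + cs.length) (by omega) _ (S.prod_mem cs hy)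
    intro b
    obtain ⟨u, hu⟩ := h (b :: cs) (by simp [hcs])
    refine ⟨u, ?_⟩
    rw [← hu, List.map_cons, List.prod_cons, mul_assoc]

variable {S} in
lemma Good.vec_eq_zero {c D : ℕ} (hG : S.Good c D) {k : Fin 3 → FL K}
    (h : ∃ u, S.vec k = S.h * u) : k = 0 := by
  obtain ⟨u, hu⟩ := h
  have h1 : S.h * u ∈ S.G 2 := by rw [← hu]; exact S.vec_mem k
  have h2 := hG.h_div 2 u h1
  rw [show 2 - c = 0 by have := hG.hc; omega] at h2
  rw [S.G_zero u h2, mul_zero] at hu
  exact S.vec_zero' hu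

variable [CharZero K]

/-- differentiate a congruence for a multiple of a power of the generic form -/
lemma mono {T : E} (hT : ∀ c, S.D c T = 0) : ∀ (n : ℕ) (y : E) (φ : FL K),
    (∀ c, S.D c y = 0) → (∃ u, S.ell ^ n * y = algebraMap (FL K) E φ * T + S.h * u) →
    ∀ cs : List (Fin 3), cs.length = n → ∃ (φ' : FL K) (u : E),
      (cs.map S.x).prod * y = algebraMap (FL K) E φ' * T + S.h * u ∧ (φ = 0 → φ' = 0) := by
  intro n
  induction n with
  | zero =>
    rintro y φ _ ⟨u, hu⟩ cs hcs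
    rw [List.length_eq_zero_iff] at hcs
    subst hcs
    refine ⟨φ, u, ?_, fun h => h⟩
    rw [List.map_nil, List.prod_nil, ← hu, pow_zero]
  | succ n ih =>
    rintro y φ hy ⟨u, hu⟩ cs hcs
    cases cs with
    | nil => simp at hcs
    | cons c cs =>
      obtain ⟨r, hr⟩ := exists_inv (K := K) (E := E) n
      have h1 := congrArg (S.D c) hu
      rw [map_add, D_mul, D_mul, D_mul, D_pow, D_ell, hy, hT, S.D_h, S.D_alg] at h1
      have h2 : ∀ c', S.D c' (S.x c * y) = 0 := by
        intro c'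
        rw [D_mul, hy, S.D_x]
        ring
      obtain ⟨φ', u', h3, h4⟩ := ih (S.x c * y) (r * dl K c φ) h2
        ⟨algebraMap (FL K) E r * S.D c u, by
          rw [map_mul]
          linear_combination (-(S.ell ^ n * (S.x c * y))) * hr + algebraMap (FL K) E r * h1⟩ cs
          (by simpa using hcs)
      refine ⟨φ', u', ?_, ?_⟩
      · rw [List.map_cons, List.prod_cons, ← h3]
        ring
      · intro h5
        apply h4
        rw [h5, map_zero, mul_zero]

lemma mono0 (n : ℕ) (y : E) (hy : ∀ c, S.D c y = 0) (h : ∃ u, S.ell ^ n * y = S.h * u)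
    (cs : List (Fin 3)) (hcs : cs.length = n) : ∃ u, (cs.map S.x).prod * y = S.h * u := by
  obtain ⟨u, hu⟩ := h
  obtain ⟨φ', u', h1, h2⟩ := S.mono (T := 0) (fun c => map_zero _) n y 0 hy
    ⟨u, by rw [hu]; ring⟩ cs hcs
  exact ⟨u', by rw [h1]; ring⟩

/-- The primal kernel. -/
def primSub (n : ℕ) : Submodule (FL K) (Fin 3 → FL K) where
  carrier := {k | ∃ u ∈ S.G (S.s - 1), S.ell ^ (n + 1) * S.vec k = S.h * u}
  zero_mem' := ⟨0, Submodule.zero_mem _, by rw [vec_eq]; simp⟩
  add_mem' := by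
    rintro k k' ⟨w, hw, h⟩ ⟨w', hw', h'⟩
    refine ⟨w + w', Submodule.add_mem _ hw hw', ?_⟩
    have : S.vec (k + k') = S.vec k + S.vec k' := by
      rw [vec_eq, vec_eq, vec_eq]
      simp only [Pi.add_apply, map_add]
      ring
    rw [this]
    linear_combination h + h'
  smul_mem' := by
    rintro a k ⟨w, hw, h⟩
    refine ⟨algebraMap (FL K) E a * w, S.alg_mul_mem _ hw, ?_⟩
    have : S.vec (a • k) = algebraMap (FL K) E a * S.vec k := by
      rw [vec_eq, vec_eq]
      simp only [Pi.smul_apply, smul_eq_mul, map_mul]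
      ring
    rw [this]
    linear_combination algebraMap (FL K) E a * h

variable {S}

theorem Good.prim_stable {c D : ℕ} (hG : S.Good c D) {n : ℕ} (hn : n + 3 = D) :
    Stable (S.primSub n) where
  self := by
    rintro k ⟨u, hu, h⟩ k' ⟨u', hu', h'⟩
    have h1 : ∀ c, ∃ z, S.x c * (S.vec k * u') = S.ell * z := S.cross (n := n) h h'
    have h2 : S.vec k * u' ∈ S.G S.s := by
      have := S.vec_mul_mem k hu'
      have hs := hG.hs
      rwa [show S.s - 1 + 1 = S.s by omega] at this
    obtain ⟨v, hv, hvw⟩ := S.soc' le_rfl h2 h1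
    have h3 := congrArg (S.DD k) h'
    rw [DD_mul, DD_mul, DD_h, DD_vec, DD_pow, DD_ell] at h3
    refine ⟨S.DD k u' - ((n : E) + 1) * v, ?_, ?_⟩
    · apply Submodule.sub_mem _ (S.DD_mem _ hu')
      have h4 : ((n : E) + 1) = algebraMap (FL K) E ((n : FL K) + 1) := by
        simp
      rw [h4]
      exact S.alg_mul_mem _ hv
    · -- `ℓ ^ n k k' = h v`
      have h5 : S.ell ^ n * (S.vec k * S.vec k') = S.h * v := by
        apply S.cancel_pow 1
        rw [pow_one]
        linear_combination S.vec k * h' + S.h * hvw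
      linear_combination h3 - ((n : E) + 1) * h5
  euler := by
    rintro k ⟨w, hw, h⟩
    have h3 := congrArg (S.DD tl) h
    rw [DD_mul, DD_mul, DD_h, DD_vec, DD_pow, DD_ell, vec_tl] at h3
    refine ⟨S.DD tl w - ((n : E) + 1) * w, ?_, ?_⟩
    · apply Submodule.sub_mem _ (S.DD_mem _ hw)
      have h4 : ((n : E) + 1) = algebraMap (FL K) E ((n : FL K) + 1) := by
        simp
      rw [h4]
      exact S.alg_mul_mem _ hw
    · linear_combination h3 - ((n : E) + 1) * h
  tl_notMem := by
    rintro ⟨u, hu, h⟩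
    rw [vec_tl] at h
    obtain ⟨cs, hcs, hcs'⟩ := hG.top
    apply hcs'
    cases cs with
    | nil => simp at hcs; omega
    | cons a cs =>
      obtain ⟨u', hu'⟩ := S.mono0 (n + 2) 1 (fun c => Derivation.map_one_eq_zero _)
        ⟨u, by rw [← h]; ring⟩ cs (by simp at hcs; omega)
      refine ⟨S.x a * u', ?_⟩
      rw [List.map_cons, List.prod_cons]
      linear_combination S.x a * hu'
  const := by
    rintro k ⟨u, hu, h⟩ hk
    have h1 : ∀ c, S.D c (S.vec k) = 0 := by
      intro c
      rw [D_vec, vec_eq]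
      simp only [hk, map_zero]
      ring
    apply hG.vec_eq_zero
    apply hG.descend (S.vec_mem k) (n + 1) (by omega)
    intro cs hcs
    exact S.mono0 (n + 1) _ h1 ⟨u, h⟩ cs hcs

theorem Good.prim_main {c D : ℕ} (hG : S.Good c D) {n : ℕ} (hn : n + 3 = D) {k : Fin 3 → FL K}
    {u : E} (h : S.ell ^ (n + 1) * S.vec k = S.h * u) : k = 0 := by
  have hu : u ∈ S.G (S.s - 1) := by
    have h1 : S.ell ^ (n + 1) * S.vec k ∈ S.G (n + 3) := by
      have h2 : ∀ j, S.ell ^ j * S.vec k ∈ S.G (j + 2) := by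
        intro j
        induction j with
        | zero => simpa using S.vec_mem k
        | succ j ih =>
          have := S.vec_mul_mem tl ih
          rw [vec_tl] at this
          rw [pow_succ', mul_assoc, show j + 1 + 2 = j + 2 + 1 by ring]
          exact this
      exact h2 (n + 1)
    rw [h] at h1
    have h3 := hG.h_div _ _ h1
    have h4 := hG.hD
    have h5 := hG.hc
    rwa [show n + 3 - c = S.s - 1 by omega] at h3
  by_contra hk
  have hV : S.primSub n ≠ ⊥ := by
    intro h0
    apply hk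
    have : k ∈ S.primSub n := ⟨u, hu, h⟩
    rw [h0] at this
    exact (Submodule.mem_bot _).1 this
  obtain ⟨b, ψ, hb, hψ, ⟨w', hw', h'⟩, hd⟩ := (hG.prim_stable hn).exists_center hV
  have hc : Center b ψ := ⟨hb, hψ, hd⟩
  change S.ell ^ (n + 1) * S.vec (kv b ψ) = S.h * w' at h'
  set β := S.vec (bl b) with hβ
  have hDβ : ∀ p, S.DD p β = 0 := fun p => DD_of_D S (S.D_bl b) p
  have chain : ∀ j m, m + j = n + 1 → ∃ u, S.ell ^ m * β ^ j * S.vec (kv b ψ) = S.h * u := by
    intro j
    induction j with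
    | zero => intro m hm; exact ⟨w', by rw [← h', ← hm]; ring⟩
    | succ j ih =>
      intro m hm
      obtain ⟨u', hu'⟩ := ih (m + 1) (by omega)
      obtain ⟨r, hr⟩ := exists_inv (K := K) (E := E) m
      have h1 := congrArg (S.DD (bl b)) hu'
      have h2 : S.DD (bl b) (β ^ j) = 0 := by
        cases j with
        | zero =>
          rw [pow_zero]
          exact DD_of_D S (fun c => Derivation.map_one_eq_zero _) _
        | succ j => rw [DD_pow, hDβ]; ring
      rw [DD_mul, DD_mul, DD_mul, DD_pow, DD_ell, h2, DD_bl_kv S hc, DD_h, ← hβ] at h1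
      refine ⟨algebraMap (FL K) E r * S.DD (bl b) u', ?_⟩
      linear_combination (-(S.ell ^ m * β ^ (j + 1) * S.vec (kv b ψ))) * hr +
        algebraMap (FL K) E r * h1
  have hpow : ∀ j m, m + j = n + 2 → ∃ u, S.ell ^ (n + 2) =
      algebraMap (FL K) E (ψ ^ j) * (S.ell ^ m * β ^ j) + S.h * u := by
    intro j
    induction j with
    | zero => intro m hm; exact ⟨0, by rw [← hm]; simp⟩
    | succ j ih =>
      intro m hm
      obtain ⟨u', hu'⟩ := ih (m + 1) (by omega)
      obtain ⟨u'', hu''⟩ := chain j m (by omega)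
      refine ⟨u' + algebraMap (FL K) E (ψ ^ j) * u'', ?_⟩
      rw [vec_kv] at hu''
      rw [hu', pow_succ ψ j, map_mul]
      linear_combination algebraMap (FL K) E (ψ ^ j) * hu''
  obtain ⟨u1, hu1⟩ := hpow (n + 2) 0 (by omega)
  rw [pow_zero, one_mul] at hu1
  have hmono : ∀ cs : List (Fin 3), cs.length = n + 2 → ∃ (φ' : FL K) (u : E),
      (cs.map S.x).prod * 1 = algebraMap (FL K) E φ' * β ^ (n + 2) + S.h * u := by
    intro cs hcs
    have hT : ∀ c, S.D c (β ^ (n + 2)) = 0 := by
      intro c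
      rw [D_pow, hβ, D_bl, mul_zero]
    obtain ⟨φ', u', h1, -⟩ := S.mono hT (n + 2) 1 (ψ ^ (n + 2))
      (fun c => Derivation.map_one_eq_zero _) ⟨u1, by rw [mul_one]; exact hu1⟩ cs hcs
    exact ⟨φ', u', h1⟩
  have hβmem : β ^ (n + 2) ∈ S.G (n + 3) := by
    have h2 : ∀ j, β ^ j ∈ S.G (j + 1) := by
      intro j
      induction j with
      | zero => simpa using S.one_mem
      | succ j ih =>
        rw [pow_succ']
        exact S.vec_mul_mem _ ih
    exact h2 (n + 2)
  obtain ⟨k', hk', u2, hu2⟩ := hG.dim3 (fun i => S.x i * β ^ (n + 2)) (by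
    intro i
    rw [← hn]
    exact S.x_mul _ i _ hβmem)
  apply hk'
  apply hG.vec_eq_zero
  apply hG.descend (S.vec_mem k') (n + 2) (by omega)
  intro cs hcs
  obtain ⟨φ', u', h1⟩ := hmono cs hcs
  have h3 : S.vec k' * β ^ (n + 2) = S.h * u2 := by
    rw [← hu2]
    unfold vec
    rw [Finset.sum_mul]
    apply Finset.sum_congr rfl
    intro i _
    ring
  refine ⟨algebraMap (FL K) E φ' * u2 + S.vec k' * u', ?_⟩
  linear_combination S.vec k' * h1 + algebraMap (FL K) E φ' * h3

end DS

end Pool.Agent.H22.SLP
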